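import Pool.Agent.Lib.MP_061452_co.Defs

set_option autoImplicit false

namespace Pool.Agent.Lib.MP_061452_co.OF

variable {V E : Type}

/-- The vertices `a` and `b` are equal, or the two ends `x`, `y` of the path `P`, or the ends of
an edge outside `S`, or both adjacent to one component of the graph outside `S` and `P`. -/
def SameClass (ends : E → Sym2 V) (S P : Set E) (x y a b : V) : Prop :=
  a = b ∨ s(a, b) = s(x, y) ∨ (∃ e : E, e ∉ S ∧ ends e = s(a, b)) ∨
    ∃ q : V, ¬ Touches ends (S ∪ P) q ∧ a ∈ Attach ends (S ∪ P) q ∧ b ∈ Attach ends (S ∪ P) q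

/-- No walk along edges of `S` that avoids `a₁` and `a₂` joins `b₁` to `b₂`. -/
def Apart (ends : E → Sym2 V) (S : Set E) (a₁ a₂ b₁ b₂ : V) : Prop :=
  ¬ (SimpleGraph.fromRel (fun u v : V => u ≠ a₁ ∧ u ≠ a₂ ∧ v ≠ a₁ ∧ v ≠ a₂ ∧
    ∃ e ∈ S, ends e = s(u, v))).Reachable b₁ b₂

/-- The vertices `a` and `b` of `S` lie in the same class, or in two classes that overlap: two
vertices of the first class separate two vertices of the second one on `S`. -/
def Link (ends : E → Sym2 V) (S P : Set E) (x y a b : V) : Prop :=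
  Touches ends S a ∧ Touches ends S b ∧ (SameClass ends S P x y a b ∨
    ∃ a₁ a₂ b₁ b₂ : V, Touches ends S a₁ ∧ Touches ends S a₂ ∧ Touches ends S b₁ ∧
      Touches ends S b₂ ∧ SameClass ends S P x y a a₁ ∧ SameClass ends S P x y a a₂ ∧
      SameClass ends S P x y b b₁ ∧ SameClass ends S P x y b b₂ ∧ Apart ends S a₁ a₂ b₁ b₂)

end Pool.Agent.Lib.MP_061452_co.OF
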