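import Pool.Agent.Lib.MP_061452_co.OF.Main
import Pool.Agent.Lib.MP_061452_co.OF.Defs

set_option autoImplicit false

namespace Pool.Agent.Lib.MP_061452_co.OF

open Function

section

variable {V E α : Type} {ends : E → Sym2 V} {S P : Set E} {σ : Equiv.Perm α} {v : α → V}
  {ε t : α → E} {w : α → V} {g b : α} {r : α → ℕ}

theorem fin_apart (h : Enum ends S σ v ε) (hr : Rk σ g r) {a1 a2 b1 b2 : α}
    (h1 : r a1 < r b1 ∧ r b1 < r a2) (h2 : ¬ (r a1 < r b2 ∧ r b2 < r a2)) :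
    Apart ends S (v a1) (v a2) (v b1) (v b2) := by
  rintro ⟨wk⟩
  have key : ∀ x y, (SimpleGraph.fromRel (fun u u' : V => u ≠ v a1 ∧ u ≠ v a2 ∧ u' ≠ v a1 ∧
      u' ≠ v a2 ∧ ∃ e ∈ S, ends e = s(u, u'))).Walk x y →
      (∃ s, v s = x ∧ r a1 < r s ∧ r s < r a2) → ∃ s, v s = y ∧ r a1 < r s ∧ r s < r a2 := by
    intro x y wk
    induction wk with
    | nil => exact id
    | @cons x x' y hadj _ ih =>
      rintro ⟨s, rfl, s1, s2⟩
      apply ih
      rw [SimpleGraph.fromRel_adj] at hadj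
      have k : x' ≠ v a1 ∧ x' ≠ v a2 ∧ ∃ e ∈ S, ends e = s(v s, x') := by
        rcases hadj.2 with ⟨_, _, k1, k2, k3⟩ | ⟨k1, k2, _, _, e, he, k3⟩
        · exact ⟨k1, k2, k3⟩
        · exact ⟨k1, k2, e, he, by rw [k3, Sym2.eq_swap]⟩
      obtain ⟨k1, k2, e, he, k3⟩ := k
      obtain ⟨z, rfl⟩ := (h.2.2.1 e).1 he
      rw [h.2.2.2, Sym2.eq_iff] at k3
      rcases k3 with ⟨j1, j2⟩ | ⟨j1, j2⟩
      · have e1 : z = s := h.1 j1
        subst e1
        have n2 := hr.ne (p := σ z) (q := a2) (fun e => k2 (by rw [← j2, e]))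
        refine ⟨σ z, j2, ?_⟩
        rcases hr.succ z with e | e
        · omega
        · have := e.2 a2; omega
      · have e1 : σ z = s := h.1 j2
        subst e1
        have n1 := hr.ne (p := z) (q := a1) (fun e => k1 (by rw [← j1, e]))
        refine ⟨z, j1, ?_⟩
        rcases hr.succ z with e | e <;> omega
  obtain ⟨s, e, k⟩ := key _ _ wk ⟨b1, rfl, h1⟩
  exact h2 (h.1 e ▸ k)

theorem fin_class (h : Enum ends S σ v ε) (ht : Third ends S v t w) (p q : α) :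
    SameClass ends S P (v g) (v b) (v p) (v q) ↔
      Same ends (S ∪ P) t w p q ∨ ((p = g ∨ p = b) ∧ (q = g ∨ q = b)) := by
  have hon : ∀ p, Touches ends (S ∪ P) (v p) :=
    fun p => (h.touches.2 ⟨p, rfl⟩).mono Set.subset_union_left
  have att : ∀ z p, v p ∈ Attach ends (S ∪ P) z → ¬ Touches ends (S ∪ P) (w p) ∧
      (Outside ends (S ∪ P)).Reachable z (w p) := by
    rintro z p ⟨_, z', k1, k2, e, k3⟩
    have he : e ∉ S := fun k => k1 ⟨e, Or.inl k, by rw [k3]; simp⟩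
    rw [(ht.other he k3).2]
    exact ⟨k1, k2⟩
  constructor
  · rintro (k | k | ⟨e, he, k⟩ | ⟨z, _, k1, k2⟩)
    · rw [h.1 k]; exact Or.inl (Or.inl rfl)
    · rw [Sym2.eq_iff] at k
      rcases k with ⟨k1, k2⟩ | ⟨k1, k2⟩
      · exact Or.inr ⟨Or.inl (h.1 k1), Or.inr (h.1 k2)⟩
      · exact Or.inr ⟨Or.inr (h.1 k1), Or.inl (h.1 k2)⟩
    · refine Or.inl (Or.inl ?_)
      rw [← (ht p).2.2 e he (by rw [k]; simp), ← (ht q).2.2 e he (by rw [k]; simp)]
    · exact Or.inl (Or.inr ⟨(att z p k1).1, (att z p k1).2.symm.trans (att z q k2).2⟩)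
  · have ed : ∀ q, ∃ e, ends e = s(w q, v q) := fun q => ⟨t q, by rw [(ht q).2.1, Sym2.eq_swap]⟩
    rintro ((k | ⟨k1, k2⟩) | ⟨k1 | k1, k2 | k2⟩)
    · rcases ht.chord h k with j | j
      · exact Or.inl (by rw [j])
      · exact Or.inr (Or.inr (Or.inl ⟨t p, (ht p).1, by rw [(ht p).2.1, j]⟩))
    · exact Or.inr (Or.inr (Or.inr ⟨w p, k1, ⟨hon p, w p, k1, .refl _, ed p⟩,
        ⟨hon q, w q, outside_reach k2 k1, k2, ed q⟩⟩))
    · exact Or.inl (by rw [k1, k2])
    · exact Or.inr (Or.inl (by rw [k1, k2]))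
    · exact Or.inr (Or.inl (by rw [k1, k2, Sym2.eq_swap]))
    · exact Or.inl (by rw [k1, k2])

theorem fin_root [Fintype E] (hc : ∀ v : V, {e : E | v ∈ ends e}.ncard = 3)
    (hS : IsCircuit ends S) (h : Enum ends S σ v ε) (ht : Third ends S v t w)
    (hP : IsPath ends P (v g) (v b)) (hd : Disjoint P S) {p q : α} (hp : p = g ∨ p = b)
    (k : Same ends (S ∪ P) t w p q) : q = g ∨ q = b := by
  have h1 : t p ∈ P := by
    have : Touches ends P (v p) := by
      rcases hp with rfl | rfl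
      exacts [hP.left, hP.right]
    obtain ⟨e, he, hx⟩ := this
    rw [← (ht p).2.2 e (Set.disjoint_left.1 hd he) hx]
    exact he
  rcases k with k | k
  · by_contra n
    rw [not_or] at n
    refine hP.avoid hc hS hd (h.touches.2 ⟨q, rfl⟩) (fun e => n.1 (h.1 e))
      (fun e => n.2 (h.1 e)) ⟨t q, k ▸ h1, by rw [(ht q).2.1]; simp⟩
  · exact absurd ⟨t p, Or.inr h1, by rw [(ht p).2.1]; simp⟩ k.1

end

theorem overlap_tree {V E : Type} [Fintype V] [Fintype E] {ends : E → Sym2 V}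
    (hl : ∀ e : E, ¬ (ends e).IsDiag) (hc : ∀ v : V, {e : E | v ∈ ends e}.ncard = 3)
    {S P : Set E} {x y : V} (hS : IsCircuit ends S) (hP : IsPath ends P x y)
    (hd : Disjoint P S) (hx : Touches ends S x) (hy : Touches ends S y)
    (hsep : ∀ a b : V, Touches ends S a → Touches ends S b →
      3 ≤ {u | Touches ends S u ∧ SameClass ends S P x y a u}.ncard →
      3 ≤ {u | Touches ends S u ∧ SameClass ends S P x y b u}.ncard →
      ¬ SameClass ends S P x y a b →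
      (∃ z : V, Touches ends S z ∧ ¬ SameClass ends S P x y z a ∧ ¬ SameClass ends S P x y z b ∧
        ¬ Relation.ReflTransGen (fun u v => Link ends S P x y u v ∧
          ¬ SameClass ends S P x y z u ∧ ¬ SameClass ends S P x y z v) a b) ∨
      ¬ Relation.ReflTransGen (fun u v => Link ends S P x y u v ∧
        ¬ (SameClass ends S P x y a u ∧ SameClass ends S P x y b v) ∧
        ¬ (SameClass ends S P x y b u ∧ SameClass ends S P x y a v)) a b) :
    ∃ F : Set E, P ⊆ F ∧ F ≠ S ∧ IsCircuit ends F ∧ IsCircuit ends (symmDiff S F) ∧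
      BridgesAttach ends S F := by
  classical
  obtain ⟨α, _, σ, g, r0, v, ε, e1, e2, e3, e4, e5, hr0⟩ := exists_enum hl hS hx
  have h : Enum ends S σ v ε := ⟨e2, e3, e4, e5⟩
  obtain ⟨b, rfl⟩ := h.touches.1 hy
  subst e1
  have hg : b ≠ g := fun e => hP.1 (by rw [e])
  choose t w ht using fun p => exists_third hc hS (h.touches.2 ⟨p, rfl⟩)
  have eqv := same_equiv h ht (X := S ∪ P) Set.subset_union_left
  have cyc := cyc_of hr0
  obtain ⟨r, hr⟩ := cyc.rk g
  have onS : ∀ p, Touches ends S (v p) := fun p => h.touches.2 ⟨p, rfl⟩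
  have cl := fin_class (P := P) (g := g) (b := b) h ht
  have rt : ∀ p q, (p = g ∨ p = b) → Same ends (S ∪ P) t w p q → q = g ∨ q = b :=
    fun p q => fin_root hc hS h ht hP hd
  have eq2 : Equivalence (fun p q => SameClass ends S P (v g) (v b) (v p) (v q)) := by
    refine ⟨fun p => Or.inl rfl, fun {p q} k => ?_, fun {p q s} k k' => ?_⟩
    · rw [cl] at k ⊢
      exact k.imp eqv.symm And.symm
    · rw [cl] at k k' ⊢
      rcases k with k | k <;> rcases k' with k' | k'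
      · exact Or.inl (eqv.trans k k')
      · exact Or.inr ⟨rt _ _ k'.1 (eqv.symm k), k'.2⟩
      · exact Or.inr ⟨k.1, rt _ _ k.2 k'⟩
      · exact Or.inr ⟨k.1, k'.2⟩
  have big : ∀ p, (∃ a1 a2, a1 ≠ p ∧ a2 ≠ p ∧ a1 ≠ a2 ∧
      SameClass ends S P (v g) (v b) (v p) (v a1) ∧ SameClass ends S P (v g) (v b) (v p) (v a2)) →
      3 ≤ {u | Touches ends S u ∧ SameClass ends S P (v g) (v b) (v p) u}.ncard := by
    rintro p ⟨a1, a2, n1, n2, n3, s1, s2⟩
    exact three_le_ncard (a := v p) (b := v a1) (d := v a2) ⟨onS p, Or.inl rfl⟩ ⟨onS a1, s1⟩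
      ⟨onS a2, s2⟩ (fun k => n1 (h.1 k).symm) (fun k => n2 (h.1 k).symm) (fun k => n3 (h.1 k))
  obtain ⟨c, ρ, hG, k0, k1, k2, k3⟩ := forest cyc hr hg
    (Lk := fun p q => Link ends S P (v g) (v b) (v p) (v q)) eq2
    (fun q => by
      rw [cl]
      exact ⟨fun k => k.elim (rt _ _ (Or.inl rfl)) And.right, fun k => Or.inr ⟨Or.inl rfl, k⟩⟩)
    (fun p q k => ⟨onS p, onS q, Or.inl k⟩)
    (fun p q p1 p2 q1 q2 _ s1 s2 s3 s4 l1 l2 l3 =>
      ⟨⟨onS p, onS q, Or.inr ⟨_, _, _, _, onS p1, onS p2, onS q1, onS q2, s1, s2, s3, s4,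
          fin_apart h hr ⟨l1, l2⟩ (by omega)⟩⟩,
        ⟨onS q, onS p, Or.inr ⟨_, _, _, _, onS q1, onS q2, onS p2, onS p1, s3, s4, s2, s1,
          fin_apart h hr ⟨l2, l3⟩ (by omega)⟩⟩⟩)
    (fun p q bp bq n => by
      rcases hsep _ _ (onS p) (onS q) (big p bp) (big q bq) n with ⟨z, z0, z1, z2, z3⟩ | z
      · obtain ⟨s, rfl⟩ := h.touches.1 z0
        exact Or.inl ⟨s, z1, z2, fun k => z3 (k.lift v (fun _ _ j => j))⟩
      · exact Or.inr (fun k => z (k.lift v (fun _ _ j => j))))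
  have ug : ρ g ≠ g := by rw [k0]; exact hg
  obtain ⟨g', hv⟩ := hG.valid ug
  have k0' : ρ b = g := by rw [← k0, hG.1.1 g]
  refine realise (Root := fun p => p = g ∨ p = b) (p0 := g) hl hc hS h ht hv hd ?_ ?_
    (Or.inr ⟨g, Or.inl rfl⟩)
    (fun p hp n => ((cl _ _).1 (k1 p hp)).resolve_right (fun k => n k.1))
    (fun p q hp hq _ _ s => k2 p q hp hq ((cl _ _).2 (Or.inl s)))
    (fun p q hp hq s => k3 p q hp hq ((cl _ _).2 (Or.inl s))) ug
  · rintro p (rfl | rfl)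
    · rw [k0]; exact ⟨hg, Or.inr rfl, hP⟩
    · rw [k0']; exact ⟨hg.symm, Or.inl rfl, hP.symm⟩
  · rintro p q (rfl | rfl) (rfl | rfl)
    exacts [Or.inl rfl, Or.inr k0.symm, Or.inr k0'.symm, Or.inl rfl]

end Pool.Agent.Lib.MP_061452_co.OF
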