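import Pool.Agent.Lib.MP_061452_co.Rooted

set_option autoImplicit false

namespace Pool.Agent.Lib.MP_061452_co.OF

open Function

theorem other_end {Z : Type} [Fintype Z] {f k : Z → Z} (hf : Involutive f) (hk : Involutive k)
    (ff : ∀ x, f x ≠ x) (fk : ∀ x, k x ≠ x) (O : Z → Prop) {a : Z} (ha : O a)
    (ha' : ¬ O (f a)) : (∃ b, b ≠ a ∧ O b ∧ ¬ O (f b)) ∨ ∃ b, O b ∧ ¬ O (k b) := by
  classical
  by_contra hno
  push Not at hno
  obtain ⟨n1, n2⟩ := hno
  let T : Finset Z := Finset.univ.filter O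
  have hT : ∀ x, x ∈ T ↔ O x := by intro x; simp [T]
  have h1 : ∑ _x ∈ T, (1 : ZMod 2) = 0 := by
    apply Finset.sum_involution (fun x _ => k x)
    · intro x _; decide
    · intro x _ _; exact fk x
    · intro x hx; exact (hT _).2 (n2 x ((hT _).1 hx))
    · intro x _; exact hk x
  have h2 : ∑ _x ∈ T.erase a, (1 : ZMod 2) = 0 := by
    apply Finset.sum_involution (fun x _ => f x)
    · intro x _; decide
    · intro x _ _; exact ff x
    · intro x hx
      rw [Finset.mem_erase] at hx ⊢
      refine ⟨fun h => ha' ?_, (hT _).2 (n1 x hx.1 ((hT _).1 hx.2))⟩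
      rw [← h, hf x]; exact (hT _).1 hx.2
    · intro x _; exact hf x
  have h3 := Finset.add_sum_erase T (fun _ => (1 : ZMod 2)) ((hT a).2 ha)
  rw [h1, h2] at h3
  exact absurd h3 (by decide)

variable {α : Type} [DecidableEq α] {σ : Equiv.Perm α} {c : α → Bool} {ρ : α → α}

/-- The colour changes exactly at the used points. -/
def LW (σ : Equiv.Perm α) (c : α → Bool) (ρ : α → α) : Prop :=
  Involutive ρ ∧ ∀ p, ρ p = p ↔ c (σ.symm p) = c p

/-- A valid state without a base point. -/
def Good (σ : Equiv.Perm α) (c : α → Bool) (ρ : α → α) : Prop := LW σ c ρ ∧ Conn σ c ρ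

omit [DecidableEq α] in
theorem LW.used (h : LW σ c ρ) {p : α} (hp : ρ p ≠ p) : c (σ.symm p) ≠ c p :=
  fun e => hp ((h.2 p).2 e)

omit [DecidableEq α] in
theorem LW.used' (h : LW σ c ρ) {p : α} (hp : ρ p ≠ p) : ρ (ρ p) ≠ ρ p := by
  rw [h.1 p]; exact hp.symm

theorem LW.col_the (h : LW σ c ρ) (x : α × Bool) : col σ c (the σ c ρ x) = col σ c x := by
  obtain ⟨p, s⟩ := x
  by_cases hp : ρ p = p
  · rw [the_fix hp]
    have := (h.2 p).1 hp
    cases s <;> simp [this]
  · rw [the_used hp, col_slot (h.used (h.used' hp))]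

theorem LW.the_invol (h : LW σ c ρ) : Involutive (the σ c ρ) := by
  rintro ⟨p, s⟩
  by_cases hp : ρ p = p
  · rw [the_fix hp, the_fix hp]; simp
  · rw [the_used hp, the_used (h.used' hp), h.1 p, col_slot (h.used (h.used' hp)),
      slot_col (h.used hp)]

theorem the_fst (x : α × Bool) : (the σ c ρ x).1 = ρ x.1 := by
  obtain ⟨p, s⟩ := x
  by_cases hp : ρ p = p
  · rw [the_fix hp]; exact hp.symm
  · rw [the_used hp]

theorem Good.valid (h : Good σ c ρ) {p : α} (hp : ρ p ≠ p) : ∃ g, Valid σ g c ρ := by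
  have := h.1.used hp
  by_cases e : c p = true
  · exact ⟨σ p, ⟨h.1.1, h.1.2, by simpa using e⟩, h.2⟩
  · refine ⟨p, ⟨h.1.1, h.1.2, ?_⟩, h.2⟩
    revert this e
    cases c p <;> cases c (σ.symm p) <;> simp

theorem Good.flip (h : Good σ c ρ) (β : Bool) : Good σ (fun p => xor (c p) β) ρ := by
  have e1 : ∀ x, col σ (fun p => xor (c p) β) x = xor (col σ c x) β := by
    rintro ⟨p, s⟩; cases s <;> simp
  have e2 : the σ (fun p => xor (c p) β) ρ = the σ c ρ := by
    funext x
    simp only [the, e1]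
    cases c (ρ x.1) <;> cases col σ c x <;> cases β <;> simp
  refine ⟨⟨h.1.1, fun p => (h.1.2 p).trans ?_⟩, fun x y _ _ e => ?_⟩
  · cases β <;> simp
  · rw [e2]
    refine h.2 x y trivial trivial ?_
    rw [e1, e1] at e
    revert e
    cases col σ c x <;> cases col σ c y <;> cases β <;> simp

theorem Good.mirror (h : Good σ.symm c ρ) : Good σ (fun p => c (σ p)) ρ := by
  let τ : α × Bool → α × Bool := fun x => (x.1, !x.2)
  have e1 : ∀ x, col σ (fun p => c (σ p)) (τ x) = col σ.symm c x := by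
    rintro ⟨p, s⟩; cases s <;> simp [τ]
  have e2 : ∀ x, gam σ (τ x) = τ (gam σ.symm x) := by
    rintro ⟨p, s⟩; cases s <;> simp [τ]
  have e3 : ∀ x, the σ (fun p => c (σ p)) ρ (τ x) = τ (the σ.symm c ρ x) := by
    rintro ⟨p, s⟩
    by_cases hp : ρ p = p
    · simp only [τ]; rw [the_fix hp, the_fix hp]
    · have := h.1.used (h.1.used' hp)
      have k := e1 (p, s)
      simp only [τ] at k ⊢
      rw [the_used hp, the_used hp, k]
      simp only [Equiv.symm_symm] at this
      revert this
      cases c (σ (ρ p)) <;> cases c (ρ p) <;> cases col σ.symm c (p, s) <;> simp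
  have tt : ∀ x, τ (τ x) = x := by rintro ⟨p, s⟩; simp [τ]
  refine ⟨⟨h.1.1, fun p => (h.1.2 p).trans ?_⟩, fun x y _ _ e => ?_⟩
  · simp [eq_comm]
  · rw [← tt x, ← tt y] at e ⊢
    rw [e1, e1] at e
    exact Rel.ind (fun a b => Rel (gam σ) (the σ (fun p => c (σ p)) ρ) (τ a) (τ b))
      (fun _ => Rel.refl _ _ _) (fun _ _ k => k.symm) (fun _ _ _ k k' => k.trans k')
      (fun a => e2 a ▸ Rel.gam _ _ _) (fun a => e3 a ▸ Rel.the _ _ _)
      (h.2 _ _ trivial trivial e)

/-- A set of points that is entered only after `a` and left only after `b`. -/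
def Ivl (σ : Equiv.Perm α) (J : α → Prop) (a b : α) : Prop :=
  ¬ J a ∧ J (σ a) ∧ J b ∧ ¬ J (σ b) ∧ ∀ p, p ≠ a → p ≠ b → (J p ↔ J (σ p))

variable {J : α → Prop} {a b : α}

omit [DecidableEq α] in
theorem Ivl.out (h : Ivl σ J a b) {x : α × Bool} (h1 : J x.1) (h2 : ¬ J (gam σ x).1) :
    x = (σ a, false) ∨ x = (b, true) := by
  obtain ⟨p, s⟩ := x
  cases s
  · left
    rw [gam_false] at h2
    by_contra e
    have e1 : σ.symm p ≠ a := fun k => e (by rw [← k]; simp)
    have e2 : σ.symm p ≠ b := fun k => h2 (k ▸ h.2.2.1)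
    exact h2 ((h.2.2.2.2 _ e1 e2).2 (by simpa using h1))
  · right
    rw [gam_true] at h2
    by_contra e
    have e1 : p ≠ a := fun k => h.1 (k ▸ h1)
    have e2 : p ≠ b := fun k => e (by rw [k])
    exact h2 ((h.2.2.2.2 _ e1 e2).1 h1)

theorem cross_of [Fintype α] (hL : LW σ c ρ) (h : Ivl σ J a b) {K : α × Bool → Prop}
    (k1 : ∀ x, K x → K (gam σ x)) (k2 : ∀ x, K x → K (the σ c ρ x))
    (hK : ¬ (K (σ a, false) ↔ K (b, true))) : ∃ x, K x ∧ J x.1 ∧ ¬ J (ρ x.1) := by
  have key : ∀ x0 : α × Bool, K x0 → J x0.1 → ¬ J (gam σ x0).1 →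
      (∀ y, y ≠ x0 → K y → y ≠ (σ a, false) ∧ y ≠ (b, true)) →
      ∃ x, K x ∧ J x.1 ∧ ¬ J (ρ x.1) := by
    intro x0 a1 a2 a3 a4
    rcases other_end gam_invol hL.the_invol gam_free the_free (fun x => K x ∧ J x.1) ⟨a1, a2⟩
      (fun k => a3 k.2) with ⟨y, y1, y2, y3⟩ | ⟨y, y2, y3⟩
    · have := a4 y y1 y2.1
      rcases h.out y2.2 (fun k => y3 ⟨k1 _ y2.1, k⟩) with e | e
      exacts [absurd e this.1, absurd e this.2]
    · exact ⟨y, y2.1, y2.2, fun k => y3 ⟨k2 _ y2.1, by rw [the_fst]; exact k⟩⟩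
  by_cases e : K (σ a, false)
  · have e' : ¬ K (b, true) := fun k => hK ⟨fun _ => k, fun _ => e⟩
    exact key _ e h.2.1 (by simpa using h.1) (fun y y1 y2 => ⟨y1, fun k => e' (k ▸ y2)⟩)
  · have e' : K (b, true) := by
      by_contra k
      exact hK ⟨fun j => absurd j e, fun j => absurd j k⟩
    exact key _ e' h.2.2.1 (by simpa using h.2.2.2.1)
      (fun y y1 y2 => ⟨fun k => e (k ▸ y2), y1⟩)

theorem even_col [Fintype α] (hL : LW σ c ρ) (h : Ivl σ J a b) (cl : ∀ t, J t → J (ρ t)) :
    c a = c b := by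
  by_contra e
  obtain ⟨x, _, x2, x3⟩ := cross_of hL h (K := fun x => col σ c x = c a)
    (fun x k => by rw [col_gam]; exact k) (fun x k => by rw [hL.col_the]; exact k)
    (by simpa using Ne.symm e)
  exact x3 (cl _ x2)

theorem odd_col [Fintype α] (hL : LW σ c ρ) (h : Ivl σ J a b) {l : α} (l1 : J l)
    (l2 : ¬ J (ρ l)) (cl : ∀ t, J t → t ≠ l → J (ρ t)) : c a ≠ c b := by
  intro e
  have hu : ρ l ≠ l := fun k => l2 (k.symm ▸ l1)
  have hs := col_slot (hL.used hu) (!c a)
  rcases other_end hL.the_invol gam_invol the_free gam_free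
    (fun x => col σ c x = !c a ∧ J x.1) (a := (l, c l == !c a)) ⟨hs, l1⟩
    (fun k => l2 (by have := k.2; rwa [the_fst] at this)) with ⟨y, y1, y2, y3⟩ | ⟨y, y2, y3⟩
  · obtain ⟨p, s⟩ := y
    by_cases k : p = l
    · subst k
      exact y1 (by rw [← y2.1, slot_col (hL.used hu)])
    · exact y3 ⟨by rw [hL.col_the]; exact y2.1, by rw [the_fst]; exact cl p y2.2 k⟩
  · have := y2.1
    rcases h.out y2.2 (fun k => y3 ⟨by rw [col_gam]; exact y2.1, k⟩) with k | k <;>
      rw [k] at this <;> simp [e] at this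

theorem closed_unused [Fintype α] (hG : Good σ c ρ) (h : Ivl σ J a b)
    (cl : ∀ t, J t → J (ρ t)) {o : α} (o1 : ¬ J o) (o2 : ρ o ≠ o) {t : α} (ht : J t) :
    ρ t = t := by
  by_contra hu
  have e := even_col hG.1 h cl
  have s1 := col_slot (hG.1.used hu) (!c a)
  have s2 := col_slot (hG.1.used o2) (!c a)
  have hg : ∀ x, J x.1 ∧ col σ c x = !c a → J (gam σ x).1 ∧ col σ c (gam σ x) = !c a := by
    intro x k
    refine ⟨?_, by rw [col_gam]; exact k.2⟩
    by_contra j
    have := k.2
    rcases h.out k.1 j with j' | j' <;> rw [j'] at this <;> simp [e] at this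
  have hθ : ∀ x, J x.1 ∧ col σ c x = !c a →
      J (the σ c ρ x).1 ∧ col σ c (the σ c ρ x) = !c a :=
    fun x k => ⟨by rw [the_fst]; exact cl _ k.1, by rw [hG.1.col_the]; exact k.2⟩
  have := Rel.inv (fun x => J x.1 ∧ col σ c x = !c a)
    (fun x => propext ⟨fun k => by have := hg _ k; rwa [gam_invol x] at this, hg x⟩)
    (fun x => propext ⟨fun k => by have := hθ _ k; rwa [hG.1.the_invol x] at this, hθ x⟩)
    (hG.2 _ _ trivial trivial (s1.trans s2.symm))
  exact o1 (this ▸ (⟨ht, s1⟩ : J (t, c t == !c a).1 ∧ col σ c (t, c t == !c a) = !c a)).1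

theorem step_all {Z : Type} {f : Z → Z} (hf : Involutive f) {R : Z → Z → Prop} (Y : Z → Prop)
    (hs : ∀ x y, R x y → R y x) (h1 : ∀ x, Y x → R x (f x))
    (h2 : ∀ x, ¬ Y x → ¬ Y (f x) → R x (f x)) (x : Z) : R x (f x) := by
  by_cases k : Y x
  · exact h1 x k
  by_cases k' : Y (f x)
  · have := h1 _ k'
    rw [hf x] at this
    exact hs _ _ this
  · exact h2 x k k'

/-- The inside of one state and the outside of another one. -/
theorem glue [Fintype α] [DecidablePred J] {c1 c2 : α → Bool} {ρ1 ρ2 : α → α}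
    (G1 : Good σ c1 ρ1) (G2 : Good σ c2 ρ2) (h : Ivl σ J a b) {l : α} (l1 : J l)
    (l2 : ¬ J (ρ1 l)) (l3 : ρ2 l = ρ1 l) (cl1 : ∀ t, J t → t ≠ l → J (ρ1 t))
    (cl2 : ∀ t, J t → t ≠ l → J (ρ2 t)) (ea : c1 a = c2 a) :
    Good σ (fun t => if J t then c2 t else c1 t) (fun t => if J t then ρ2 t else ρ1 t) := by
  set c : α → Bool := fun t => if J t then c2 t else c1 t with hc
  set ρ : α → α := fun t => if J t then ρ2 t else ρ1 t with hρ
  have ci : ∀ t, J t → c t = c2 t := fun t k => by simp [hc, k]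
  have co : ∀ t, ¬ J t → c t = c1 t := fun t k => by simp [hc, k]
  have ri : ∀ t, J t → ρ t = ρ2 t := fun t k => by simp [hρ, k]
  have ro : ∀ t, ¬ J t → ρ t = ρ1 t := fun t k => by simp [hρ, k]
  have d1 := odd_col G1.1 h l1 l2 cl1
  have d2 := odd_col G2.1 h l1 (l3 ▸ l2) cl2
  have eb : c1 b = c2 b := by
    rw [← ea] at d2
    revert d1 d2
    cases c1 a <;> cases c1 b <;> cases c2 b <;> simp
  have oc : ∀ t, ¬ J t → t ≠ ρ1 l → ¬ J (ρ1 t) := by
    intro t k1 k2 k3
    by_cases e : ρ1 t = l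
    · exact k2 (by rw [← e, G1.1.1 t])
    · exact k1 (G1.1.1 t ▸ cl1 _ k3 e)
  have xi : ∀ x : α × Bool, J x.1 → col σ c x = col σ c2 x := by
    rintro ⟨p, s⟩ k
    cases s
    · rw [col_false, col_false]
      by_cases j : J (σ.symm p)
      · exact ci _ j
      · rcases h.out (x := (p, false)) k (by simpa using j) with e | e
        · rw [co _ j, (Prod.mk.inj e).1]; simpa using ea
        · simp at e
    · exact ci _ k
  have xo : ∀ x : α × Bool, ¬ J x.1 → col σ c x = col σ c1 x := by
    rintro ⟨p, s⟩ k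
    cases s
    · rw [col_false, col_false]
      by_cases j : J (σ.symm p)
      · rcases h.out (x := (σ.symm p, true)) j (by simpa using k) with e | e
        · simp at e
        · rw [ci _ j, (Prod.mk.inj e).1]; exact eb.symm
      · exact co _ j
    · exact co _ k
  have hL : LW σ c ρ := by
    refine ⟨fun t => ?_, fun t => ?_⟩
    · by_cases k : J t
      · by_cases e : t = l
        · rw [e, ri _ l1, l3, ro _ l2, G1.1.1 l]
        · rw [ri _ k, ri _ (cl2 t k e), G2.1.1 t]
      · by_cases e : t = ρ1 l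
        · rw [e, ro _ l2, G1.1.1 l, ri _ l1, l3]
        · rw [ro _ k, ro _ (oc t k e), G1.1.1 t]
    · by_cases k : J t
      · have a1 := xi (t, false) k
        rw [col_false, col_false] at a1
        rw [ri _ k, a1, ci _ k]; exact G2.1.2 t
      · have a1 := xo (t, false) k
        rw [col_false, col_false] at a1
        rw [ro _ k, a1, co _ k]; exact G1.1.2 t
  refine ⟨hL, ?_⟩
  have ti : ∀ x : α × Bool, J x.1 → x.1 ≠ l → the σ c ρ x = the σ c2 ρ2 x := by
    intro x k e
    simp only [the]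
    rw [ri _ k, ci _ (cl2 _ k e), xi x k]
  have tO : ∀ x : α × Bool, ¬ J x.1 → x.1 ≠ ρ1 l → the σ c ρ x = the σ c1 ρ1 x := by
    intro x k e
    simp only [the]
    rw [ro _ k, co _ (oc _ k e), xo x k]
  let an : Bool → α × Bool := fun X => if X = c1 a then (σ a, false) else (b, true)
  have anJ : ∀ X, J (an X).1 := fun X => by
    by_cases e : X = c1 a <;> simp only [an, e, if_true, if_false]
    exacts [h.2.1, h.2.2.1]
  have an1 : ∀ X, col σ c1 (an X) = X := fun X => by
    by_cases e : X = c1 a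
    · simp [an, e]
    · simp only [an, e, if_false, col_true]
      revert d1 e
      cases c1 a <;> cases c1 b <;> cases X <;> simp
  have an2 : ∀ X, col σ c2 (an X) = X := fun X => by
    by_cases e : X = c1 a
    · simp [an, e, ea]
    · simp only [an, e, if_false, col_true, ← eb]
      revert d1 e
      cases c1 a <;> cases c1 b <;> cases X <;> simp
  have an0 : ∀ X, col σ c (an X) = X := fun X => (xi _ (anJ X)).trans (an2 X)
  have anb : ∀ x : α × Bool, J x.1 → ¬ J (gam σ x).1 → an (col σ c1 x) = x ∧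
      an (col σ c2 x) = x := by
    intro x k k'
    rcases h.out k k' with e | e
    · rw [e]; simp [an, ea]
    · rw [e]; simp [an, ← eb, d1.symm]
  set T := Rel (gam σ) (the σ c ρ) with hT
  have Tc : ∀ x y, T x y → col σ c x = col σ c y :=
    fun x y k => Rel.inv (col σ c) col_gam hL.col_the k
  have hul : ρ l ≠ l := by
    rw [ri _ l1, l3]; exact fun k => l2 (k.symm ▸ l1)
  have key : ∀ x : α × Bool, x.1 = l → T (an (col σ c x)) x := by
    intro x hx
    obtain ⟨y, y1, y2, y3⟩ := cross_of hL h (K := T (an (col σ c x)))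
      (fun y k => k.trans (Rel.gam _ _ _)) (fun y k => k.trans (Rel.the _ _ _)) (by
        intro k
        have j1 := (anb (σ a, false) h.2.1 (by simpa using h.1)).2
        have j2 := (anb (b, true) h.2.2.1 (by simpa using h.2.2.2.1)).2
        have both : T (an (col σ c x)) (σ a, false) ∧ T (an (col σ c x)) (b, true) := by
          by_cases e : col σ c x = c1 a
          · have : T (an (col σ c x)) (σ a, false) := by
              simp only [an, e, if_true]; exact Rel.refl _ _ _
            exact ⟨this, k.1 this⟩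
          · have : T (an (col σ c x)) (b, true) := by
              simp only [an, e, if_false]; exact Rel.refl _ _ _
            exact ⟨k.2 this, this⟩
        have := (Tc _ _ both.1).symm.trans (Tc _ _ both.2)
        rw [xi _ h.2.1, xi _ h.2.2.1] at this
        exact d2 (by simpa using this))
    have e1 : y.1 = l := by
      by_contra e
      exact y3 (by rw [ri _ y2]; exact cl2 _ y2 e)
    have e2 := Tc _ _ y1
    rw [an0] at e2
    obtain ⟨p, s⟩ := x
    obtain ⟨q, s'⟩ := y
    simp only at hx e1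
    subst hx
    subst e1
    have : s = s' := by
      rw [← slot_col (hL.used hul) s, e2, slot_col (hL.used hul) s']
    subst this
    exact y1
  have ins : ∀ x : α × Bool, J x.1 → T x (an (col σ c x)) := by
    intro x k
    let φ : α × Bool → α × Bool := fun y => if J y.1 then y else an (col σ c2 y)
    have φi : ∀ y, J y.1 → φ y = y := fun y j => by simp [φ, j]
    have φo : ∀ y, ¬ J y.1 → φ y = an (col σ c2 y) := fun y j => by simp [φ, j]
    have := Rel.ind (fun y z => T (φ y) (φ z)) (fun _ => Rel.refl _ _ _)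
      (fun _ _ j => Rel.symm j) (fun _ _ _ j j' => Rel.trans j j')
      (step_all (R := fun y z => T (φ y) (φ z)) gam_invol (fun y => J y.1)
        (fun _ _ j => Rel.symm j) (fun y j => by
        by_cases j' : J (gam σ y).1
        · rw [φi _ j, φi _ j']; exact Rel.gam _ _ _
        · rw [φi _ j, φo _ j', col_gam, (anb y j j').2]; exact Rel.refl _ _ _)
        (fun y j j' => by rw [φo _ j, φo _ j', col_gam]; exact Rel.refl _ _ _))
      (step_all (R := fun y z => T (φ y) (φ z)) G2.1.the_invol (fun y => J y.1)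
        (fun _ _ j => Rel.symm j) (fun y j => by
        by_cases e : y.1 = l
        · rw [φi _ j, φo _ (by rw [the_fst, e, l3]; exact l2), G2.1.col_the, ← xi y j]
          exact (key y e).symm
        · rw [φi _ j, φi _ (by rw [the_fst]; exact cl2 _ j e), ← ti y j e]
          exact Rel.the _ _ _)
        (fun y j j' => by rw [φo _ j, φo _ j', G2.1.col_the]; exact Rel.refl _ _ _))
      (G2.2 x (an (col σ c x)) trivial trivial (by rw [an2, xi x k]))
    rwa [φi _ k, φi _ (anJ _)] at this
  have outs : ∀ x : α × Bool, ¬ J x.1 → T x (an (col σ c x)) := by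
    intro x k
    let φ : α × Bool → α × Bool := fun y => if J y.1 then an (col σ c1 y) else y
    have φi : ∀ y, J y.1 → φ y = an (col σ c1 y) := fun y j => by simp [φ, j]
    have φo : ∀ y, ¬ J y.1 → φ y = y := fun y j => by simp [φ, j]
    have := Rel.ind (fun y z => T (φ y) (φ z)) (fun _ => Rel.refl _ _ _)
      (fun _ _ j => Rel.symm j) (fun _ _ _ j j' => Rel.trans j j')
      (step_all (R := fun y z => T (φ y) (φ z)) gam_invol (fun y => J y.1)
        (fun _ _ j => Rel.symm j) (fun y j => by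
        by_cases j' : J (gam σ y).1
        · rw [φi _ j, φi _ j', col_gam]; exact Rel.refl _ _ _
        · rw [φi _ j, φo _ j', (anb y j j').1]; exact Rel.gam _ _ _)
        (fun y j j' => by rw [φo _ j, φo _ j']; exact Rel.gam _ _ _))
      (step_all (R := fun y z => T (φ y) (φ z)) G1.1.the_invol (fun y => J y.1)
        (fun _ _ j => Rel.symm j) (fun y j => by
        by_cases e : y.1 = l
        · have n : ¬ J (the σ c1 ρ1 y).1 := by rw [the_fst, e]; exact l2
          rw [φi _ j, φo _ n, ← G1.1.col_the y, ← xo _ n, ← hL.col_the]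
          refine (key _ ?_).trans (Rel.the _ _ _).symm
          rw [the_fst, ro _ n, the_fst, e, G1.1.1 l]
        · rw [φi _ j, φi _ (by rw [the_fst]; exact cl1 _ j e), G1.1.col_the]
          exact Rel.refl _ _ _)
        (fun y j j' => by
          rw [φo _ j, φo _ j', ← tO y j (fun e => j' (by rw [the_fst, e, G1.1.1 l]; exact l1))]
          exact Rel.the _ _ _))
      (G1.2 x (an (col σ c x)) trivial trivial (by rw [an1, xo x k]))
    rwa [φo _ k, φi _ (anJ _), an1] at this
  have all : ∀ x, T x (an (col σ c x)) := fun x => (em (J x.1)).elim (ins x) (outs x)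
  intro x y _ _ e
  exact (all x).trans (e ▸ (all y).symm)

end Pool.Agent.Lib.MP_061452_co.OF
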