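import Pool.Agent.Lib.MP_061452_co.OF.UFinal

set_option autoImplicit false

namespace Pool.Agent.Lib.MP_061452_co.OF

open Function Relation

section

variable {α : Type} [DecidableEq α] [Fintype α] {σ : Equiv.Perm α} {g : α} {r : α → ℕ}
  {Sm : α → α → Prop}

theorem big_or_single (hc : Cyc σ) (hr : Rk σ g r) (eqv : Equivalence Sm)
    (hsep : ∀ g' r', Rk σ g' r' → Sep r' Sm Finset.univ) (gb : Bg Sm Finset.univ g)
    (hb0 : ∀ p, Bg Sm Finset.univ p ∨ ∀ q, Sm p q → q = p) :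
    ∃ c ρ p0, St σ Sm Finset.univ c ρ ∧ ρ p0 ≠ p0 := by
  classical
  by_cases one : ∀ t, Bg Sm Finset.univ t → Sm g t
  · obtain ⟨_, a, _, _, _, n1, _, _, s1, _⟩ := gb
    have g0 := hr.1
    obtain ⟨q, q1, q2⟩ := Finset.exists_min_image (Finset.univ.filter (fun k => k ≠ g ∧ Sm g k)) r
      ⟨a, Finset.mem_filter.2 ⟨Finset.mem_univ _, n1, s1⟩⟩
    rw [Finset.mem_filter] at q1
    have a0 := hr.ne q1.2.1
    obtain ⟨c, ρ, s, u⟩ := lone_pair hc hr eqv q1.2.2 (by omega)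
      (fun s t e o1 o2 _ _ => by
        rcases hb0 s with i | i
        · have := q2 s (Finset.mem_filter.2 ⟨Finset.mem_univ _,
            fun j => by rw [j] at o1; omega, one s i⟩)
          omega
        · rw [i t e]; exact ⟨o1, o2⟩)
    exact ⟨c, ρ, g, s, u⟩
  push Not at one
  obtain ⟨c1, bc1, ng⟩ := one
  obtain ⟨x, c0, K, b0, c0K, _, gK, Kcl, Kx, Kbig, conn, NL⟩ := select eqv (hsep g r hr) bc1 ng
  have hb : ∀ k ∈ K, Bg Sm Finset.univ k := by
    intro k i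
    refine (hb0 k).resolve_right (fun sg => ?_)
    have g0 := hr.1
    have a0 : r k ≠ r g := hr.ne (fun e => gK (e ▸ i))
    have a1 := conn (r k - 1) (r k + 1) (fun k1 _ k2 _ s o1 o2 => by
      have e : k1 = k := hr.2.1 (by omega)
      rw [e] at s
      rw [sg k2 s]; omega) k i c0 c0K (by omega) (by omega)
    have e : c0 = k := hr.2.1 (by omega)
    obtain ⟨_, a, _, _, _, n1, _, _, s1, _⟩ := b0
    rw [e] at n1 s1
    exact n1 (sg a s1)
  have KS : ∀ k ∈ K, ∀ k' ∈ K, Sm k k' :=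
    fun k i k' j => eqv.trans (eqv.symm (Kbig k i (hb k i))) (Kbig k' j (hb k' j))
  have nK : ∀ s t, s ∉ K → Sm s t → t ∉ K :=
    fun s t j e k => j (Kcl t k s (Finset.mem_univ _) (eqv.symm e))
  have ne : ∀ y, y ∉ K → ∀ k ∈ K, r y ≠ r k := fun y n k j => hr.ne (fun e => n (e ▸ j))
  have NS1 : ∀ y1 y2, Sm y1 y2 → y1 ∉ K → ¬ Sm x y1 → ∀ k ∈ K, ∀ k' ∈ K,
      r y1 < r k → r k < r y2 → r y1 < r k' ∧ r k' < r y2 := by
    intro y1 y2 s n nx k i k' j o1 o2
    by_contra o3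
    exact nx (NL y1 (Finset.mem_univ _) n k i (ln_of_sep eqv hr.2.1 (Finset.mem_univ _)
      (Finset.mem_univ _) (Finset.mem_univ _) (Finset.mem_univ _) s (KS k i k' j)
      (fun e => nK y1 k n e i) o1 o2 o3)).1
  have NS : ∀ y1 y2, Sm y1 y2 → y1 ∉ K → ¬ Sm x y1 → ∀ k ∈ K, ∀ k' ∈ K,
      r k < r y1 → r y1 < r k' → r k < r y2 ∧ r y2 < r k' := by
    intro y1 y2 s n nx k i k' j o1 o2
    have a1 := NS1 y1 y2 s n nx k' j k i
    have a2 := NS1 y2 y1 (eqv.symm s) (nK y1 y2 n s) (fun e => nx (eqv.trans e (eqv.symm s)))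
      k i k' j
    have a3 := ne y2 (nK y1 y2 n s) k i
    have a4 := ne y2 (nK y1 y2 n s) k' j
    omega
  by_cases hx : ∀ p ∈ K, ∀ q ∈ K, r p < r q → ∃ t, Sm x t ∧ r p < r t ∧ r t < r q
  swap
  · push Not at hx
    obtain ⟨p, pK, q', qK', o, hx⟩ := hx
    obtain ⟨q, q1, q2⟩ := Finset.exists_min_image (K.filter (fun k => r p < r k)) r
      ⟨q', Finset.mem_filter.2 ⟨qK', o⟩⟩
    rw [Finset.mem_filter] at q1
    have q3 := q2 q' (Finset.mem_filter.2 ⟨qK', o⟩)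
    obtain ⟨c, ρ, s, u⟩ := lone_pair hc hr eqv (KS p pK q q1.1) q1.2 (fun s t e o1 o2 _ _ => by
      refine NS s t e (fun i => ?_) (fun i => ?_) p pK q q1.1 o1 o2
      · have := q2 s (Finset.mem_filter.2 ⟨i, o1⟩); omega
      · have := hx s i o1; omega)
    exact ⟨c, ρ, p, s, u⟩
  obtain ⟨r1, r1K, m1⟩ := Finset.exists_min_image K r ⟨c0, c0K⟩
  obtain ⟨rk, rkK, m2⟩ := Finset.exists_max_image K r ⟨c0, c0K⟩
  have n1k : rk ≠ r1 := by
    intro e
    obtain ⟨_, a, _, _, _, n1, _, _, s1, _⟩ := b0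
    have aK := Kcl c0 c0K a (Finset.mem_univ _) s1
    have a1 := m1 a aK
    have a2 := m2 a aK
    have a3 := m1 c0 c0K
    have a4 := m2 c0 c0K
    have a5 := hr.ne n1
    rw [e] at a2 a4
    omega
  let A1 : Finset α := Finset.univ.filter (fun t => t ∉ K ∨ t = r1 ∨ t = rk)
  have hA1 : ∀ t, t ∈ A1 ↔ t ∉ K ∨ t = r1 ∨ t = rk := fun t => by simp [A1]
  obtain ⟨r', hr'⟩ := hc.rk r1
  obtain ⟨c, ρ, ⟨G, k1, k2, k3⟩, k0⟩ := forest_in hc hr' n1k eqv A1 (fun q i =>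
      ⟨fun s => ((hA1 q).1 i).resolve_left (fun n => n (Kcl r1 r1K q (Finset.mem_univ _) s)),
        fun e => e.elim (fun e => e ▸ eqv.refl _) (fun e => e ▸ KS r1 r1K rk rkK)⟩)
    ((hA1 _).2 (Or.inr (Or.inl rfl))) ((hA1 _).2 (Or.inr (Or.inr rfl)))
    ((hsep r1 r' hr').mono (fun t _ => Finset.mem_univ t))
  have u1 : ρ r1 ≠ r1 := k0 ▸ n1k
  have uk : ρ rk ≠ rk := by rw [← k0]; exact G.1.used' u1
  have uK : ∀ y, ρ y ≠ y → r r1 < r y → r y < r rk → y ∉ K := fun y j o1 o2 i => by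
    rcases ((hA1 y).1 (k1 y j).1).resolve_left (fun n => n i) with e | e <;> subst e <;> omega
  have key : ∀ s ∈ K, ∀ t ∈ K, ρ s = s → ρ t = t → r s < r t → c s = c t := by
    intro s sK t tK js jt o
    have a1 := m1 s sK
    have a2 := m2 t tK
    have a3 : r s ≠ r r1 := hr.ne (fun e => u1 (e ▸ js))
    have a4 : r t ≠ r rk := hr.ne (fun e => uk (e ▸ jt))
    have pk := hr.pred (p := rk) (by omega)
    by_cases cl : ∀ y, r s < r y ∧ r y ≤ r t → r s < r (ρ y) ∧ r (ρ y) ≤ r t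
    · exact even_col G.1 (hr.ivl o) cl
    push Not at cl
    obtain ⟨l, l1, l2⟩ := cl
    have ul : ρ l ≠ l := fun e => by rw [e] at l2; omega
    have lt : r l ≠ r t := hr.ne (fun e => ul (e ▸ jt))
    have lK := uK l ul (by omega) (by omega)
    have xl : Sm x l := by
      by_contra i
      have := NS l _ (k1 l ul).2 lK i s sK t tK l1.1 (by omega)
      omega
    have xu : ∀ y, ρ y ≠ y → Sm x y → y = l ∨ y = ρ l :=
      fun y j i => k2 l y ul j (eqv.trans (eqv.symm xl) i)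
    have out : ¬ (r r1 < r (ρ l) ∧ r (ρ l) < r rk) := by
      intro i
      refine ul (hr.closed G (a := r1) (b := σ.symm rk) (o := r1) (by omega) u1
        (fun y j o1 o2 => ?_) l (by omega) (by omega))
      by_cases e : Sm x y
      · rcases xu y j e with e | e
        · rw [e]; omega
        · rw [e, G.1.1 l]; omega
      · have := NS y _ (k1 y j).2 (uK y j o1 (by omega)) e r1 r1K rk rkK o1 (by omega)
        omega
    have side : ∀ a ∈ K, ∀ b ∈ K, ¬ (r a < r l ∧ r l < r b) → ∀ y, r a < r y → r y < r b →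
        ρ y = y := by
      intro a aK b bK nl y o1 o2
      have b1 := m1 a aK
      have b2 := m2 b bK
      have pb := hr.pred (p := b) (by omega)
      refine hr.closed G (a := a) (b := σ.symm b) (o := r1) (by omega) u1
        (fun y j o1 o2 => ?_) y o1 (by omega)
      have := NS y _ (k1 y j).2 (uK y j (by omega) (by omega)) (fun e => by
        rcases xu y j e with e | e <;> subst e <;> omega) a aK b bK o1 (by omega)
      omega
    obtain ⟨t1, x1, b1, b2⟩ := hx r1 r1K s sK (by omega)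
    obtain ⟨t2, x2, b3, b4⟩ := hx t tK rk rkK (by omega)
    have d1 := side r1 r1K s sK (by omega)
    have d2 := side t tK rk rkK (by omega)
    have e1 : c t1 = c s := hr.const G.1 b2.le (fun y o1 o2 => by
      by_cases e : y = s
      · rw [e]; exact js
      · have := hr.ne e
        exact d1 y (by omega) (by omega))
    have e2 : c t = c t2 := hr.const G.1 b3.le (fun y o1 o2 => d2 y o1 (by omega))
    rw [← e1, e2]
    exact k3 t1 ((hA1 _).2 (Or.inl (fun i => Kx _ i x1))) t2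
      ((hA1 _).2 (Or.inl (fun i => Kx _ i x2))) (d1 t1 b1 b2) (d2 t2 b3 b4)
      (eqv.trans (eqv.symm x1) x2)
  refine ⟨c, ρ, r1, ⟨G, fun p j => ⟨Finset.mem_univ _, (k1 p j).2⟩, k2,
    fun s _ t _ js jt e => ?_⟩, u1⟩
  by_cases i : s ∈ K
  · have i' := Kcl s i t (Finset.mem_univ _) e
    rcases lt_trichotomy (r s) (r t) with o | o | o
    · exact key s i t i' js jt o
    · rw [hr.2.1 o]
    · exact (key t i' s i jt js o).symm
  · exact k3 s ((hA1 _).2 (Or.inl i)) t ((hA1 _).2 (Or.inl (nK s t i e))) js jt e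

theorem localised (hc : Cyc σ) (a0 : α) {Lk : α → α → Prop} (eqv : Equivalence Sm)
    (hp : ∀ p, ReflTransGen Lk a0 p → ∃ q, q ≠ p ∧ Sm p q) (hL1 : ∀ p q, Sm p q → Lk p q)
    (hL2 : ∀ g r, Rk σ g r → ∀ p q p1 p2 q1 q2, ¬ Sm p q → Sm p p1 → Sm p p2 → Sm q q1 →
      Sm q q2 → r p1 < r q1 → r q1 < r p2 → r p2 < r q2 → Lk p q ∧ Lk q p)
    (H : ∀ p q, ReflTransGen Lk a0 p → ReflTransGen Lk a0 q →
      (∃ a b, a ≠ p ∧ b ≠ p ∧ a ≠ b ∧ Sm p a ∧ Sm p b) →
      (∃ a b, a ≠ q ∧ b ≠ q ∧ a ≠ b ∧ Sm q a ∧ Sm q b) → ¬ Sm p q →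
      (∃ x, ¬ Sm x p ∧ ¬ Sm x q ∧
        ¬ Relation.ReflTransGen (fun u v => Lk u v ∧ ¬ Sm x u ∧ ¬ Sm x v) p q) ∨
      ¬ Relation.ReflTransGen
        (fun u v => Lk u v ∧ ¬ (Sm p u ∧ Sm q v) ∧ ¬ (Sm q u ∧ Sm p v)) p q) :
    ∃ c ρ p0, St σ Sm Finset.univ c ρ ∧ ρ p0 ≠ p0 := by
  classical
  obtain ⟨A, hA⟩ : ∃ A : α → Prop, A = ReflTransGen Lk a0 := ⟨_, rfl⟩
  have Al : ∀ p q, A p → Lk p q → A q := fun p q i j => by
    rw [hA] at i ⊢; exact i.tail j
  have A0 : A a0 := by rw [hA]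
  rw [← hA] at hp H
  have As : ∀ p q, A p → Sm p q → A q := fun p q i j => Al p q i (hL1 p q j)
  let S2 : α → α → Prop := fun p q => p = q ∨ (A p ∧ Sm p q)
  have dn : ∀ p q, S2 p q → Sm p q := fun p q k => k.elim (fun e => e ▸ eqv.refl _) And.right
  have up : ∀ p q, A p → Sm p q → S2 p q := fun p q i j => Or.inr ⟨i, j⟩
  have eq2 : Equivalence S2 := ⟨fun _ => Or.inl rfl,
    fun k => k.elim (fun j => Or.inl j.symm) (fun j => Or.inr ⟨As _ _ j.1 j.2, eqv.symm j.2⟩),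
    fun k k' => k.elim (fun j => j ▸ k') (fun j => Or.inr ⟨j.1, eqv.trans j.2 (dn _ _ k')⟩)⟩
  have bA : ∀ p, Bg S2 Finset.univ p → A p := by
    rintro p ⟨_, a, _, _, _, n1, _, _, s1, _⟩
    exact (s1.resolve_left n1.symm).1
  have hsep : ∀ g r, Rk σ g r → Sep r S2 Finset.univ := by
    intro g r hr
    have ln : ∀ p q, Ln r S2 Finset.univ p q → Lk p q := by
      intro p q k
      by_cases e : Sm p q
      · exact hL1 p q e
      obtain ⟨_, _, s | ⟨_, p1, _, p2, _, q1, _, q2, _, s1, s2, s3, s4, o1, o2, o3⟩ |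
        ⟨_, p1, _, p2, _, q1, _, q2, _, s1, s2, s3, s4, o1, o2, o3⟩⟩ := k
      exacts [absurd (dn _ _ s) e,
        (hL2 g r hr p q p1 p2 q1 q2 e (dn _ _ s1) (dn _ _ s2) (dn _ _ s3) (dn _ _ s4) o1 o2 o3).1,
        (hL2 g r hr q p p1 p2 q1 q2 (fun j => e (eqv.symm j)) (dn _ _ s1) (dn _ _ s2) (dn _ _ s3)
          (dn _ _ s4) o1 o2 o3).2]
    intro p q bp bq n
    have pA := bA p bp
    have qA := bA q bq
    obtain ⟨_, a, _, b, _, n1, n2, n3, s1, s2⟩ := bp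
    obtain ⟨_, a', _, b', _, m1, m2, m3, t1, t2⟩ := bq
    rcases H p q pA qA ⟨a, b, n1, n2, n3, dn _ _ s1, dn _ _ s2⟩
      ⟨a', b', m1, m2, m3, dn _ _ t1, dn _ _ t2⟩ (fun j => n (up _ _ pA j)) with
      ⟨x, x1, x2, x3⟩ | x3
    · refine Or.inl ⟨x, fun j => x1 (dn _ _ j), fun j => x2 (dn _ _ j), fun k => x3 ?_⟩
      have nx : ∀ u, A u → ¬ S2 x u → ¬ Sm x u :=
        fun u i j e => j (up _ _ (As _ _ i (eqv.symm e)) e)
      have key : ∀ t, R1 r S2 Finset.univ x p t →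
          A t ∧ ReflTransGen (fun u v => Lk u v ∧ ¬ Sm x u ∧ ¬ Sm x v) p t := by
        intro t k
        induction k with
        | refl => exact ⟨pA, ReflTransGen.refl⟩
        | tail _ j ih =>
          have i := Al _ _ ih.1 (ln _ _ j.1)
          exact ⟨i, ih.2.tail ⟨ln _ _ j.1, nx _ ih.1 j.2.1, nx _ i j.2.2⟩⟩
      exact (key q k).2
    · exact Or.inr (fun k => x3 (rt_mono k (fun _ _ i => ⟨ln _ _ i.1,
        fun j => i.2.1 ⟨up _ _ pA j.1, up _ _ qA j.2⟩,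
        fun j => i.2.2 ⟨up _ _ qA j.1, up _ _ pA j.2⟩⟩)))
  have main : ∃ c ρ p0, St σ S2 Finset.univ c ρ ∧ ρ p0 ≠ p0 := by
    by_cases hb : ∀ p, A p → Bg S2 Finset.univ p
    · obtain ⟨r, hr⟩ := hc.rk a0
      refine big_or_single hc hr eq2 hsep (hb a0 A0) (fun p => ?_)
      by_cases i : A p
      · exact Or.inl (hb p i)
      · exact Or.inr (fun q k => (k.resolve_right (fun j => i j.1)).symm)
    · push Not at hb
      obtain ⟨a, aA, na⟩ := hb
      obtain ⟨b, n, s⟩ := hp a aA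
      have s' := up _ _ aA s
      obtain ⟨r, hr⟩ := hc.rk a
      obtain ⟨c, ρ, st, k0⟩ := forest_in hc hr n eq2 Finset.univ (fun q _ =>
        ⟨fun e => by
          by_contra j
          rw [not_or] at j
          exact na ⟨Finset.mem_univ _, q, Finset.mem_univ _, b, Finset.mem_univ _, j.1, n, j.2,
            e, s'⟩,
         fun e => e.elim (fun e => e ▸ eq2.refl _) (fun e => e ▸ s')⟩)
        (Finset.mem_univ _) (Finset.mem_univ _) (hsep a r hr)
      exact ⟨c, ρ, a, st, k0 ▸ n⟩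
  obtain ⟨c, ρ, p0, ⟨G, k1, k2, k3⟩, u⟩ := main
  have us : ∀ y, ρ y ≠ y → A y ∧ Sm y (ρ y) := fun y j => (k1 y j).2.resolve_left j.symm
  obtain ⟨r, hr⟩ := hc.rk a0
  have out : ∀ s t, ¬ A s → Sm s t → r s < r t → c s = c t := by
    intro s t n e o
    refine even_col G.1 (hr.ivl o) (fun y i => ?_)
    by_cases j : ρ y = y
    · rw [j]; exact i
    obtain ⟨yA, sy⟩ := us y j
    have ns : ¬ Sm y s := fun k => n (As _ _ yA k)
    have a1 : r y ≠ r t := hr.ne (fun k => ns (k ▸ eqv.symm e))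
    have a2 : r (ρ y) ≠ r s := hr.ne (fun k => ns (k ▸ sy))
    by_contra b
    by_cases b1 : r (ρ y) < r s
    · exact n (Al _ _ yA (hL2 a0 r hr y s (ρ y) y s t ns sy (eqv.refl _) (eqv.refl _) e b1 i.1
        (by omega)).1)
    · exact n (Al _ _ yA (hL2 a0 r hr s y s t y (ρ y) (fun k => ns (eqv.symm k)) (eqv.refl _) e
        (eqv.refl _) sy i.1 (by omega) (by omega)).2)
  refine ⟨c, ρ, p0, ⟨G, fun p j => ⟨Finset.mem_univ _, (us p j).2⟩,
    fun p q jp jq s => k2 p q jp jq (up _ _ (us p jp).1 s), fun s _ t _ js jt e => ?_⟩, u⟩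
  by_cases i : A s
  · exact k3 s (Finset.mem_univ _) t (Finset.mem_univ _) js jt (up _ _ i e)
  · rcases lt_trichotomy (r s) (r t) with o | o | o
    · exact out s t i e o
    · rw [hr.2.1 o]
    · exact (out t s (fun j => i (As _ _ j (eqv.symm e))) (eqv.symm e) o).symm

end

theorem overlap_local {V E : Type} [Fintype V] [Fintype E] {ends : E → Sym2 V}
    (hl : ∀ e : E, ¬ (ends e).IsDiag) (hc : ∀ v : V, {e : E | v ∈ ends e}.ncard = 3)
    (h2 : ∀ x u v : V, u ≠ x → v ≠ x → (SimpleGraph.fromRel (fun a b : V =>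
      a ≠ x ∧ b ≠ x ∧ ∃ e : E, ends e = s(a, b))).Reachable u v)
    {S : Set E} (hS : IsCircuit ends S) {x : V} (hx : Touches ends S x)
    (hsep : ∀ a b : V, Relation.ReflTransGen (BLink ends S) x a →
      Relation.ReflTransGen (BLink ends S) x b →
      3 ≤ {u | Touches ends S u ∧ SameBridge ends S a u}.ncard →
      3 ≤ {u | Touches ends S u ∧ SameBridge ends S b u}.ncard →
      ¬ SameBridge ends S a b →
      (∃ z : V, Touches ends S z ∧ ¬ SameBridge ends S z a ∧ ¬ SameBridge ends S z b ∧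
        ¬ Relation.ReflTransGen (fun u v => BLink ends S u v ∧
          ¬ SameBridge ends S z u ∧ ¬ SameBridge ends S z v) a b) ∨
      ¬ Relation.ReflTransGen (fun u v => BLink ends S u v ∧
        ¬ (SameBridge ends S a u ∧ SameBridge ends S b v) ∧
        ¬ (SameBridge ends S b u ∧ SameBridge ends S a v)) a b) :
    ∃ F : Set E, F ≠ S ∧ IsCircuit ends F ∧ IsCircuit ends (symmDiff S F) ∧
      BridgesAttach ends S F := by
  classical
  obtain ⟨α, _, σ, g, r0, v, ε, e1, e2, e3, e4, e5, hr0⟩ := exists_enum hl hS hx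
  subst e1
  have h : Enum ends S σ v ε := ⟨e2, e3, e4, e5⟩
  choose t w ht using fun p => exists_third hc hS (h.touches.2 ⟨p, rfl⟩)
  have eqv := same_equiv h ht (X := S) le_rfl
  have onS : ∀ p, Touches ends S (v p) := fun p => h.touches.2 ⟨p, rfl⟩
  have cl := bridge_iff h ht
  have eq2 : Equivalence (fun p q => SameBridge ends S (v p) (v q)) :=
    ⟨fun p => Or.inl rfl, fun k => (cl _ _).2 (eqv.symm ((cl _ _).1 k)),
      fun k k' => (cl _ _).2 (eqv.trans ((cl _ _).1 k) ((cl _ _).1 k'))⟩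
  have big : ∀ p, (∃ a1 a2, a1 ≠ p ∧ a2 ≠ p ∧ a1 ≠ a2 ∧
      SameBridge ends S (v p) (v a1) ∧ SameBridge ends S (v p) (v a2)) →
      3 ≤ {u | Touches ends S u ∧ SameBridge ends S (v p) u}.ncard := by
    rintro p ⟨a1, a2, n1, n2, n3, s1, s2⟩
    exact three_le_ncard (a := v p) (b := v a1) (d := v a2) ⟨onS p, Or.inl rfl⟩ ⟨onS a1, s1⟩
      ⟨onS a2, s2⟩ (fun k => n1 (h.1 k).symm) (fun k => n2 (h.1 k).symm) (fun k => n3 (h.1 k))
  obtain ⟨c, ρ, p0, ⟨hG, k1, k2, k3⟩, h0⟩ := localised (cyc_of hr0) g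
    (Lk := fun p q => BLink ends S (v p) (v q)) eq2
    (fun p _ => (has_partner hl h ht h2 p).imp (fun q k => ⟨k.1, (cl _ _).2 k.2⟩))
    (fun p q k => ⟨onS p, onS q, Or.inl k⟩)
    (fun _ _ hr p q p1 p2 q1 q2 _ s1 s2 s3 s4 l1 l2 l3 =>
      ⟨⟨onS p, onS q, Or.inr ⟨_, _, _, _, onS p1, onS p2, onS q1, onS q2, s1, s2, s3, s4,
          fin_apart h hr ⟨l1, l2⟩ (by omega)⟩⟩,
        ⟨onS q, onS p, Or.inr ⟨_, _, _, _, onS q1, onS q2, onS p2, onS p1, s3, s4, s2, s1,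
          fin_apart h hr ⟨l2, l3⟩ (by omega)⟩⟩⟩)
    (fun p q ap aq bp bq n => by
      rcases hsep _ _ (ap.lift v (fun _ _ j => j)) (aq.lift v (fun _ _ j => j)) (big p bp)
        (big q bq) n with ⟨z, z0, z1, z2, z3⟩ | z
      · obtain ⟨s, rfl⟩ := h.touches.1 z0
        exact Or.inl ⟨s, z1, z2, fun k => z3 (k.lift v (fun _ _ j => j))⟩
      · exact Or.inr (fun k => z (k.lift v (fun _ _ j => j))))
  obtain ⟨g', hv⟩ := hG.valid h0
  obtain ⟨F, _, hF⟩ := realise (P := ∅) (Root := fun _ => False) (p0 := p0) hl hc hS h ht hv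
    (Set.empty_disjoint _) (fun _ k => k.elim) (fun _ _ k => k.elim) (Or.inl rfl)
    (fun p hp _ => by rw [Set.union_empty]; exact (cl _ _).1 (k1 p hp).2)
    (fun p q hp hq _ _ => by rw [Set.union_empty]; exact fun s => k2 p q hp hq ((cl _ _).2 s))
    (fun p q hp hq => by
      rw [Set.union_empty]
      exact fun s => k3 p (Finset.mem_univ _) q (Finset.mem_univ _) hp hq ((cl _ _).2 s)) h0
  exact ⟨F, hF⟩

end Pool.Agent.Lib.MP_061452_co.OF
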