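import Pool.Agent.Lib.MP_061452_co.OF.Loc
import Pool.Agent.Lib.MP_061452_co.TC.Main

set_option autoImplicit false

namespace Pool.Agent.Lib.MP_061452_co.OF

open Function Relation
open Pool.Agent.Lib.MP_061452_co.TC hiding Cyc Good St

section

variable {α : Type} [DecidableEq α] [Fintype α] {σ : Equiv.Perm α} {Sm : α → α → Prop}

theorem fits_single (hc : Cyc σ) (hσ : TC.Cyc σ) (eqv : Equivalence Sm) {A : α → Prop} {g : α}
    (gA : A g) (sg : ∀ p, ¬ A p → ∀ q, Sm p q → q = p) (h2 : ∀ p, A p → ∃ q, q ≠ p ∧ Sm p q)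
    (hA : ∀ p q r s, Big3 Sm p → Big3 Sm q → Big3 Sm r → Big3 Sm s → ¬ Sm p q → ¬ Sm p r →
      ¬ Sm q r → Sm p s ∨ Sm q s ∨ Sm r s)
    (hB : ∀ p q r, Big4 Sm p → Big3 Sm q → Big3 Sm r → ¬ Sm p q → ¬ Sm p r → Sm q r)
    (hC : ∀ p q, Big4 Sm p → Big4 Sm q → Sm p q) : Fits σ Sm := by
  classical
  by_cases H3 : ∃ p q r, Big3 Sm p ∧ Big3 Sm q ∧ Big3 Sm r ∧ ¬ Sm p q ∧ ¬ Sm p r ∧ ¬ Sm q r
  · obtain ⟨p, q, r, b1, b2, b3, n1, n2, n3⟩ := H3
    have n1' : ¬ Sm q p := fun k => n1 (eqv.symm k)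
    have n2' : ¬ Sm r p := fun k => n2 (eqv.symm k)
    have n3' : ¬ Sm r q := fun k => n3 (eqv.symm k)
    let P : ℕ → α := fun i => if i = 0 then p else if i = 1 then q else r
    have P0 : P 0 = p := rfl
    have P1 : P 1 = q := rfl
    have P2 : P 2 = r := rfl
    have bP : ∀ i, Big3 Sm (P i) := fun i => by
      simp only [P]; split_ifs <;> assumption
    have nP : ∀ i < 3, ∀ j < 3, Sm (P i) (P j) → i = j := fun i hi j hj k => by
      interval_cases i <;> interval_cases j <;> simp_all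
    have sP : ∀ i < 3, ¬ Big4 Sm (P i) := fun i hi k => by
      interval_cases i
      exacts [n3 (hB _ _ _ k b2 b3 n1 n2), n2 (hB _ _ _ k b1 b3 n1' n3),
        n1 (hB _ _ _ k b1 b2 n2' n3')]
    choose Q R q1 q2 q3 q4 q5 using bP
    let B : ℕ → ℕ → α := fun i j => if j = 0 then P i else if j = 1 then Q i else R i
    have sB : ∀ i j, Sm (P i) (B i j) := fun i j => by
      simp only [B]; split_ifs
      exacts [eqv.refl _, q4 i, q5 i]
    have iB : ∀ i, ∀ j < 3, ∀ j' < 3, B i j = B i j' → j = j' := fun i j hj j' hj' k => by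
      interval_cases j <;> interval_cases j'
      exacts [rfl, absurd k.symm (q1 i), absurd k.symm (q2 i), absurd k (q1 i), rfl,
        absurd k (q3 i), absurd k (q2 i), absurd k.symm (q3 i), rfl]
    have h1 : ∀ a < 9, ∀ b < 9, Sm (B (a / 3) (a % 3)) (B (b / 3) (b % 3)) ↔ a / 3 = b / 3 :=
      fun a ha b hb => ⟨fun k => nP _ (by omega) _ (by omega)
        (eqv.trans (sB _ _) (eqv.trans k (eqv.symm (sB _ _)))),
        fun k => eqv.trans (eqv.symm (sB _ _)) (k ▸ sB _ _)⟩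
    refine fits_claws hσ eqv (fun a => B (a / 3) (a % 3)) (fun a ha b hb k => ?_) h1
      (fun s hs => ?_)
    · have k1 := (h1 a ha b hb).1 (k ▸ eqv.refl _)
      rw [← k1] at k
      have := iB _ _ (by omega) _ (by omega) k
      omega
    · have : ∃ i < 3, Sm (P i) s := by
        rcases hA p q r s b1 b2 b3 hs n1 n2 n3 with k | k | k
        exacts [⟨0, by decide, k⟩, ⟨1, by decide, k⟩, ⟨2, by decide, k⟩]
      obtain ⟨i, hi, k⟩ := this
      have mk : ∀ j < 3, B i j = s → Sp 9 (fun a => B (a / 3) (a % 3)) s := fun j hj e =>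
        ⟨3 * i + j, by omega, by
          beta_reduce
          rw [← e, show (3 * i + j) / 3 = i by omega, show (3 * i + j) % 3 = j by omega]⟩
      by_contra n
      exact sP i hi ⟨Q i, R i, s, q1 i, q2 i, fun j => n (mk 0 (by decide) j.symm), q3 i,
        fun j => n (mk 1 (by decide) j), fun j => n (mk 2 (by decide) j), q4 i, q5 i, k⟩
  by_cases HR : ∃ x, A x ∧ ¬ Big4 Sm x ∧
      ∀ p q, Big3 Sm p → Big3 Sm q → ¬ Sm x p → ¬ Sm x q → Sm p q
  · obtain ⟨x, k0, k1, k2⟩ := HR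
    obtain ⟨y, k3, k4⟩ := h2 x k0
    exact fits_root hσ eqv k3 k4 k1 k2
  have bA : ∀ p, Big3 Sm p → A p := by
    rintro p ⟨q, _, n, _, _, s, _⟩
    exact by_contra fun j => n (sg p j q s)
  have all : ∀ x, A x → Big4 Sm x := by
    intro x xA
    by_contra n
    have key : ∀ p, Big3 Sm p → Big4 Sm p := fun p hp => by
      by_contra n'
      refine HR ⟨p, bA p hp, n', fun a b ha hb k1 k2 => ?_⟩
      by_contra k3
      exact H3 ⟨p, a, b, hp, ha, hb, k1, k2, k3⟩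
    exact HR ⟨x, xA, n, fun a b ha hb _ _ => hC a b (key a ha) (key b hb)⟩
  have bg : ∀ p, A p → Bg Sm Finset.univ p := fun p i => by
    obtain ⟨a, b, _, n1, n2, _, n3, _, _, s1, s2, _⟩ := all p i
    exact ⟨Finset.mem_univ _, a, Finset.mem_univ _, b, Finset.mem_univ _, n1, n2, n3, s1, s2⟩
  have gb : ∀ p, Bg Sm Finset.univ p → A p := by
    rintro p ⟨_, a, _, b, _, o⟩
    exact bA p ⟨a, b, o⟩
  obtain ⟨r, hr⟩ := hc.rk g
  obtain ⟨c, ρ, p0, ⟨G, k1, k2, k3⟩, u⟩ := big_or_single hc hr eqv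
    (fun _ _ _ p q bp bq n => absurd (hC p q (all p (gb p bp)) (all q (gb q bq))) n) (bg g gA)
    (fun p => by
      by_cases i : A p
      exacts [Or.inl (bg p i), Or.inr (sg p i)])
  obtain ⟨g', hv⟩ := G.valid u
  exact ⟨g', c, ρ, hv, ⟨p0, u⟩, fun p j => (k1 p j).2, k2,
    fun p q => k3 p (Finset.mem_univ _) q (Finset.mem_univ _)⟩

theorem fits_local (hc : Cyc σ) (hσ : TC.Cyc σ) (a0 : α) {Lk : α → α → Prop}
    (eqv : Equivalence Sm)
    (hp : ∀ p, ReflTransGen Lk a0 p → ∃ q, q ≠ p ∧ Sm p q) (hL1 : ∀ p q, Sm p q → Lk p q)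
    (hL2 : ∀ g r, Rk σ g r → ∀ p q p1 p2 q1 q2, ¬ Sm p q → Sm p p1 → Sm p p2 → Sm q q1 →
      Sm q q2 → r p1 < r q1 → r q1 < r p2 → r p2 < r q2 → Lk p q ∧ Lk q p)
    (h1 : ∀ p q r s, ReflTransGen Lk a0 p ∧ Big3 Sm p → ReflTransGen Lk a0 q ∧ Big3 Sm q →
      ReflTransGen Lk a0 r ∧ Big3 Sm r → ReflTransGen Lk a0 s ∧ Big3 Sm s → ¬ Sm p q → ¬ Sm p r →
      ¬ Sm q r → Sm p s ∨ Sm q s ∨ Sm r s)
    (h2 : ∀ p q r, ReflTransGen Lk a0 p ∧ Big4 Sm p → ReflTransGen Lk a0 q ∧ Big3 Sm q →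
      ReflTransGen Lk a0 r ∧ Big3 Sm r → ¬ Sm p q → ¬ Sm p r → Sm q r)
    (h3 : ∀ p q, ReflTransGen Lk a0 p ∧ Big4 Sm p → ReflTransGen Lk a0 q ∧ Big4 Sm q → Sm p q) :
    Fits σ Sm := by
  classical
  obtain ⟨A, hA⟩ : ∃ A : α → Prop, A = ReflTransGen Lk a0 := ⟨_, rfl⟩
  have Al : ∀ p q, A p → Lk p q → A q := fun p q i j => by
    rw [hA] at i ⊢; exact i.tail j
  have A0 : A a0 := by rw [hA]
  rw [← hA] at hp h1 h2 h3
  have As : ∀ p q, A p → Sm p q → A q := fun p q i j => Al p q i (hL1 p q j)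
  let S2 : α → α → Prop := fun p q => p = q ∨ (A p ∧ Sm p q)
  have dn : ∀ p q, S2 p q → Sm p q := fun p q k => k.elim (fun e => e ▸ eqv.refl _) And.right
  have up : ∀ p q, A p → Sm p q → S2 p q := fun p q i j => Or.inr ⟨i, j⟩
  have eq2 : Equivalence S2 := ⟨fun _ => Or.inl rfl,
    fun k => k.elim (fun j => Or.inl j.symm) (fun j => Or.inr ⟨As _ _ j.1 j.2, eqv.symm j.2⟩),
    fun k k' => k.elim (fun j => j ▸ k') (fun j => Or.inr ⟨j.1, eqv.trans j.2 (dn _ _ k')⟩)⟩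
  have b3 : ∀ p, Big3 S2 p → A p ∧ Big3 Sm p := by
    rintro p ⟨a, b, n1, n2, n3, s1, s2⟩
    exact ⟨(s1.resolve_left n1.symm).1, a, b, n1, n2, n3, dn _ _ s1, dn _ _ s2⟩
  have b4 : ∀ p, Big4 S2 p → A p ∧ Big4 Sm p := by
    rintro p ⟨a, b, d, n1, n2, n3, n4, n5, n6, s1, s2, s3⟩
    exact ⟨(s1.resolve_left n1.symm).1, a, b, d, n1, n2, n3, n4, n5, n6, dn _ _ s1, dn _ _ s2,
      dn _ _ s3⟩
  have nn : ∀ p q, A p → ¬ S2 p q → ¬ Sm p q := fun p q i n j => n (up p q i j)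
  obtain ⟨g', c, ρ, hv, u, k1, k2, k3⟩ := fits_single hc hσ eq2 A0
    (fun p i q k => (k.resolve_right (fun j => i j.1)).symm)
    (fun p i => (hp p i).imp (fun q k => ⟨k.1, up _ _ i k.2⟩))
    (fun p q r s c1 c2 c3 c4 n1 n2 n3 =>
      (h1 p q r s (b3 p c1) (b3 q c2) (b3 r c3) (b3 s c4) (nn _ _ (b3 p c1).1 n1)
        (nn _ _ (b3 p c1).1 n2) (nn _ _ (b3 q c2).1 n3)).imp (up _ _ (b3 p c1).1)
        (Or.imp (up _ _ (b3 q c2).1) (up _ _ (b3 r c3).1)))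
    (fun p q r c1 c2 c3 n1 n2 => up _ _ (b3 q c2).1
      (h2 p q r (b4 p c1) (b3 q c2) (b3 r c3) (nn _ _ (b4 p c1).1 n1) (nn _ _ (b4 p c1).1 n2)))
    (fun p q c1 c2 => up _ _ (b4 p c1).1 (h3 p q (b4 p c1) (b4 q c2)))
  have us : ∀ y, ρ y ≠ y → A y ∧ Sm y (ρ y) := fun y j => (k1 y j).resolve_left j.symm
  obtain ⟨r, hr⟩ := hc.rk a0
  have out : ∀ s t, ¬ A s → Sm s t → r s < r t → c s = c t := by
    intro s t n e o
    refine even_col (⟨hv.1.1, hv.1.2.1⟩ : LW σ c ρ) (hr.ivl o) (fun y i => ?_)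
    by_cases j : ρ y = y
    · rw [j]; exact i
    obtain ⟨yA, sy⟩ := us y j
    have ns : ¬ Sm y s := fun k => n (As _ _ yA k)
    have a1 : r y ≠ r t := hr.ne (fun k => ns (k ▸ eqv.symm e))
    have a2 : r (ρ y) ≠ r s := hr.ne (fun k => ns (k ▸ sy))
    by_contra b
    by_cases b1 : r (ρ y) < r s
    · exact n (Al _ _ yA (hL2 a0 r hr y s (ρ y) y s t ns sy (eqv.refl _) (eqv.refl _) e b1 i.1
        (by omega)).1)
    · exact n (Al _ _ yA (hL2 a0 r hr s y s t y (ρ y) (fun k => ns (eqv.symm k)) (eqv.refl _) e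
        (eqv.refl _) sy i.1 (by omega) (by omega)).2)
  refine ⟨g', c, ρ, hv, u, fun p j => (us p j).2,
    fun p q jp jq s => k2 p q jp jq (up _ _ (us p jp).1 s), fun s t js jt e => ?_⟩
  by_cases i : A s
  · exact k3 s t js jt (up _ _ i e)
  · rcases lt_trichotomy (r s) (r t) with o | o | o
    · exact out s t i e o
    · rw [hr.2.1 o]
    · exact (out t s (fun j => i (As _ _ j (eqv.symm e))) (eqv.symm e) o).symm

end

theorem claws_local {V E : Type} [Fintype V] [Fintype E] {ends : E → Sym2 V} {S : Set E}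
    (hl : ∀ e, ¬ (ends e).IsDiag)
    (hc : ∀ x : V, {e : E | x ∈ ends e}.ncard = 3)
    (h2 : ∀ x u u' : V, u ≠ x → u' ≠ x → (SimpleGraph.fromRel (fun a b : V =>
      a ≠ x ∧ b ≠ x ∧ ∃ e : E, ends e = s(a, b))).Reachable u u')
    (hS : IsCircuit ends S) {x0 : V} (hx : Touches ends S x0) {T : Set V} (hT : T.ncard ≤ 3)
    (h34 : ∀ q, ¬ Touches ends S q →
      (∃ a ∈ Attach ends S q, ReflTransGen (BLink ends S) x0 a) →
      (3 ≤ (Attach ends S q).ncard → ∃ x ∈ T, (Outside ends S).Reachable q x) ∧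
      (4 ≤ (Attach ends S q).ncard → ∃ x ∈ T, ∃ y ∈ T, x ≠ y ∧
        (Outside ends S).Reachable q x ∧ (Outside ends S).Reachable q y)) :
    ∃ F, F ≠ S ∧ IsCircuit ends F ∧ IsCircuit ends (symmDiff S F) ∧ BridgesAttach ends S F := by
  classical
  obtain ⟨α, _, σ, g, r, v, ε, e1, e2, e3, e4, e5, hr⟩ := exists_enum hl hS hx
  subst e1
  have h : Enum ends S σ v ε := ⟨e2, e3, e4, e5⟩
  choose t w ht using fun p => exists_third hc hS (h.touches.2 ⟨p, rfl⟩)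
  have eqv := same_equiv h ht (X := S) le_rfl
  have onS : ∀ p, Touches ends S (v p) := fun p => h.touches.2 ⟨p, rfl⟩
  have cl := bridge_iff h ht
  have at0 : ∀ p, ReflTransGen (fun p q => BLink ends S (v p) (v q)) g p →
      ¬ Touches ends S (w p) →
      ∃ a ∈ Attach ends S (w p), ReflTransGen (BLink ends S) (v g) a :=
    fun p k n => ⟨v p, attach_mem h ht n (eqv.refl p), k.lift v (fun _ _ j => j)⟩
  have o3 : ∀ p, ReflTransGen (fun p q => BLink ends S (v p) (v q)) g p ∧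
      Big3 (Same ends S t w) p → ¬ Touches ends S (w p) ∧
      ∃ x ∈ T, (Outside ends S).Reachable (w p) x := by
    rintro p ⟨a0, q, r, n1, n2, n3, s1, s2⟩
    have i := three_attach h ht le_rfl n1 n2 n3 s1 s2
    exact ⟨i.1, (h34 _ i.1 (at0 p a0 i.1)).1
      (i.2.trans (Set.ncard_le_ncard Set.inter_subset_left))⟩
  have o4 : ∀ p, ReflTransGen (fun p q => BLink ends S (v p) (v q)) g p ∧
      Big4 (Same ends S t w) p → ¬ Touches ends S (w p) ∧ ∃ x ∈ T, ∃ y ∈ T, x ≠ y ∧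
      (Outside ends S).Reachable (w p) x ∧ (Outside ends S).Reachable (w p) y := by
    rintro p ⟨a0, q, r, s, n1, n2, n3, n4, n5, n6, s1, s2, s3⟩
    have i := (three_attach h ht le_rfl n1 n2 n4 s1 s2).1
    exact ⟨i, (h34 _ i (at0 p a0 i)).2 (four_le_ncard (attach_mem h ht i (eqv.refl p)) (attach_mem h ht i s1)
      (attach_mem h ht i s2) (attach_mem h ht i s3) (fun k => n1 (h.1 k).symm)
      (fun k => n2 (h.1 k).symm) (fun k => n3 (h.1 k).symm) (fun k => n4 (h.1 k))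
      (fun k => n5 (h.1 k)) (fun k => n6 (h.1 k)))⟩
  have ne : ∀ {p q x y}, ¬ Touches ends S (w p) → ¬ Same ends S t w p q →
      (Outside ends S).Reachable (w p) x → (Outside ends S).Reachable (w q) y → x ≠ y :=
    fun n k r1 r2 j => k (Or.inr ⟨n, r1.trans (j ▸ r2.symm)⟩)
  obtain ⟨g', c, ρ, hv, ⟨p0, h0⟩, k1, k2, k3⟩ := fits_local (cyc_of hr) (cyc_of_rank hr) g
    (Lk := fun p q => BLink ends S (v p) (v q)) eqv (fun p _ => partner hl h ht h2 p)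
    (fun p q k => ⟨onS p, onS q, Or.inl ((cl _ _).2 k)⟩)
    (fun _ _ hr p q p1 p2 q1 q2 _ s1 s2 s3 s4 l1 l2 l3 =>
      ⟨⟨onS p, onS q, Or.inr ⟨_, _, _, _, onS p1, onS p2, onS q1, onS q2, (cl _ _).2 s1,
          (cl _ _).2 s2, (cl _ _).2 s3, (cl _ _).2 s4, fin_apart h hr ⟨l1, l2⟩ (by omega)⟩⟩,
        ⟨onS q, onS p, Or.inr ⟨_, _, _, _, onS q1, onS q2, onS p2, onS p1, (cl _ _).2 s3,
          (cl _ _).2 s4, (cl _ _).2 s2, (cl _ _).2 s1, fin_apart h hr ⟨l2, l3⟩ (by omega)⟩⟩⟩)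
    (fun p q r s b1 b2 b3 b4 n1 n2 n3 => by
      by_contra n
      simp only [not_or] at n
      obtain ⟨i1, x1, m1, r1⟩ := o3 p b1
      obtain ⟨i2, x2, m2, r2⟩ := o3 q b2
      obtain ⟨i3, x3, m3, r3⟩ := o3 r b3
      obtain ⟨_, x4, m4, r4⟩ := o3 s b4
      have := four_le_ncard m1 m2 m3 m4 (ne i1 n1 r1 r2) (ne i1 n2 r1 r3) (ne i1 n.1 r1 r4)
        (ne i2 n3 r2 r3) (ne i2 n.2.1 r2 r4) (ne i3 n.2.2 r3 r4)
      omega)
    (fun p q r b1 b2 b3 n1 n2 => by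
      by_contra n
      obtain ⟨i1, x1, m1, y1, m1', n0, r1, r1'⟩ := o4 p b1
      obtain ⟨i2, x2, m2, r2⟩ := o3 q b2
      obtain ⟨_, x3, m3, r3⟩ := o3 r b3
      have := four_le_ncard m1 m1' m2 m3 n0 (ne i1 n1 r1 r2) (ne i1 n2 r1 r3) (ne i1 n1 r1' r2)
        (ne i1 n2 r1' r3) (ne i2 n r2 r3)
      omega)
    (fun p q b1 b2 => by
      by_contra n
      obtain ⟨i1, x1, m1, y1, m1', n0, r1, r1'⟩ := o4 p b1
      obtain ⟨_, x2, m2, y2, m2', n0', r2, r2'⟩ := o4 q b2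
      have := four_le_ncard m1 m1' m2 m2' n0 (ne i1 n r1 r2) (ne i1 n r1 r2') (ne i1 n r1' r2)
        (ne i1 n r1' r2') n0'
      omega)
  obtain ⟨F, _, hF⟩ := realise (P := ∅) (Root := fun _ => False) (p0 := p0) hl hc hS h ht hv
    (Set.empty_disjoint _) (fun _ k => k.elim) (fun _ _ k => k.elim) (Or.inl rfl)
    (fun p hp _ => by rw [Set.union_empty]; exact k1 p hp)
    (fun p q hp hq _ _ => by rw [Set.union_empty]; exact k2 p q hp hq)
    (fun p q hp hq => by rw [Set.union_empty]; exact k3 p q hp hq) h0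
  exact ⟨F, hF⟩

end Pool.Agent.Lib.MP_061452_co.OF
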