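import Pool.Agent.Lib.MP_061452_co.OF.Main

set_option autoImplicit false

namespace Pool.Agent.Lib.MP_061452_co.OF

open Function Relation

variable {α : Type} [DecidableEq α] [Fintype α] {σ : Equiv.Perm α} {g : α} {r : α → ℕ}
  {Sm : α → α → Prop}

theorem forest_in (hc : Cyc σ) (hr : Rk σ g r) {h : α} (hg : h ≠ g) (eqv : Equivalence Sm)
    (A : Finset α) (hroot : ∀ q ∈ A, Sm g q ↔ q = g ∨ q = h) (gA : g ∈ A) (hA : h ∈ A)
    (hsep : Sep r Sm A) : ∃ c ρ, St σ Sm A c ρ ∧ ρ g = h := by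
  classical
  induction A using Finset.strongInduction with
  | _ A ih =>
  have sgh : Sm g h := (hroot h hA).2 (Or.inr rfl)
  by_cases hb : ∃ c1, Bg Sm A c1
  · obtain ⟨c1, hc1⟩ := hb
    have ng : ¬ Sm g c1 := by
      intro s
      obtain ⟨i0, a, i1, b, i2, n1, n2, n3, s1, s2⟩ := hc1
      have e := (hroot _ i0).1 s
      have e1 := (hroot _ i1).1 (eqv.trans s s1)
      have e2 := (hroot _ i2).1 (eqv.trans s s2)
      rcases e with e | e <;> rcases e1 with e1 | e1 <;> rcases e2 with e2 | e2 <;>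
        first | exact n1 (e1.trans e.symm) | exact n2 (e2.trans e.symm) | exact n3 (e1.trans e2.symm)
    obtain ⟨x, c0, K, b0, c0K, KA, gK, Kcl, Kx, Kbig, conn, NL⟩ := select eqv hsep hc1 ng
    obtain ⟨m, mK, m1⟩ := Finset.exists_min_image K r ⟨c0, c0K⟩
    obtain ⟨M, MK, M1⟩ := Finset.exists_max_image K r ⟨c0, c0K⟩
    obtain ⟨r1, r1K, r2⟩ := Finset.exists_min_image (K.filter (Sm c0)) r
      ⟨c0, Finset.mem_filter.2 ⟨c0K, eqv.refl _⟩⟩
    obtain ⟨rk, rkK, r3⟩ := Finset.exists_max_image (K.filter (Sm c0)) r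
      ⟨c0, Finset.mem_filter.2 ⟨c0K, eqv.refl _⟩⟩
    rw [Finset.mem_filter] at r1K rkK
    let A1 : Finset α := A.filter (fun t => t ∉ K ∨ t = r1 ∨ t = rk)
    have hA1 : ∀ t, t ∈ A1 ↔ (t ∈ A ∧ t ∉ K) ∨ t = r1 ∨ t = rk := by
      intro t
      simp only [A1, Finset.mem_filter]
      constructor
      · rintro ⟨a, b | b⟩
        exacts [Or.inl ⟨a, b⟩, Or.inr b]
      · rintro (a | a | a)
        exacts [⟨a.1, Or.inl a.2⟩, ⟨a ▸ KA _ r1K.1, Or.inr (Or.inl a)⟩,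
          ⟨a ▸ KA _ rkK.1, Or.inr (Or.inr a)⟩]
    have lt : A1 ⊂ A := by
      refine ⟨Finset.filter_subset _ _, fun k => ?_⟩
      obtain ⟨i0, a, i1, b, i2, n1, n2, n3, s1, s2⟩ := b0
      have two : ∀ t ∈ A, Sm c0 t → t = r1 ∨ t = rk := fun t i s =>
        ((hA1 t).1 (k i)).resolve_left (fun j => j.2 (Kcl c0 c0K t i s))
      rcases two c0 i0 (eqv.refl _) with e | e <;> rcases two a i1 s1 with e1 | e1 <;>
        rcases two b i2 s2 with e2 | e2 <;> simp_all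
    obtain ⟨c1, ρ1, s1, e⟩ := ih A1 lt (fun q i => hroot q (lt.1 i)) ((hA1 g).2 (Or.inl ⟨gA, gK⟩))
      ((hA1 h).2 (Or.inl ⟨hA, fun i => gK (Kcl h i g gA (eqv.symm sgh))⟩))
      (hsep.mono (fun t i => lt.1 i))
    obtain ⟨c, ρ, s, e'⟩ := step hc hr eqv b0 c0K KA gK Kcl Kx Kbig conn NL mK MK
      (fun k i => ⟨m1 k i, M1 k i⟩) r1K rkK (fun k i s => ⟨r2 k (Finset.mem_filter.2 ⟨i, s⟩),
        r3 k (Finset.mem_filter.2 ⟨i, s⟩)⟩) hA1 s1 (e ▸ hg)
    exact ⟨c, ρ, s, e'.trans e⟩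
  · obtain ⟨c, ρ, G, k0, k1, k2, k3, _⟩ := one_on hc eqv A hg
      (fun p _ i _ => absurd ⟨p, i⟩ hb) true true
    have k0' : ρ h = g := by rw [← k0, G.1.1 g]
    have uA : ∀ p, ρ p ≠ p → p ∈ A := fun p j => by
      rcases k1 p j with e | e | e
      exacts [e ▸ gA, e ▸ hA, e.1]
    refine ⟨c, ρ, ⟨G, fun p j => ?_, fun p q jp jq s => ?_, k3⟩, k0⟩
    · rcases k1 p j with e | e | e
      · rw [e, k0]; exact ⟨gA, sgh⟩
      · rw [e, k0']; exact ⟨hA, eqv.symm sgh⟩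
      · exact ⟨e.1, e.2.2⟩
    · by_cases n : p = g ∨ p = h
      · have := (hroot q (uA q jq)).1 (eqv.trans ((hroot p (uA p jp)).2 n) s)
        rcases n with e | e <;> rw [e]
        · rwa [k0]
        · rw [k0']; exact this.symm
      · exact k2 p q jp jq n
          (fun i => n ((hroot p (uA p jp)).1
            (eqv.trans ((hroot q (uA q jq)).2 i) (eqv.symm s)))) s

theorem lone_pair (hc : Cyc σ) (hr : Rk σ g r) (eqv : Equivalence Sm) {p q : α} (s0 : Sm p q)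
    (o : r p < r q) (hs : ∀ s t, Sm s t → r p < r s → r s < r q → t ≠ p → t ≠ q →
      r p < r t ∧ r t < r q) : ∃ c ρ, St σ Sm Finset.univ c ρ ∧ ρ p ≠ p := by
  have ne : q ≠ p := fun e => by rw [e] at o; omega
  obtain ⟨c, ρ, G, k0, k1, _⟩ := one_on hc eqv ∅ (a := p) (b := q) ne
    (fun _ _ i _ => absurd i.1 (Finset.notMem_empty _)) true true
  have k0' : ρ q = p := by rw [← k0, G.1.1 p]
  have us : ∀ t, ρ t ≠ t → t = p ∨ t = q := fun t j =>
    (k1 t j).imp_right (fun e => e.resolve_right (fun i => Finset.notMem_empty _ i.1))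
  have un : ∀ t, r t ≠ r p → r t ≠ r q → ρ t = t := fun t a b => by
    by_contra j
    rcases us t j with e | e <;> subst e <;> omega
  have up : ρ p ≠ p := k0 ▸ ne
  have uq : ρ q ≠ q := k0' ▸ ne.symm
  have pq := hr.pred (p := q) (by omega)
  have cin : ∀ s, r p < r s → r s < r q → c s = c p := fun s a b =>
    (hr.const G.1 a.le (fun t _ _ => un t (by omega) (by omega))).symm
  have cout : ∀ s, r s < r p ∨ r q < r s → c s = c q := by
    rintro s (a | a)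
    · have pp := hr.pred (p := p) (by omega)
      have a1 := hr.const G.1 (a := s) (b := σ.symm p) (by omega)
        (fun t _ _ => un t (by omega) (by omega))
      have a2 := hr.const G.1 (a := p) (b := σ.symm q) (by omega)
        (fun t _ _ => un t (by omega) (by omega))
      have a3 := G.1.used up
      have a4 := G.1.used uq
      rw [← a1] at a3
      rw [← a2] at a4
      revert a3 a4
      cases c s <;> cases c p <;> cases c q <;> simp
    · exact (hr.const G.1 a.le (fun t _ _ => un t (by omega) (by omega))).symm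
  refine ⟨c, ρ, ⟨G, fun t j => ⟨Finset.mem_univ _, ?_⟩, fun s t js jt _ => ?_,
    fun s _ t _ js jt e => ?_⟩, up⟩
  · rcases us t j with e | e <;> rw [e]
    · rwa [k0]
    · rw [k0']; exact eqv.symm s0
  · rcases us s js with e | e <;> rw [e]
    · rw [k0]; exact us t jt
    · rw [k0']; exact (us t jt).symm
  · have s1 : s ≠ p := fun i => up (i ▸ js)
    have s2 : s ≠ q := fun i => uq (i ▸ js)
    have t1 : t ≠ p := fun i => up (i ▸ jt)
    have t2 : t ≠ q := fun i => uq (i ▸ jt)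
    have a1 := hr.ne s1
    have a2 := hr.ne s2
    have a3 := hr.ne t1
    have a4 := hr.ne t2
    by_cases i : r p < r s ∧ r s < r q
    · have j := hs s t e i.1 i.2 t1 t2
      rw [cin s i.1 i.2, cin t j.1 j.2]
    · have j : ¬ (r p < r t ∧ r t < r q) := fun j => i (hs t s (eqv.symm e) j.1 j.2 s1 s2)
      rw [cout s (by omega), cout t (by omega)]

theorem all_big (hc : Cyc σ) (hr : Rk σ g r) (eqv : Equivalence Sm)
    (hsep : ∀ g' r', Rk σ g' r' → Sep r' Sm Finset.univ) (hb : ∀ p, Bg Sm Finset.univ p) :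
    ∃ c ρ p0, St σ Sm Finset.univ c ρ ∧ ρ p0 ≠ p0 := by
  classical
  by_cases one : ∀ t, Sm g t
  · obtain ⟨_, a, _, _, _, n1, _⟩ := hb g
    have g0 := hr.1
    have a0 := hr.ne n1
    have sg : r (σ g) = r g + 1 := (hr.succ g).resolve_right (fun e => by
      have := e.2 a; omega)
    obtain ⟨c, ρ, s, u⟩ := lone_pair hc hr eqv (one (σ g)) (by omega)
      (fun s t _ o1 o2 => by omega)
    exact ⟨c, ρ, g, s, u⟩
  push Not at one
  obtain ⟨c1, ng⟩ := one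
  obtain ⟨x, c0, K, b0, c0K, _, gK, Kcl, Kx, Kbig, _, NL⟩ := select eqv (hsep g r hr) (hb c1) ng
  have KS : ∀ k ∈ K, ∀ k' ∈ K, Sm k k' :=
    fun k i k' j => eqv.trans (eqv.symm (Kbig k i (hb k))) (Kbig k' j (hb k'))
  have nK : ∀ s t, s ∉ K → Sm s t → t ∉ K :=
    fun s t j e k => j (Kcl t k s (Finset.mem_univ _) (eqv.symm e))
  have ne : ∀ y, y ∉ K → ∀ k ∈ K, r y ≠ r k := fun y n k j => hr.ne (fun e => n (e ▸ j))
  have NS1 : ∀ y1 y2, Sm y1 y2 → y1 ∉ K → ¬ Sm x y1 → ∀ k ∈ K, ∀ k' ∈ K,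
      r y1 < r k → r k < r y2 → r y1 < r k' ∧ r k' < r y2 := by
    intro y1 y2 s n nx k i k' j o1 o2
    by_contra o3
    exact nx (NL y1 (Finset.mem_univ _) n k i (ln_of_sep eqv hr.2.1 (Finset.mem_univ _)
      (Finset.mem_univ _) (Finset.mem_univ _) (Finset.mem_univ _) s (KS k i k' j)
      (fun e => nK y1 k n e i) o1 o2 o3)).1
  have NS : ∀ y1 y2, Sm y1 y2 → y1 ∉ K → ¬ Sm x y1 → ∀ k ∈ K, ∀ k' ∈ K,
      r k < r y1 → r y1 < r k' → r k < r y2 ∧ r y2 < r k' := by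
    intro y1 y2 s n nx k i k' j o1 o2
    have a1 := NS1 y1 y2 s n nx k' j k i
    have a2 := NS1 y2 y1 (eqv.symm s) (nK y1 y2 n s) (fun e => nx (eqv.trans e (eqv.symm s)))
      k i k' j
    have a3 := ne y2 (nK y1 y2 n s) k i
    have a4 := ne y2 (nK y1 y2 n s) k' j
    omega
  by_cases hx : ∀ p ∈ K, ∀ q ∈ K, r p < r q → ∃ t, Sm x t ∧ r p < r t ∧ r t < r q
  swap
  · push Not at hx
    obtain ⟨p, pK, q', qK', o, hx⟩ := hx
    obtain ⟨q, q1, q2⟩ := Finset.exists_min_image (K.filter (fun k => r p < r k)) r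
      ⟨q', Finset.mem_filter.2 ⟨qK', o⟩⟩
    rw [Finset.mem_filter] at q1
    have q3 := q2 q' (Finset.mem_filter.2 ⟨qK', o⟩)
    obtain ⟨c, ρ, s, u⟩ := lone_pair hc hr eqv (KS p pK q q1.1) q1.2 (fun s t e o1 o2 _ _ => by
      refine NS s t e (fun i => ?_) (fun i => ?_) p pK q q1.1 o1 o2
      · have := q2 s (Finset.mem_filter.2 ⟨i, o1⟩); omega
      · have := hx s i o1; omega)
    exact ⟨c, ρ, p, s, u⟩
  obtain ⟨r1, r1K, m1⟩ := Finset.exists_min_image K r ⟨c0, c0K⟩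
  obtain ⟨rk, rkK, m2⟩ := Finset.exists_max_image K r ⟨c0, c0K⟩
  have n1k : rk ≠ r1 := by
    intro e
    obtain ⟨_, a, _, _, _, n1, _, _, s1, _⟩ := b0
    have aK := Kcl c0 c0K a (Finset.mem_univ _) s1
    have a1 := m1 a aK
    have a2 := m2 a aK
    have a3 := m1 c0 c0K
    have a4 := m2 c0 c0K
    have a5 := hr.ne n1
    rw [e] at a2 a4
    omega
  let A1 : Finset α := Finset.univ.filter (fun t => t ∉ K ∨ t = r1 ∨ t = rk)
  have hA1 : ∀ t, t ∈ A1 ↔ t ∉ K ∨ t = r1 ∨ t = rk := fun t => by simp [A1]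
  obtain ⟨r', hr'⟩ := hc.rk r1
  obtain ⟨c, ρ, ⟨G, k1, k2, k3⟩, k0⟩ := forest_in hc hr' n1k eqv A1 (fun q i =>
      ⟨fun s => ((hA1 q).1 i).resolve_left (fun n => n (Kcl r1 r1K q (Finset.mem_univ _) s)),
        fun e => e.elim (fun e => e ▸ eqv.refl _) (fun e => e ▸ KS r1 r1K rk rkK)⟩)
    ((hA1 _).2 (Or.inr (Or.inl rfl))) ((hA1 _).2 (Or.inr (Or.inr rfl)))
    ((hsep r1 r' hr').mono (fun t _ => Finset.mem_univ t))
  have u1 : ρ r1 ≠ r1 := k0 ▸ n1k
  have uk : ρ rk ≠ rk := by rw [← k0]; exact G.1.used' u1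
  have uK : ∀ y, ρ y ≠ y → r r1 < r y → r y < r rk → y ∉ K := fun y j o1 o2 i => by
    rcases ((hA1 y).1 (k1 y j).1).resolve_left (fun n => n i) with e | e <;> subst e <;> omega
  have key : ∀ s ∈ K, ∀ t ∈ K, ρ s = s → ρ t = t → r s < r t → c s = c t := by
    intro s sK t tK js jt o
    have a1 := m1 s sK
    have a2 := m2 t tK
    have a3 : r s ≠ r r1 := hr.ne (fun e => u1 (e ▸ js))
    have a4 : r t ≠ r rk := hr.ne (fun e => uk (e ▸ jt))
    have pk := hr.pred (p := rk) (by omega)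
    by_cases cl : ∀ y, r s < r y ∧ r y ≤ r t → r s < r (ρ y) ∧ r (ρ y) ≤ r t
    · exact even_col G.1 (hr.ivl o) cl
    push Not at cl
    obtain ⟨l, l1, l2⟩ := cl
    have ul : ρ l ≠ l := fun e => by rw [e] at l2; omega
    have lt : r l ≠ r t := hr.ne (fun e => ul (e ▸ jt))
    have lK := uK l ul (by omega) (by omega)
    have xl : Sm x l := by
      by_contra i
      have := NS l _ (k1 l ul).2 lK i s sK t tK l1.1 (by omega)
      omega
    have xu : ∀ y, ρ y ≠ y → Sm x y → y = l ∨ y = ρ l :=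
      fun y j i => k2 l y ul j (eqv.trans (eqv.symm xl) i)
    have out : ¬ (r r1 < r (ρ l) ∧ r (ρ l) < r rk) := by
      intro i
      refine ul (hr.closed G (a := r1) (b := σ.symm rk) (o := r1) (by omega) u1
        (fun y j o1 o2 => ?_) l (by omega) (by omega))
      by_cases e : Sm x y
      · rcases xu y j e with e | e
        · rw [e]; omega
        · rw [e, G.1.1 l]; omega
      · have := NS y _ (k1 y j).2 (uK y j o1 (by omega)) e r1 r1K rk rkK o1 (by omega)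
        omega
    have side : ∀ a ∈ K, ∀ b ∈ K, ¬ (r a < r l ∧ r l < r b) → ∀ y, r a < r y → r y < r b →
        ρ y = y := by
      intro a aK b bK nl y o1 o2
      have b1 := m1 a aK
      have b2 := m2 b bK
      have pb := hr.pred (p := b) (by omega)
      refine hr.closed G (a := a) (b := σ.symm b) (o := r1) (by omega) u1
        (fun y j o1 o2 => ?_) y o1 (by omega)
      have := NS y _ (k1 y j).2 (uK y j (by omega) (by omega)) (fun e => by
        rcases xu y j e with e | e <;> subst e <;> omega) a aK b bK o1 (by omega)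
      omega
    obtain ⟨t1, x1, b1, b2⟩ := hx r1 r1K s sK (by omega)
    obtain ⟨t2, x2, b3, b4⟩ := hx t tK rk rkK (by omega)
    have d1 := side r1 r1K s sK (by omega)
    have d2 := side t tK rk rkK (by omega)
    have e1 : c t1 = c s := hr.const G.1 b2.le (fun y o1 o2 => by
      by_cases e : y = s
      · rw [e]; exact js
      · have := hr.ne e
        exact d1 y (by omega) (by omega))
    have e2 : c t = c t2 := hr.const G.1 b3.le (fun y o1 o2 => d2 y o1 (by omega))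
    rw [← e1, e2]
    exact k3 t1 ((hA1 _).2 (Or.inl (fun i => Kx _ i x1))) t2
      ((hA1 _).2 (Or.inl (fun i => Kx _ i x2))) (d1 t1 b1 b2) (d2 t2 b3 b4)
      (eqv.trans (eqv.symm x1) x2)
  refine ⟨c, ρ, r1, ⟨G, fun p j => ⟨Finset.mem_univ _, (k1 p j).2⟩, k2,
    fun s _ t _ js jt e => ?_⟩, u1⟩
  by_cases i : s ∈ K
  · have i' := Kcl s i t (Finset.mem_univ _) e
    rcases lt_trichotomy (r s) (r t) with o | o | o
    · exact key s i t i' js jt o
    · rw [hr.2.1 o]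
    · exact (key t i' s i jt js o).symm
  · exact k3 s ((hA1 _).2 (Or.inl i)) t ((hA1 _).2 (Or.inl (nK s t i e))) js jt e

theorem unrooted (hc : Cyc σ) (g : α) {Lk : α → α → Prop} (eqv : Equivalence Sm)
    (hp : ∀ p, ∃ q, q ≠ p ∧ Sm p q) (hL1 : ∀ p q, Sm p q → Lk p q)
    (hL2 : ∀ g r, Rk σ g r → ∀ p q p1 p2 q1 q2, ¬ Sm p q → Sm p p1 → Sm p p2 → Sm q q1 →
      Sm q q2 → r p1 < r q1 → r q1 < r p2 → r p2 < r q2 → Lk p q ∧ Lk q p)
    (H : ∀ p q, (∃ a b, a ≠ p ∧ b ≠ p ∧ a ≠ b ∧ Sm p a ∧ Sm p b) →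
      (∃ a b, a ≠ q ∧ b ≠ q ∧ a ≠ b ∧ Sm q a ∧ Sm q b) → ¬ Sm p q →
      (∃ x, ¬ Sm x p ∧ ¬ Sm x q ∧
        ¬ Relation.ReflTransGen (fun u v => Lk u v ∧ ¬ Sm x u ∧ ¬ Sm x v) p q) ∨
      ¬ Relation.ReflTransGen
        (fun u v => Lk u v ∧ ¬ (Sm p u ∧ Sm q v) ∧ ¬ (Sm q u ∧ Sm p v)) p q) :
    ∃ c ρ p0, St σ Sm Finset.univ c ρ ∧ ρ p0 ≠ p0 := by
  have hsep : ∀ g r, Rk σ g r → Sep r Sm Finset.univ := by
    intro g r hr
    have ln : ∀ p q, Ln r Sm Finset.univ p q → Lk p q := by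
      rintro p q ⟨_, _, s | ⟨n, p1, _, p2, _, q1, _, q2, _, s1, s2, s3, s4, o1, o2, o3⟩ |
        ⟨n, p1, _, p2, _, q1, _, q2, _, s1, s2, s3, s4, o1, o2, o3⟩⟩
      exacts [hL1 p q s, (hL2 g r hr p q p1 p2 q1 q2 n s1 s2 s3 s4 o1 o2 o3).1,
        (hL2 g r hr q p p1 p2 q1 q2 n s1 s2 s3 s4 o1 o2 o3).2]
    rintro p q ⟨_, a, _, b, _, o⟩ ⟨_, a', _, b', _, o'⟩ n
    rcases H p q ⟨a, b, o⟩ ⟨a', b', o'⟩ n with ⟨x, x1, x2, x3⟩ | x3
    · exact Or.inl ⟨x, x1, x2, fun k => x3 (rt_mono k (fun _ _ i => ⟨ln _ _ i.1, i.2⟩))⟩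
    · exact Or.inr (fun k => x3 (rt_mono k (fun _ _ i => ⟨ln _ _ i.1, i.2⟩)))
  by_cases hb : ∀ p, Bg Sm Finset.univ p
  · obtain ⟨r, hr⟩ := hc.rk g
    exact all_big hc hr eqv hsep hb
  · push Not at hb
    obtain ⟨a, na⟩ := hb
    obtain ⟨b, n, s⟩ := hp a
    obtain ⟨r, hr⟩ := hc.rk a
    obtain ⟨c, ρ, st, k0⟩ := forest_in hc hr n eqv Finset.univ (fun q _ =>
      ⟨fun e => by
        by_contra j
        rw [not_or] at j
        exact na ⟨Finset.mem_univ _, q, Finset.mem_univ _, b, Finset.mem_univ _, j.1, n, j.2, e, s⟩,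
       fun e => e.elim (fun e => e ▸ eqv.refl _) (fun e => e ▸ s)⟩)
      (Finset.mem_univ _) (Finset.mem_univ _) (hsep a r hr)
    exact ⟨c, ρ, a, st, k0 ▸ n⟩

end Pool.Agent.Lib.MP_061452_co.OF
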