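import Pool.Agent.Lib.MP_061452_co.OF.Final
import Pool.Agent.Lib.MP_061452_co.OF.Unr

set_option autoImplicit false

namespace Pool.Agent.Lib.MP_061452_co.OF

open Function Relation

section

variable {α : Type} [DecidableEq α] [Fintype α] {σ : Equiv.Perm α} {g : α} {r : α → ℕ}
  {Sm : α → α → Prop}

theorem forest_loc (hc : Cyc σ) (hr : Rk σ g r) {h : α} (hg : h ≠ g) {Lk : α → α → Prop}
    (eqv : Equivalence Sm) (hroot : ∀ q, Sm g q ↔ q = g ∨ q = h) (hL1 : ∀ p q, Sm p q → Lk p q)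
    (hL2 : ∀ p q p1 p2 q1 q2, ¬ Sm p q → Sm p p1 → Sm p p2 → Sm q q1 → Sm q q2 →
      r p1 < r q1 → r q1 < r p2 → r p2 < r q2 → Lk p q ∧ Lk q p)
    (H : ∀ p q, ReflTransGen Lk g p → ReflTransGen Lk g q →
      (∃ a b, a ≠ p ∧ b ≠ p ∧ a ≠ b ∧ Sm p a ∧ Sm p b) →
      (∃ a b, a ≠ q ∧ b ≠ q ∧ a ≠ b ∧ Sm q a ∧ Sm q b) → ¬ Sm p q →
      (∃ x, ¬ Sm x p ∧ ¬ Sm x q ∧
        ¬ Relation.ReflTransGen (fun u v => Lk u v ∧ ¬ Sm x u ∧ ¬ Sm x v) p q) ∨
      ¬ Relation.ReflTransGen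
        (fun u v => Lk u v ∧ ¬ (Sm p u ∧ Sm q v) ∧ ¬ (Sm q u ∧ Sm p v)) p q) :
    ∃ c ρ, Good σ c ρ ∧ ρ g = h ∧ (∀ p, ρ p ≠ p → Sm p (ρ p)) ∧
      (∀ p q, ρ p ≠ p → ρ q ≠ q → Sm p q → q = p ∨ q = ρ p) ∧
      ∀ p q, ρ p = p → ρ q = q → Sm p q → c p = c q := by
  classical
  obtain ⟨A, hA⟩ : ∃ A : α → Prop, A = ReflTransGen Lk g := ⟨_, rfl⟩
  have Al : ∀ p q, A p → Lk p q → A q := fun p q i j => by
    rw [hA] at i ⊢; exact i.tail j
  have A0 : A g := by rw [hA]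
  rw [← hA] at H
  have As : ∀ p q, A p → Sm p q → A q := fun p q i j => Al p q i (hL1 p q j)
  let S2 : α → α → Prop := fun p q => p = q ∨ (A p ∧ Sm p q)
  have dn : ∀ p q, S2 p q → Sm p q := fun p q k => k.elim (fun e => e ▸ eqv.refl _) And.right
  have up : ∀ p q, A p → Sm p q → S2 p q := fun p q i j => Or.inr ⟨i, j⟩
  have eq2 : Equivalence S2 := ⟨fun _ => Or.inl rfl,
    fun k => k.elim (fun j => Or.inl j.symm) (fun j => Or.inr ⟨As _ _ j.1 j.2, eqv.symm j.2⟩),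
    fun k k' => k.elim (fun j => j ▸ k') (fun j => Or.inr ⟨j.1, eqv.trans j.2 (dn _ _ k')⟩)⟩
  have bA : ∀ p, Bg S2 Finset.univ p → A p := by
    rintro p ⟨_, a, _, _, _, n1, _, _, s1, _⟩
    exact (s1.resolve_left n1.symm).1
  have hsep : Sep r S2 Finset.univ := by
    have ln : ∀ p q, Ln r S2 Finset.univ p q → Lk p q := by
      intro p q k
      by_cases e : Sm p q
      · exact hL1 p q e
      obtain ⟨_, _, s | ⟨_, p1, _, p2, _, q1, _, q2, _, s1, s2, s3, s4, o1, o2, o3⟩ |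
        ⟨_, p1, _, p2, _, q1, _, q2, _, s1, s2, s3, s4, o1, o2, o3⟩⟩ := k
      exacts [absurd (dn _ _ s) e,
        (hL2 p q p1 p2 q1 q2 e (dn _ _ s1) (dn _ _ s2) (dn _ _ s3) (dn _ _ s4) o1 o2 o3).1,
        (hL2 q p p1 p2 q1 q2 (fun j => e (eqv.symm j)) (dn _ _ s1) (dn _ _ s2) (dn _ _ s3)
          (dn _ _ s4) o1 o2 o3).2]
    intro p q bp bq n
    have pA := bA p bp
    have qA := bA q bq
    obtain ⟨_, a, _, b, _, n1, n2, n3, s1, s2⟩ := bp
    obtain ⟨_, a', _, b', _, m1, m2, m3, t1, t2⟩ := bq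
    rcases H p q pA qA ⟨a, b, n1, n2, n3, dn _ _ s1, dn _ _ s2⟩
      ⟨a', b', m1, m2, m3, dn _ _ t1, dn _ _ t2⟩ (fun j => n (up _ _ pA j)) with
      ⟨x, x1, x2, x3⟩ | x3
    · refine Or.inl ⟨x, fun j => x1 (dn _ _ j), fun j => x2 (dn _ _ j), fun k => x3 ?_⟩
      have nx : ∀ u, A u → ¬ S2 x u → ¬ Sm x u :=
        fun u i j e => j (up _ _ (As _ _ i (eqv.symm e)) e)
      have key : ∀ t, R1 r S2 Finset.univ x p t →
          A t ∧ ReflTransGen (fun u v => Lk u v ∧ ¬ Sm x u ∧ ¬ Sm x v) p t := by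
        intro t k
        induction k with
        | refl => exact ⟨pA, ReflTransGen.refl⟩
        | tail _ j ih =>
          have i := Al _ _ ih.1 (ln _ _ j.1)
          exact ⟨i, ih.2.tail ⟨ln _ _ j.1, nx _ ih.1 j.2.1, nx _ i j.2.2⟩⟩
      exact (key q k).2
    · exact Or.inr (fun k => x3 (rt_mono k (fun _ _ i => ⟨ln _ _ i.1,
        fun j => i.2.1 ⟨up _ _ pA j.1, up _ _ qA j.2⟩,
        fun j => i.2.2 ⟨up _ _ qA j.1, up _ _ pA j.2⟩⟩)))
  obtain ⟨c, ρ, ⟨G, k1, k2, k3⟩, k0⟩ := forest_in hc hr hg eq2 Finset.univ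
    (fun q _ => ⟨fun e => (hroot q).1 (dn _ _ e), fun e => up _ _ A0 ((hroot q).2 e)⟩)
    (Finset.mem_univ _) (Finset.mem_univ _) hsep
  have us : ∀ y, ρ y ≠ y → A y ∧ Sm y (ρ y) := fun y j => (k1 y j).2.resolve_left j.symm
  have out : ∀ s t, ¬ A s → Sm s t → r s < r t → c s = c t := by
    intro s t n e o
    refine even_col G.1 (hr.ivl o) (fun y i => ?_)
    by_cases j : ρ y = y
    · rw [j]; exact i
    obtain ⟨yA, sy⟩ := us y j
    have ns : ¬ Sm y s := fun k => n (As _ _ yA k)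
    have a1 : r y ≠ r t := hr.ne (fun k => ns (k ▸ eqv.symm e))
    have a2 : r (ρ y) ≠ r s := hr.ne (fun k => ns (k ▸ sy))
    by_contra b
    by_cases b1 : r (ρ y) < r s
    · exact n (Al _ _ yA (hL2 y s (ρ y) y s t ns sy (eqv.refl _) (eqv.refl _) e b1 i.1
        (by omega)).1)
    · exact n (Al _ _ yA (hL2 s y s t y (ρ y) (fun k => ns (eqv.symm k)) (eqv.refl _) e
        (eqv.refl _) sy i.1 (by omega) (by omega)).2)
  refine ⟨c, ρ, G, k0, fun p j => (us p j).2,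
    fun p q jp jq s => k2 p q jp jq (up _ _ (us p jp).1 s), fun s t js jt e => ?_⟩
  by_cases i : A s
  · exact k3 s (Finset.mem_univ _) t (Finset.mem_univ _) js jt (up _ _ i e)
  · rcases lt_trichotomy (r s) (r t) with o | o | o
    · exact out s t i e o
    · rw [hr.2.1 o]
    · exact (out t s (fun j => i (As _ _ j (eqv.symm e))) (eqv.symm e) o).symm

end

theorem tree_local {V E : Type} [Fintype V] [Fintype E] {ends : E → Sym2 V}
    (hl : ∀ e : E, ¬ (ends e).IsDiag) (hc : ∀ v : V, {e : E | v ∈ ends e}.ncard = 3)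
    {S P : Set E} {x y : V} (hS : IsCircuit ends S) (hP : IsPath ends P x y)
    (hd : Disjoint P S) (hx : Touches ends S x) (hy : Touches ends S y)
    (hsep : ∀ a b : V, Relation.ReflTransGen (Link ends S P x y) x a →
      Relation.ReflTransGen (Link ends S P x y) x b →
      3 ≤ {u | Touches ends S u ∧ SameClass ends S P x y a u}.ncard →
      3 ≤ {u | Touches ends S u ∧ SameClass ends S P x y b u}.ncard →
      ¬ SameClass ends S P x y a b →
      (∃ z : V, Touches ends S z ∧ ¬ SameClass ends S P x y z a ∧ ¬ SameClass ends S P x y z b ∧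
        ¬ Relation.ReflTransGen (fun u v => Link ends S P x y u v ∧
          ¬ SameClass ends S P x y z u ∧ ¬ SameClass ends S P x y z v) a b) ∨
      ¬ Relation.ReflTransGen (fun u v => Link ends S P x y u v ∧
        ¬ (SameClass ends S P x y a u ∧ SameClass ends S P x y b v) ∧
        ¬ (SameClass ends S P x y b u ∧ SameClass ends S P x y a v)) a b) :
    ∃ F : Set E, P ⊆ F ∧ F ≠ S ∧ IsCircuit ends F ∧ IsCircuit ends (symmDiff S F) ∧
      BridgesAttach ends S F := by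
  classical
  obtain ⟨α, _, σ, g, r0, v, ε, e1, e2, e3, e4, e5, hr0⟩ := exists_enum hl hS hx
  have h : Enum ends S σ v ε := ⟨e2, e3, e4, e5⟩
  obtain ⟨b, rfl⟩ := h.touches.1 hy
  subst e1
  have hg : b ≠ g := fun e => hP.1 (by rw [e])
  choose t w ht using fun p => exists_third hc hS (h.touches.2 ⟨p, rfl⟩)
  have eqv := same_equiv h ht (X := S ∪ P) Set.subset_union_left
  have cyc := cyc_of hr0
  obtain ⟨r, hr⟩ := cyc.rk g
  have onS : ∀ p, Touches ends S (v p) := fun p => h.touches.2 ⟨p, rfl⟩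
  have cl := fin_class (P := P) (g := g) (b := b) h ht
  have rt : ∀ p q, (p = g ∨ p = b) → Same ends (S ∪ P) t w p q → q = g ∨ q = b :=
    fun p q => fin_root hc hS h ht hP hd
  have eq2 : Equivalence (fun p q => SameClass ends S P (v g) (v b) (v p) (v q)) := by
    refine ⟨fun p => Or.inl rfl, fun {p q} k => ?_, fun {p q s} k k' => ?_⟩
    · rw [cl] at k ⊢
      exact k.imp eqv.symm And.symm
    · rw [cl] at k k' ⊢
      rcases k with k | k <;> rcases k' with k' | k'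
      · exact Or.inl (eqv.trans k k')
      · exact Or.inr ⟨rt _ _ k'.1 (eqv.symm k), k'.2⟩
      · exact Or.inr ⟨k.1, rt _ _ k.2 k'⟩
      · exact Or.inr ⟨k.1, k'.2⟩
  have big : ∀ p, (∃ a1 a2, a1 ≠ p ∧ a2 ≠ p ∧ a1 ≠ a2 ∧
      SameClass ends S P (v g) (v b) (v p) (v a1) ∧ SameClass ends S P (v g) (v b) (v p) (v a2)) →
      3 ≤ {u | Touches ends S u ∧ SameClass ends S P (v g) (v b) (v p) u}.ncard := by
    rintro p ⟨a1, a2, n1, n2, n3, s1, s2⟩
    exact three_le_ncard (a := v p) (b := v a1) (d := v a2) ⟨onS p, Or.inl rfl⟩ ⟨onS a1, s1⟩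
      ⟨onS a2, s2⟩ (fun k => n1 (h.1 k).symm) (fun k => n2 (h.1 k).symm) (fun k => n3 (h.1 k))
  obtain ⟨c, ρ, hG, k0, k1, k2, k3⟩ := forest_loc cyc hr hg
    (Lk := fun p q => Link ends S P (v g) (v b) (v p) (v q)) eq2
    (fun q => by
      rw [cl]
      exact ⟨fun k => k.elim (rt _ _ (Or.inl rfl)) And.right, fun k => Or.inr ⟨Or.inl rfl, k⟩⟩)
    (fun p q k => ⟨onS p, onS q, Or.inl k⟩)
    (fun p q p1 p2 q1 q2 _ s1 s2 s3 s4 l1 l2 l3 =>
      ⟨⟨onS p, onS q, Or.inr ⟨_, _, _, _, onS p1, onS p2, onS q1, onS q2, s1, s2, s3, s4,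
          fin_apart h hr ⟨l1, l2⟩ (by omega)⟩⟩,
        ⟨onS q, onS p, Or.inr ⟨_, _, _, _, onS q1, onS q2, onS p2, onS p1, s3, s4, s2, s1,
          fin_apart h hr ⟨l2, l3⟩ (by omega)⟩⟩⟩)
    (fun p q ap aq bp bq n => by
      rcases hsep _ _ (ap.lift v (fun _ _ j => j)) (aq.lift v (fun _ _ j => j)) (big p bp)
        (big q bq) n with ⟨z, z0, z1, z2, z3⟩ | z
      · obtain ⟨s, rfl⟩ := h.touches.1 z0
        exact Or.inl ⟨s, z1, z2, fun k => z3 (k.lift v (fun _ _ j => j))⟩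
      · exact Or.inr (fun k => z (k.lift v (fun _ _ j => j))))
  have ug : ρ g ≠ g := by rw [k0]; exact hg
  obtain ⟨g', hv⟩ := hG.valid ug
  have k0' : ρ b = g := by rw [← k0, hG.1.1 g]
  refine realise (Root := fun p => p = g ∨ p = b) (p0 := g) hl hc hS h ht hv hd ?_ ?_
    (Or.inr ⟨g, Or.inl rfl⟩)
    (fun p hp n => ((cl _ _).1 (k1 p hp)).resolve_right (fun k => n k.1))
    (fun p q hp hq _ _ s => k2 p q hp hq ((cl _ _).2 (Or.inl s)))
    (fun p q hp hq s => k3 p q hp hq ((cl _ _).2 (Or.inl s))) ug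
  · rintro p (rfl | rfl)
    · rw [k0]; exact ⟨hg, Or.inr rfl, hP⟩
    · rw [k0']; exact ⟨hg.symm, Or.inl rfl, hP.symm⟩
  · rintro p q (rfl | rfl) (rfl | rfl)
    exacts [Or.inl rfl, Or.inr k0.symm, Or.inr k0'.symm, Or.inl rfl]

end Pool.Agent.Lib.MP_061452_co.OF
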