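import Pool.Agent.Lib.MP_061452_co.OF.Sel

set_option autoImplicit false

namespace Pool.Agent.Lib.MP_061452_co.OF

open Function Relation

variable {α : Type} [DecidableEq α] [Fintype α] {σ : Equiv.Perm α} {g : α} {r : α → ℕ}
  {Sm : α → α → Prop}

theorem Rk.glue (h : Rk σ g r) {c1 c2 : α → Bool} {ρ1 ρ2 : α → α} (G1 : Good σ c1 ρ1)
    (G2 : Good σ c2 ρ2) {a b l : α} (l1 : r a < r l ∧ r l ≤ r b)
    (l2 : ¬ (r a < r (ρ1 l) ∧ r (ρ1 l) ≤ r b)) (l3 : ρ2 l = ρ1 l)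
    (cl1 : ∀ t, ρ1 t ≠ t → t ≠ l → r a < r t → r t ≤ r b → r a < r (ρ1 t) ∧ r (ρ1 t) ≤ r b)
    (cl2 : ∀ t, ρ2 t ≠ t → t ≠ l → r a < r t → r t ≤ r b → r a < r (ρ2 t) ∧ r (ρ2 t) ≤ r b)
    (ea : c1 a = c2 a) :
    ∃ c ρ, Good σ c ρ ∧ (∀ t, r a < r t ∧ r t ≤ r b → c t = c2 t ∧ ρ t = ρ2 t) ∧
      ∀ t, ¬ (r a < r t ∧ r t ≤ r b) → c t = c1 t ∧ ρ t = ρ1 t := by
  refine ⟨_, _, OF.glue G1 G2 (h.ivl (a := a) (b := b) (by omega)) l1 l2 l3 (fun t k e => ?_)
    (fun t k e => ?_) ea, fun t k => ⟨if_pos k, if_pos k⟩, fun t k => ⟨if_neg k, if_neg k⟩⟩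
  · by_cases j : ρ1 t = t
    · rw [j]; exact k
    · exact cl1 t j e k.1 k.2
  · by_cases j : ρ2 t = t
    · rw [j]; exact k
    · exact cl2 t j e k.1 k.2

theorem one_on (hc : Cyc σ) (eqv : Equivalence Sm) (K : Finset α) {a b : α} (hab : b ≠ a)
    (hK : ∀ p q, Bg Sm K p → Bg Sm K q → Sm p q) (e z : Bool) :
    ∃ c ρ, Good σ c ρ ∧ ρ a = b ∧
      (∀ p, ρ p ≠ p → p = a ∨ p = b ∨ (p ∈ K ∧ ρ p ∈ K ∧ Sm p (ρ p))) ∧
      (∀ p q, ρ p ≠ p → ρ q ≠ q → ¬ (p = a ∨ p = b) → ¬ (q = a ∨ q = b) → Sm p q →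
        q = p ∨ q = ρ p) ∧ (∀ p ∈ K, ∀ q ∈ K, ρ p = p → ρ q = q → Sm p q → c p = c q) ∧
      c a = e ∧ (a ∉ K → b ∉ K → ∀ p q, Bg Sm K p → Bg Sm K q → ρ p = p → ρ q ≠ q → c p = z) := by
  let S2 : α → α → Prop := fun p q => p = q ∨ (p ∈ K ∧ q ∈ K ∧ Sm p q)
  have eq2 : Equivalence S2 := ⟨fun _ => Or.inl rfl,
    fun k => k.elim (fun j => Or.inl j.symm) (fun j => Or.inr ⟨j.2.1, j.1, eqv.symm j.2.2⟩),
    fun k k' => k.elim (fun j => j ▸ k') (fun j => k'.elim (fun j' => j' ▸ Or.inr j)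
      (fun j' => Or.inr ⟨j.1, j'.2.1, eqv.trans j.2.2 j'.2.2⟩))⟩
  have bg : ∀ p, Big a b S2 p → Bg Sm K p := by
    rintro p ⟨_, _, q, t, _, _, _, _, n1, n2, n3, s1, s2⟩
    have j1 := s1.resolve_left n1.symm
    have j2 := s2.resolve_left n2.symm
    exact ⟨j1.1, q, j1.2.1, t, j2.2.1, n1, n2, n3, j1.2.2, j2.2.2⟩
  obtain ⟨c, ρ, G, k0, k1, k2, k3, k4, k5⟩ := one_block hc hab eq2
    (fun p q bp bq => Or.inr ⟨(bg p bp).1, (bg q bq).1, hK p q (bg p bp) (bg q bq)⟩) e z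
  have k1' : ∀ p, ρ p ≠ p → ¬ (p = a ∨ p = b) → p ∈ K ∧ ρ p ∈ K ∧ Sm p (ρ p) :=
    fun p hp n => (k1 p hp n).resolve_left hp.symm
  refine ⟨c, ρ, G, k0, fun p hp => ?_, fun p q hp hq n n' s => k2 p q hp hq n n'
    (Or.inr ⟨(k1' p hp n).1, (k1' q hq n').1, s⟩),
    fun p m q m' hp hq s => k3 p q hp hq (Or.inr ⟨m, m', s⟩), k4, fun na nb p q bp bq => ?_⟩
  · by_cases n : p = a ∨ p = b
    · exact n.imp_right Or.inl
    · exact Or.inr (Or.inr (k1' p hp n))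
  · have gb : ∀ p, Bg Sm K p → Big a b S2 p := by
      rintro p ⟨m, q, m1, t, m2, n1, n2, n3, s1, s2⟩
      exact ⟨fun j => na (j ▸ m), fun j => nb (j ▸ m), q, t, fun j => na (j ▸ m1),
        fun j => nb (j ▸ m1), fun j => na (j ▸ m2), fun j => nb (j ▸ m2), n1, n2, n3,
        Or.inr ⟨m, m1, s1⟩, Or.inr ⟨m, m2, s2⟩⟩
    exact k5 p q (gb p bp) (gb q bq)

/-- A valid state that respects the classes inside `A`. -/
def St (σ : Equiv.Perm α) (Sm : α → α → Prop) (A : Finset α) (c : α → Bool) (ρ : α → α) : Prop :=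
  Good σ c ρ ∧ (∀ p, ρ p ≠ p → p ∈ A ∧ Sm p (ρ p)) ∧
    (∀ p q, ρ p ≠ p → ρ q ≠ q → Sm p q → q = p ∨ q = ρ p) ∧
    ∀ p ∈ A, ∀ q ∈ A, ρ p = p → ρ q = q → Sm p q → c p = c q

theorem step (hc : Cyc σ) (hr : Rk σ g r) (eqv : Equivalence Sm) {A K A1 : Finset α}
    {x c0 m M r1 rk : α} (b0 : Bg Sm A c0) (c0K : c0 ∈ K) (KA : ∀ k ∈ K, k ∈ A) (gK : g ∉ K)
    (Kcl : ∀ k ∈ K, ∀ t ∈ A, Sm k t → t ∈ K) (Kx : ∀ k ∈ K, ¬ Sm x k)
    (Kbig : ∀ k ∈ K, Bg Sm A k → Sm c0 k)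
    (conn : ∀ lo hi : ℕ, (∀ k1 ∈ K, ∀ k2 ∈ K, Sm k1 k2 → lo < r k1 → r k1 < hi →
      lo < r k2 ∧ r k2 < hi) → ∀ k ∈ K, ∀ k' ∈ K, lo < r k → r k < hi → lo < r k' ∧ r k' < hi)
    (NL : ∀ y ∈ A, y ∉ K → ∀ k ∈ K, Ln r Sm A y k → Sm x y ∧ (Bg Sm A y → Sm c0 k))
    (mK : m ∈ K) (MK : M ∈ K) (bd : ∀ k ∈ K, r m ≤ r k ∧ r k ≤ r M)
    (r1K : r1 ∈ K ∧ Sm c0 r1) (rkK : rk ∈ K ∧ Sm c0 rk)
    (bc : ∀ k ∈ K, Sm c0 k → r r1 ≤ r k ∧ r k ≤ r rk)
    (hA1 : ∀ t, t ∈ A1 ↔ (t ∈ A ∧ t ∉ K) ∨ t = r1 ∨ t = rk)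
    {c1 : α → Bool} {ρ1 : α → α} (s1 : St σ Sm A1 c1 ρ1) (ug : ρ1 g ≠ g) :
    ∃ c ρ, St σ Sm A c ρ ∧ ρ g = ρ1 g := by
  obtain ⟨G1, u1, w1, v1⟩ := s1
  have ne : ∀ y, y ∉ K → ∀ k ∈ K, r y ≠ r k := fun y n k j => hr.ne (fun e => n (e ▸ j))
  have pos : ∀ k ∈ K, r (σ.symm k) + 1 = r k := fun k j => hr.pred (by
    have := ne g gK k j
    have := hr.1
    omega)
  have A1A : ∀ t ∈ A1, t ∈ A := fun t j => by
    rcases (hA1 t).1 j with i | i | i
    exacts [i.1, i ▸ KA _ r1K.1, i ▸ KA _ rkK.1]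
  have inA1 : ∀ t ∈ A, t ∉ K → t ∈ A1 := fun t i j => (hA1 t).2 (Or.inl ⟨i, j⟩)
  have uA : ∀ t, ρ1 t ≠ t → t ∈ A ∧ ρ1 t ∈ A :=
    fun t j => ⟨A1A _ (u1 t j).1, A1A _ (u1 _ (G1.1.used' j)).1⟩
  have uK : ∀ t, ρ1 t ≠ t → t ∈ K → ρ1 t ∈ K ∧ (t = r1 ∨ t = rk) := fun t j i =>
    ⟨Kcl t i _ (uA t j).2 (u1 t j).2, ((hA1 t).1 (u1 t j).1).resolve_left (fun e => e.2 i)⟩
  have nK : ∀ s t, s ∈ A → s ∉ K → Sm s t → t ∉ K :=
    fun s t i j e k => j (Kcl t k s i (eqv.symm e))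
  have NS1 : ∀ y1 ∈ A, ∀ y2 ∈ A, Sm y1 y2 → y1 ∉ K → ¬ Sm x y1 → ∀ k ∈ K,
      r y1 < r k → r k < r y2 → r y1 < r m ∧ r M < r y2 := by
    intro y1 m1 y2 m2 s n nx k j o1 o2
    have := conn (r y1) (r y2) (fun k1 j1 k2 j2 s' a1 a2 => by
      by_contra a3
      exact nx (NL y1 m1 n k1 j1 (ln_of_sep eqv hr.2.1 m1 m2 (KA _ j1) (KA _ j2) s s'
        (fun i => nK y1 k1 m1 n i j1) a1 a2 a3)).1) k j
    exact ⟨(this m mK o1 o2).1, (this M MK o1 o2).2⟩
  have NS : ∀ y1 ∈ A, ∀ y2 ∈ A, Sm y1 y2 → y1 ∉ K → ¬ Sm x y1 → ∀ k ∈ K,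
      (r y1 < r k → r k < r y2 → r y1 < r m ∧ r M < r y2) ∧
      (r y2 < r k → r k < r y1 → r y2 < r m ∧ r M < r y1) ∧ r y1 ≠ r k ∧ r y2 ≠ r k :=
    fun y1 m1 y2 m2 s n nx k j => ⟨NS1 y1 m1 y2 m2 s n nx k j,
      NS1 y2 m2 y1 m1 (eqv.symm s) (nK y1 y2 m1 n s) (fun i => nx (eqv.trans i (eqv.symm s))) k j,
      ne y1 n k j, ne y2 (nK y1 y2 m1 n s) k j⟩
  obtain ⟨m0, hm0⟩ : ∃ m0, r m0 + 1 = r m := ⟨_, pos m mK⟩
  have g0 := hr.1
  have mM := bd m mK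
  have clI : ∀ t, ρ1 t ≠ t → ¬ Sm x t → r m0 < r t → r t ≤ r M →
      r m0 < r (ρ1 t) ∧ r (ρ1 t) ≤ r M := by
    intro t j nx o1 o2
    by_cases i : t ∈ K
    · have := bd _ (uK t j i).1; omega
    · have a1 := NS t (uA t j).1 _ (uA t j).2 (u1 t j).2 i nx m mK
      have a2 := NS t (uA t j).1 _ (uA t j).2 (u1 t j).2 i nx M MK
      omega
  by_cases cα : ∀ t, ρ1 t ≠ t → r m0 < r t → r t ≤ r M → r m0 < r (ρ1 t) ∧ r (ρ1 t) ≤ r M
  · have un := hr.closed G1 (o := g) (by omega) ug cα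
    refine ⟨c1, ρ1, ⟨G1, fun p hp => ⟨(uA p hp).1, (u1 p hp).2⟩, w1,
      fun p i q j hp hq s => ?_⟩, rfl⟩
    by_cases e : p ∈ K
    · have a1 := bd p e
      have a2 := bd q (Kcl p e q j s)
      rw [← hr.const G1.1 (a := m0) (b := p) (by omega) (fun t o1 o2 => un t o1 (by omega)),
        ← hr.const G1.1 (a := m0) (b := q) (by omega) (fun t o1 o2 => un t o1 (by omega))]
    · exact v1 p (inA1 p i e) q (inA1 q j (nK p q i e s)) hp hq s
  push Not at cα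
  obtain ⟨l, ul, l1, l2, l3⟩ := cα
  obtain ⟨l', hl'⟩ : ∃ l', ρ1 l = l' := ⟨_, rfl⟩
  have xl : Sm x l := by
    by_contra i
    have := clI l ul i l1 l2
    omega
  have lK : l ∉ K := fun i => Kx l i xl
  have lA : l ∈ A ∧ l' ∈ A := hl' ▸ uA l ul
  have xl' : Sm x l' := eqv.trans xl (hl' ▸ (u1 l ul).2)
  have lK' : l' ∉ K := fun i => Kx l' i xl'
  rw [hl'] at l3
  have ll : l' ≠ l := hl' ▸ ul
  have xu : ∀ t, ρ1 t ≠ t → Sm x t → t = l ∨ t = l' :=
    fun t j i => hl' ▸ w1 l t ul j (eqv.trans (eqv.symm xl) i)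
  have gap : ∀ t, t ∉ K → r m0 < r t → r t ≤ r M → ∃ p ∈ K, ∃ q ∈ K, r p < r t ∧ r t < r q ∧
      ∀ k ∈ K, r k ≤ r p ∨ r q ≤ r k := by
    intro t n o1 o2
    have a1 := ne t n m mK
    have a2 := ne t n M MK
    obtain ⟨p, p1, p2⟩ := Finset.exists_max_image (K.filter (fun k => r k < r t)) r
      ⟨m, Finset.mem_filter.2 ⟨mK, by omega⟩⟩
    obtain ⟨q, q1, q2⟩ := Finset.exists_min_image (K.filter (fun k => r t < r k)) r
      ⟨M, Finset.mem_filter.2 ⟨MK, by omega⟩⟩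
    rw [Finset.mem_filter] at p1 q1
    refine ⟨p, p1.1, q, q1.1, p1.2, q1.2, fun k j => ?_⟩
    have a3 := ne t n k j
    by_cases e : r k < r t
    · exact Or.inl (p2 k (Finset.mem_filter.2 ⟨j, e⟩))
    · exact Or.inr (q2 k (Finset.mem_filter.2 ⟨j, by omega⟩))
  have gapcl : ∀ p ∈ K, ∀ q ∈ K, (∀ k ∈ K, r k ≤ r p ∨ r q ≤ r k) → ∀ s, ρ1 s ≠ s → s ≠ l →
      r p < r s → r s < r q → r p < r (ρ1 s) ∧ r (ρ1 s) < r q := by
    intro p i q j hg s us sl o1 o2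
    have a1 := bd p i
    have a2 := bd q j
    have n : s ∉ K := fun e => by have := hg s e; omega
    have nx : ¬ Sm x s := fun e => by
      have := (xu s us e).resolve_left sl
      subst this
      omega
    have a3 := NS s (uA s us).1 _ (uA s us).2 (u1 s us).2 n nx p i
    have a4 := NS s (uA s us).1 _ (uA s us).2 (u1 s us).2 n nx q j
    omega
  obtain ⟨p, pK, q, qK, pl, lq, pq⟩ := gap l lK l1 l2
  have bp := bd p pK
  have bq := bd q qK
  obtain ⟨q0, hq0⟩ : ∃ q0, r q0 + 1 = r q := ⟨_, pos q qK⟩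
  have U : ∀ t, r m0 < r t → r t ≤ r M → ¬ (r p < r t ∧ r t < r q) → t ≠ r1 → t ≠ rk →
      ρ1 t = t := by
    intro t o1 o2 o3 n1 n2
    by_cases i : t ∈ K
    · by_contra j
      exact (uK t j i).2.elim n1 n2
    obtain ⟨p', i', q', j', a1, a2, a3⟩ := gap t i o1 o2
    have a4 := pos q' j'
    have a5 := a3 p pK
    have a6 := a3 q qK
    have a7 := pq p' i'
    have a8 := pq q' j'
    refine hr.closed G1 (a := p') (b := σ.symm q') (o := g) (by omega) ug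
      (fun s us b1 b2 => ?_) t a1 (by omega)
    have := gapcl p' i' q' j' a3 s us (fun e => by subst e; omega) b1 (by omega)
    omega
  obtain ⟨z, hz⟩ : ∃ z, ∀ t ∈ A, Sm x t → t ≠ l → t ≠ l' → ρ1 t = t ∧ c1 t = z := by
    have un : ∀ t, Sm x t → t ≠ l → t ≠ l' → ρ1 t = t := fun t i n1 n2 => by
      by_contra j
      exact (xu t j i).elim n1 n2
    by_cases e : ∃ t ∈ A, Sm x t ∧ t ≠ l ∧ t ≠ l'
    · obtain ⟨t0, a1, a2, a3, a4⟩ := e
      exact ⟨c1 t0, fun t b1 b2 b3 b4 => ⟨un t b2 b3 b4,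
        v1 t (inA1 t b1 (fun i => Kx t i b2)) t0 (inA1 t0 a1 (fun i => Kx t0 i a2))
          (un t b2 b3 b4) (un t0 a2 a3 a4) (eqv.trans (eqv.symm b2) a2)⟩⟩
    · exact ⟨true, fun t b1 b2 b3 b4 => absurd ⟨t, b1, b2, b3, b4⟩ e⟩
  have bgA : ∀ k, Bg Sm K k → Bg Sm A k := by
    rintro k ⟨i, a, i1, b, i2, o⟩
    exact ⟨KA _ i, a, KA _ i1, b, KA _ i2, o⟩
  have bgK : ∀ k ∈ K, Sm c0 k → Bg Sm K k := by
    intro k i s
    obtain ⟨_, a, i1, b, i2, n1, n2, n3, s1, s2⟩ := b0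
    exact Bg.of_rel eqv ⟨c0K, a, Kcl c0 c0K a i1 s1, b, Kcl c0 c0K b i2 s2, n1, n2, n3, s1, s2⟩ i s
  obtain ⟨c2, ρ2, G2, k0, k1, k2, k3, k4, k5⟩ := one_on hc eqv K (a := l') (b := l) ll.symm
    (fun a b i j => eqv.trans (eqv.symm (Kbig a i.1 (bgA a i))) (Kbig b j.1 (bgA b j))) (c1 m0) z
  have k0' : ρ2 l = l' := by rw [← k0, G2.1.1 l']
  have ul2 : ρ2 l ≠ l := k0' ▸ ll
  have k1' : ∀ t, ρ2 t ≠ t → r t ≠ r l' → r t ≠ r l → t ∈ K ∧ ρ2 t ∈ K ∧ Sm t (ρ2 t) :=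
    fun t j n1 n2 => ((k1 t j).resolve_left (fun e => n1 (e ▸ rfl))).resolve_left
      (fun e => n2 (e ▸ rfl))
  have cl2 : ∀ t, ρ2 t ≠ t → t ≠ l → r m0 < r t → r t ≤ r M →
      r m0 < r (ρ2 t) ∧ r (ρ2 t) ≤ r M := by
    intro t j n o1 o2
    have := bd _ (k1' t j (by omega) (hr.ne n)).2.1
    omega
  have odd2 : c2 m0 ≠ c2 M := hr.odd G2.1 (l := l) ⟨l1, l2⟩ (by rw [k0']; omega) cl2
  have e2 : c1 m0 = c2 m0 := by
    by_cases e : r l' ≤ r m0
    · rw [← k4]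
      refine hr.const G2.1 e (fun t o1 o2 => ?_)
      by_contra j
      have := bd _ (k1' t j (by omega) (by omega)).1
      omega
    · have a1 := hr.pred (p := l') (by omega)
      have a2 := hr.const G2.1 (a := M) (b := σ.symm l') (by omega) (fun t o1 o2 => by
        by_contra j
        have := bd _ (k1' t j (by omega) (by omega)).1
        omega)
      have a3 := G2.1.used (p := l') (by rw [k0]; exact ll.symm)
      rw [← a2, k4] at a3
      revert a3 odd2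
      cases c2 M <;> cases c1 m0 <;> cases c2 m0 <;> simp
  obtain ⟨c3, ρ3, G3, i3, o3⟩ := hr.glue G1 G2 (a := m0) (b := M) (l := l) ⟨l1, l2⟩
    (by rw [hl']; omega) (k0'.trans hl'.symm) (fun t j n o1 o2 => clI t j (fun e => by
      have := (xu t j e).resolve_left n
      subst this
      omega) o1 o2) cl2 e2
  have clG : ∀ t, ρ1 t ≠ t → t ≠ l → r p < r t → r t ≤ r q0 →
      r p < r (ρ1 t) ∧ r (ρ1 t) ≤ r q0 := by
    intro t j n o1 o2
    have := gapcl p pK q qK pq t j n o1 (by omega)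
    omega
  have un2 : ∀ t, t ≠ l → r p < r t → r t < r q → ρ2 t = t := by
    intro t n o1 o2
    by_contra j
    have := pq _ (k1' t j (by omega) (hr.ne n)).1
    omega
  obtain ⟨β, hβ⟩ : ∃ β, xor (c1 p) β = c2 p := ⟨xor (c1 p) (c2 p), by simp⟩
  obtain ⟨c4, ρ4, G4, i4, o4⟩ := hr.glue G3 (G1.flip β) (a := p) (b := q0) (l := l)
    ⟨pl, by omega⟩ (by rw [(i3 l ⟨l1, l2⟩).2, k0']; omega)
    (by rw [(i3 l ⟨l1, l2⟩).2, k0', hl']) (fun t j n o1 o2 => by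
      rw [(i3 t (by omega)).2, un2 t n o1 (by omega)] at j
      exact absurd rfl j) clG (by rw [(i3 p (by omega)).1, hβ])
  have T1 : ∀ t, r p < r t ∧ r t < r q → c4 t = xor (c1 t) β ∧ ρ4 t = ρ1 t :=
    fun t o => i4 t (by omega)
  have T2 : ∀ t, r m0 < r t ∧ r t ≤ r M → ¬ (r p < r t ∧ r t < r q) →
      c4 t = c2 t ∧ ρ4 t = ρ2 t := fun t o o' => by
    rw [(o4 t (by omega)).1, (o4 t (by omega)).2]; exact i3 t o
  have T3 : ∀ t, ¬ (r m0 < r t ∧ r t ≤ r M) → c4 t = c1 t ∧ ρ4 t = ρ1 t := fun t o => by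
    rw [(o4 t (by omega)).1, (o4 t (by omega)).2]; exact o3 t o
  have TK : ∀ t ∈ K, c4 t = c2 t ∧ ρ4 t = ρ2 t := fun t i => by
    have a1 := bd t i
    have a2 := pq t i
    exact T2 t (by omega) (by omega)
  have TN : ∀ t, t ∉ K → ρ4 t ≠ t → ρ4 t = ρ1 t := by
    intro t n j
    by_cases o : r m0 < r t ∧ r t ≤ r M
    · by_cases o' : r p < r t ∧ r t < r q
      · exact (T1 t o').2
      · rw [(T2 t o o').2] at j
        exact absurd (k1' t j (by omega) (by omega)).1 n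
    · exact (T3 t o).2
  have rest : ∀ t ∈ A, Sm x t → t ≠ l → t ≠ l' → c4 t = z := by
    intro t0 t0A t0x t0l t0l'
    have bx : ∀ y ∈ A, Sm x y → Bg Sm A y := fun y i s => Bg.of_rel eqv
      ⟨lA.1, l', lA.2, t0, t0A, ll, t0l, t0l'.symm, eqv.trans (eqv.symm xl) xl',
        eqv.trans (eqv.symm xl) t0x⟩ i (eqv.trans (eqv.symm xl) s)
    have X2 : ∀ t ∈ A, Sm x t → ∀ a ∈ K, ∀ b ∈ K, Sm a b → r a < r t → r t < r b → Sm c0 a := by
      intro t i s a ia b ib sab o1 o2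
      have a1 := bd a ia
      have a2 := bd b ib
      by_cases e : r l' ≤ r m0
      · exact (NL l' lA.2 lK' a ia (ln_of_sep eqv hr.2.1 lA.2 i (KA _ ia) (KA _ ib)
          (eqv.trans (eqv.symm xl') s) sab (fun j => Kx a ia (eqv.trans xl' j)) (by omega) o1
          (by omega))).2 (bx _ lA.2 xl')
      · exact eqv.trans ((NL t i (fun j => Kx t j s) b ib (ln_of_sep eqv hr.2.1 i lA.2 (KA _ ib)
          (KA _ ia) (eqv.trans (eqv.symm s) xl') (eqv.symm sab)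
          (fun j => Kx b ib (eqv.trans s j)) o2 (by omega) (by omega))).2 (bx _ i s))
          (eqv.symm sab)
    have X1 : ∀ t ∈ A, Sm x t → r m0 < r t → r t ≤ r M → r r1 < r t ∧ r t < r rk := by
      intro t i s o1 o2
      have n : t ∉ K := fun j => Kx t j s
      by_contra e
      have a1 := ne t n m mK
      have := conn (r m0) (r t) (fun a ia b ib sab b1 b2 => by
        have b3 := bd b ib
        have b4 := ne t n b ib
        refine ⟨by omega, ?_⟩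
        by_contra b5
        have b6 := X2 t i s a ia b ib sab b2 (by omega)
        have b7 := bc a ia b6
        have b8 := bc b ib (eqv.trans b6 sab)
        omega) m mK M MK (by omega) (by omega)
      omega
    have xl1 := X1 l lA.1 xl l1 l2
    have f1 := pq r1 r1K.1
    have f2 := pq rk rkK.1
    have f3 := bd r1 r1K.1
    have f4 := bd rk rkK.1
    have f5 := pos r1 r1K.1
    have f6 := pos rk rkK.1
    have odd1 : c1 p ≠ c1 q0 := hr.odd G1.1 (l := l) ⟨pl, by omega⟩ (by rw [hl']; omega) clG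
    have cL : ∀ t, r r1 ≤ r t → r t ≤ r p → c1 r1 = c1 t := fun t o1 o2 =>
      hr.const G1.1 o1 (fun s a1 a2 => U s (by omega) (by omega) (by omega)
        (fun e => by subst e; omega) (fun e => by subst e; omega))
    have cR : ∀ t, r q0 ≤ r t → r t < r rk → c1 q0 = c1 t := fun t o1 o2 =>
      hr.const G1.1 o1 (fun s a1 a2 => U s (by omega) (by omega) (by omega)
        (fun e => by subst e; omega) (fun e => by subst e; omega))
    have b2 : ρ1 r1 ≠ r1 := by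
      intro e
      have e' : ρ1 rk = rk := by
        by_contra j
        have j' := G1.1.used' j
        rcases (uK _ j' (uK _ j rkK.1).1).2 with i | i
        · exact j' (by rw [i, e])
        · exact j i
      have a1 := v1 r1 ((hA1 _).2 (Or.inr (Or.inl rfl))) rk ((hA1 _).2 (Or.inr (Or.inr rfl))) e e'
        (eqv.trans (eqv.symm r1K.2) rkK.2)
      exact odd1 ((cL p (by omega) le_rfl).symm.trans (a1.trans (((G1.1.2 rk).1 e').symm.trans
        (cR _ (by omega) (by omega)).symm)))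
    have b3 : c1 m0 ≠ c1 r1 := by
      rw [hr.const G1.1 (a := m0) (b := σ.symm r1) (by omega) (fun s a1 a2 => U s a1 (by omega)
        (by omega) (fun e => by subst e; omega) (fun e => by subst e; omega))]
      exact G1.1.used b2
    have cut : ∀ t ∈ A, Sm x t → ∀ s, ρ2 s ≠ s → r s ≠ r l' → r s ≠ r l → ¬ Sm c0 s →
        (r s < r t → r (ρ2 s) < r t) ∧ (r t < r s → r t < r (ρ2 s)) ∧ r m ≤ r (ρ2 s) ∧
          r (ρ2 s) ≤ r M := by
      intro t i s' s j n1 n2 n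
      obtain ⟨a1, a2, a3⟩ := k1' s j n1 n2
      have a4 := ne t (fun e => Kx t e s') _ a2
      refine ⟨fun o => ?_, fun o => ?_, bd _ a2⟩
      · by_contra o'
        exact n (X2 t i s' s a1 _ a2 a3 o (by omega))
      · by_contra o'
        exact n (eqv.trans (X2 t i s' _ a2 s a1 (eqv.symm a3) (by omega) o) (eqv.symm a3))
    have pl0 := hr.pred (p := l) (by omega)
    obtain ⟨u, uK2, uc, uu, u2, u3⟩ :
        ∃ u ∈ K, Sm c0 u ∧ ρ2 u ≠ u ∧ r u < r l ∧ r l < r (ρ2 u) := by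
      by_contra hn
      have a1 := hr.closed G2 (a := m0) (b := σ.symm l) (o := l) (by omega) ul2 (fun s j o1 o2 => by
        by_cases e : Sm c0 s
        · obtain ⟨a1, a2, a3⟩ := k1' s j (by omega) (by omega)
          have a4 := bd _ a2
          have a5 := ne l lK _ a2
          have a6 : ¬ r l < r (ρ2 s) := fun i => hn ⟨s, a1, e, j, by omega, i⟩
          omega
        · have := cut l lA.1 xl s j (by omega) (by omega) e
          omega)
      have a2 := hr.closed G2 (a := l) (b := M) (o := l) (by omega) ul2 (fun s j o1 o2 => by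
        by_cases e : Sm c0 s
        · obtain ⟨a1, a2, a3⟩ := k1' s j (by omega) (by omega)
          have a4 := bd _ a2
          have a5 := ne l lK _ a2
          have a6 : ¬ r (ρ2 s) < r l := fun i => hn ⟨ρ2 s, a2, eqv.trans e a3, G2.1.used' j, i,
            by rw [G2.1.1 s]; exact o1⟩
          omega
        · have := cut l lA.1 xl s j (by omega) (by omega) e
          omega)
      have a3 := k3 r1 r1K.1 rk rkK.1 (a1 _ (by omega) (by omega)) (a2 _ (by omega) (by omega))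
        (eqv.trans (eqv.symm r1K.2) rkK.2)
      refine G2.1.used ul2 ?_
      rw [← hr.const G2.1 (a := r1) (b := σ.symm l) (by omega)
        (fun s o1 o2 => a1 s (by omega) o2), a3]
      exact (hr.const G2.1 (a := l) (b := rk) (by omega) (fun s o1 o2 => a2 s o1 (by omega))).symm
    have uw := k1' u uu (ne l' lK' u uK2).symm (by omega)
    have f7 := bd u uK2
    have f8 := bd _ uw.2.1
    have cu : ∀ s, ρ2 s ≠ s → r s ≠ r l' → r s ≠ r l → Sm c0 s → s = u ∨ s = ρ2 u := by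
      intro s j n1 n2 e
      refine k2 u s uu j (fun i => ?_) (fun i => ?_) (eqv.trans (eqv.symm uc) e)
      · rcases i with i | i
        exacts [lK' (i ▸ uK2), lK (i ▸ uK2)]
      · rcases i with i | i
        exacts [n1 (i ▸ rfl), n2 (i ▸ rfl)]
    have P : ∀ t ∈ A, Sm x t → r u < r t → r t ≤ r l → c2 m0 ≠ c2 (σ.symm t) := by
      intro t i s o1 o2
      have a1 := hr.pred (p := t) (by omega)
      refine hr.odd G2.1 (l := u) (by omega) (by omega) (fun s' j n o3 o4 => ?_)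
      by_cases e : Sm c0 s'
      · have := (cu s' j (by omega) (by omega) e).resolve_left n
        subst this
        omega
      · have := cut t i s s' j (by omega) (by omega) e
        omega
    have β0 : β = false := by
      have a1 := P l lA.1 xl u2 le_rfl
      rw [← hr.const G2.1 (a := p) (b := σ.symm l) (by omega) (fun s o1 o2 =>
        un2 s (fun e => by subst e; omega) o1 (by omega)), ← hβ, ← e2,
        ← cL p (by omega) le_rfl] at a1
      revert a1 b3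
      cases c1 m0 <;> cases c1 r1 <;> cases β <;> simp
    obtain ⟨z1, z2⟩ := hz t0 t0A t0x t0l t0l'
    by_cases o : r m0 < r t0 ∧ r t0 ≤ r M
    swap
    · rw [(T3 t0 o).1, z2]
    by_cases o' : r p < r t0 ∧ r t0 < r q
    · rw [(T1 t0 o').1, β0, z2]; simp
    rw [(T2 t0 o o').1]
    have t0K : t0 ∉ K := fun i => Kx t0 i t0x
    have x0 := X1 t0 t0A t0x o.1 o.2
    have n1 := ne t0 t0K p pK
    have n2 := ne t0 t0K q qK
    have n3 := ne t0 t0K u uK2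
    have n4 := ne t0 t0K _ uw.2.1
    have pt0 := hr.pred (p := t0) (by omega)
    have ut0 : ρ2 t0 = t0 := by
      by_contra j
      exact t0K (k1' t0 j (hr.ne t0l') (hr.ne t0l)).1
    by_cases sd : r t0 < r p
    · have a1 : c1 r1 = z := (cL t0 (by omega) (by omega)).trans z2
      by_cases e : r u < r t0
      · have a2 := P t0 t0A t0x e (by omega)
        rw [(G2.1.2 t0).1 ut0, ← e2] at a2
        rw [a1] at b3
        revert a2 b3
        cases c1 m0 <;> cases c2 t0 <;> cases z <;> simp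
      · exfalso
        have a2 := hr.closed G2 (a := m0) (b := σ.symm t0) (o := l) (by omega) ul2
          (fun s j o1 o2 => by
            by_cases e : Sm c0 s
            · rcases cu s j (by omega) (by omega) e with i | i <;> subst i <;> omega
            · have := cut t0 t0A t0x s j (by omega) (by omega) e
              omega)
        have a3 := k5 lK' lK r1 u (bgK _ r1K.1 r1K.2) (bgK _ uK2 uc)
          (a2 _ (by omega) (by omega)) uu
        have a4 := hr.const G2.1 (a := m0) (b := r1) (by omega)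
          (fun s o1 o2 => a2 s o1 (by omega))
        exact b3 (e2.trans (a4.trans (a3.trans a1.symm)))
    · have a1 : c1 q0 = z := (cR t0 (by omega) (by omega)).trans z2
      have a0 : c2 M ≠ z := by
        rw [← cL p (by omega) le_rfl, a1] at odd1
        rw [← e2] at odd2
        revert odd1 odd2 b3
        cases c1 m0 <;> cases c1 r1 <;> cases c2 M <;> cases z <;> simp
      by_cases e : r t0 < r (ρ2 u)
      · have a2 : c2 t0 ≠ c2 M := hr.odd G2.1 (l := ρ2 u) (by omega) (by rw [G2.1.1 u]; omega)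
          (fun s j n o1 o2 => by
            by_cases e : Sm c0 s
            · have := (cu s j (by omega) (by omega) e).resolve_right n
              subst this
              omega
            · have := cut t0 t0A t0x s j (by omega) (by omega) e
              omega)
        revert a2 a0
        cases c2 t0 <;> cases c2 M <;> cases z <;> simp
      · exfalso
        have a2 := hr.closed G2 (a := t0) (b := M) (o := l) (by omega) ul2
          (fun s j o1 o2 => by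
            by_cases e : Sm c0 s
            · rcases cu s j (by omega) (by omega) e with i | i <;> subst i <;> omega
            · have := cut t0 t0A t0x s j (by omega) (by omega) e
              omega)
        have a3 := k5 lK' lK rk u (bgK _ rkK.1 rkK.2) (bgK _ uK2 uc)
          (a2 _ (by omega) (by omega)) uu
        have a4 := hr.const G2.1 (a := rk) (b := M) (by omega)
          (fun s o1 o2 => a2 s (by omega) o2)
        exact a0 (a4.symm.trans a3)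
  have nr : ∀ t ∈ K, ¬ (t = l' ∨ t = l) := fun t i e => e.elim (fun e => lK' (e ▸ i))
    (fun e => lK (e ▸ i))
  have u4 : ∀ t, ρ4 t ≠ t → t ∈ A ∧ Sm t (ρ4 t) := by
    intro t j
    by_cases i : t ∈ K
    · rw [(TK t i).2] at j ⊢
      exact ⟨KA t i, (k1' t j (ne l' lK' t i).symm (ne l lK t i).symm).2.2⟩
    · have e := TN t i j
      rw [e] at j ⊢
      exact ⟨(uA t j).1, (u1 t j).2⟩
  refine ⟨c4, ρ4, ⟨G4, u4, fun s t js jt e => ?_, fun s is t it js jt e => ?_⟩,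
    (T3 g (by omega)).2⟩
  · by_cases i : s ∈ K
    · have i' := Kcl s i t (u4 t jt).1 e
      rw [(TK s i).2] at js ⊢
      rw [(TK t i').2] at jt
      exact k2 s t js jt (nr s i) (nr t i') e
    · have e1 := TN s i js
      have e2 := TN t (nK s t (u4 s js).1 i e) jt
      rw [e1] at js ⊢
      rw [e2] at jt
      exact w1 s t js jt e
  by_cases i : s ∈ K
  · have i' := Kcl s i t it e
    rw [(TK s i).2] at js
    rw [(TK t i').2] at jt
    rw [(TK s i).1, (TK t i').1]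
    exact k3 s i t i' js jt e
  have i' := nK s t is i e
  by_cases xs : Sm x s
  · have a1 : ρ4 l ≠ l := by rw [(T1 l ⟨pl, lq⟩).2]; exact ul
    have a2 : ρ4 l' ≠ l' := by
      rw [(T3 l' (by omega)).2, ← hl']; exact G1.1.used' ul
    rw [rest s is xs (fun j => a1 (j ▸ js)) (fun j => a2 (j ▸ js)),
      rest t it (eqv.trans xs e) (fun j => a1 (j ▸ jt)) (fun j => a2 (j ▸ jt))]
  have a1 := NS s is t it e i xs m mK
  have a2 := NS s is t it e i xs M MK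
  have a3 := NS s is t it e i xs p pK
  have a4 := NS s is t it e i xs q qK
  by_cases o : r m0 < r s ∧ r s ≤ r M
  swap
  · have o2 : ¬ (r m0 < r t ∧ r t ≤ r M) := by omega
    rw [(T3 s o).2] at js
    rw [(T3 t o2).2] at jt
    rw [(T3 s o).1, (T3 t o2).1]
    exact v1 s (inA1 s is i) t (inA1 t it i') js jt e
  by_cases o' : r p < r s ∧ r s < r q
  · have o2 : r p < r t ∧ r t < r q := by omega
    rw [(T1 s o').2] at js
    rw [(T1 t o2).2] at jt
    rw [(T1 s o').1, (T1 t o2).1, v1 s (inA1 s is i) t (inA1 t it i') js jt e]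
  rw [(T2 s o o').1, (T2 t (by omega) (by omega)).1]
  have un : ∀ y, (r s < r y ∧ r y ≤ r t) ∨ (r t < r y ∧ r y ≤ r s) → ρ2 y = y := by
    intro y oy
    by_contra j
    have := NS s is t it e i xs y (k1' y j (by omega) (by omega)).1
    omega
  rcases le_total (r s) (r t) with o3 | o3
  · exact hr.const G2.1 o3 (fun y b1 b2 => un y (Or.inl ⟨b1, b2⟩))
  · exact (hr.const G2.1 o3 (fun y b1 b2 => un y (Or.inr ⟨b1, b2⟩))).symm

theorem forest_on (hc : Cyc σ) (hr : Rk σ g r) {h : α} (hg : h ≠ g) (eqv : Equivalence Sm)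
    (hroot : ∀ q, Sm g q ↔ q = g ∨ q = h) (A : Finset α) (gA : g ∈ A) (hA : h ∈ A)
    (hsep : Sep r Sm A) : ∃ c ρ, St σ Sm A c ρ ∧ ρ g = h := by
  classical
  induction A using Finset.strongInduction with
  | _ A ih =>
  have sgh : Sm g h := (hroot h).2 (Or.inr rfl)
  by_cases hb : ∃ c1, Bg Sm A c1
  · obtain ⟨c1, hc1⟩ := hb
    have ng : ¬ Sm g c1 := by
      intro s
      obtain ⟨_, a, _, b, _, n1, n2, n3, s1, s2⟩ := hc1
      rcases (hroot _).1 s with e | e <;> rcases (hroot _).1 (eqv.trans s s1) with e1 | e1 <;>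
        rcases (hroot _).1 (eqv.trans s s2) with e2 | e2 <;> simp_all
    obtain ⟨x, c0, K, b0, c0K, KA, gK, Kcl, Kx, Kbig, conn, NL⟩ := select eqv hsep hc1 ng
    obtain ⟨m, mK, m1⟩ := Finset.exists_min_image K r ⟨c0, c0K⟩
    obtain ⟨M, MK, M1⟩ := Finset.exists_max_image K r ⟨c0, c0K⟩
    obtain ⟨r1, r1K, r2⟩ := Finset.exists_min_image (K.filter (Sm c0)) r
      ⟨c0, Finset.mem_filter.2 ⟨c0K, eqv.refl _⟩⟩
    obtain ⟨rk, rkK, r3⟩ := Finset.exists_max_image (K.filter (Sm c0)) r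
      ⟨c0, Finset.mem_filter.2 ⟨c0K, eqv.refl _⟩⟩
    rw [Finset.mem_filter] at r1K rkK
    let A1 : Finset α := A.filter (fun t => t ∉ K ∨ t = r1 ∨ t = rk)
    have hA1 : ∀ t, t ∈ A1 ↔ (t ∈ A ∧ t ∉ K) ∨ t = r1 ∨ t = rk := by
      intro t
      simp only [A1, Finset.mem_filter]
      constructor
      · rintro ⟨a, b | b⟩
        exacts [Or.inl ⟨a, b⟩, Or.inr b]
      · rintro (a | a | a)
        exacts [⟨a.1, Or.inl a.2⟩, ⟨a ▸ KA _ r1K.1, Or.inr (Or.inl a)⟩,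
          ⟨a ▸ KA _ rkK.1, Or.inr (Or.inr a)⟩]
    have lt : A1 ⊂ A := by
      refine ⟨Finset.filter_subset _ _, fun k => ?_⟩
      obtain ⟨i0, a, i1, b, i2, n1, n2, n3, s1, s2⟩ := b0
      have two : ∀ t ∈ A, Sm c0 t → t = r1 ∨ t = rk := fun t i s =>
        ((hA1 t).1 (k i)).resolve_left (fun j => j.2 (Kcl c0 c0K t i s))
      rcases two c0 i0 (eqv.refl _) with e | e <;> rcases two a i1 s1 with e1 | e1 <;>
        rcases two b i2 s2 with e2 | e2 <;> simp_all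
    obtain ⟨c1, ρ1, s1, e⟩ := ih A1 lt ((hA1 g).2 (Or.inl ⟨gA, gK⟩))
      ((hA1 h).2 (Or.inl ⟨hA, fun i => gK (Kcl h i g gA (eqv.symm sgh))⟩))
      (hsep.mono (fun t i => lt.1 i))
    obtain ⟨c, ρ, s, e'⟩ := step hc hr eqv b0 c0K KA gK Kcl Kx Kbig conn NL mK MK
      (fun k i => ⟨m1 k i, M1 k i⟩) r1K rkK (fun k i s => ⟨r2 k (Finset.mem_filter.2 ⟨i, s⟩),
        r3 k (Finset.mem_filter.2 ⟨i, s⟩)⟩) hA1 s1 (e ▸ hg)
    exact ⟨c, ρ, s, e'.trans e⟩
  · obtain ⟨c, ρ, G, k0, k1, k2, k3, _⟩ := one_on hc eqv A hg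
      (fun p _ i _ => absurd ⟨p, i⟩ hb) true true
    have k0' : ρ h = g := by rw [← k0, G.1.1 g]
    refine ⟨c, ρ, ⟨G, fun p j => ?_, fun p q jp jq s => ?_, k3⟩, k0⟩
    · rcases k1 p j with e | e | e
      · rw [e, k0]; exact ⟨gA, sgh⟩
      · rw [e, k0']; exact ⟨hA, eqv.symm sgh⟩
      · exact ⟨e.1, e.2.2⟩
    · by_cases n : p = g ∨ p = h
      · have := (hroot q).1 (eqv.trans ((hroot p).2 n) s)
        rcases n with e | e <;> rw [e]
        · rwa [k0]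
        · rw [k0']; exact this.symm
      · exact k2 p q jp jq n
          (fun i => n ((hroot p).1 (eqv.trans ((hroot q).2 i) (eqv.symm s)))) s

theorem forest {α : Type} [DecidableEq α] [Fintype α] {σ : Equiv.Perm α} {g h : α} {r : α → ℕ}
    (hc : Cyc σ) (hr : Rk σ g r) (hg : h ≠ g) {Sm Lk : α → α → Prop} (eqv : Equivalence Sm)
    (hroot : ∀ q, Sm g q ↔ q = g ∨ q = h) (hL1 : ∀ p q, Sm p q → Lk p q)
    (hL2 : ∀ p q p1 p2 q1 q2, ¬ Sm p q → Sm p p1 → Sm p p2 → Sm q q1 → Sm q q2 →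
      r p1 < r q1 → r q1 < r p2 → r p2 < r q2 → Lk p q ∧ Lk q p)
    (H : ∀ p q, (∃ a b, a ≠ p ∧ b ≠ p ∧ a ≠ b ∧ Sm p a ∧ Sm p b) →
      (∃ a b, a ≠ q ∧ b ≠ q ∧ a ≠ b ∧ Sm q a ∧ Sm q b) → ¬ Sm p q →
      (∃ x, ¬ Sm x p ∧ ¬ Sm x q ∧
        ¬ Relation.ReflTransGen (fun u v => Lk u v ∧ ¬ Sm x u ∧ ¬ Sm x v) p q) ∨
      ¬ Relation.ReflTransGen
        (fun u v => Lk u v ∧ ¬ (Sm p u ∧ Sm q v) ∧ ¬ (Sm q u ∧ Sm p v)) p q) :
    ∃ c ρ, Good σ c ρ ∧ ρ g = h ∧ (∀ p, ρ p ≠ p → Sm p (ρ p)) ∧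
      (∀ p q, ρ p ≠ p → ρ q ≠ q → Sm p q → q = p ∨ q = ρ p) ∧
      ∀ p q, ρ p = p → ρ q = q → Sm p q → c p = c q := by
  have ln : ∀ p q, Ln r Sm Finset.univ p q → Lk p q := by
    rintro p q ⟨_, _, s | ⟨n, p1, _, p2, _, q1, _, q2, _, s1, s2, s3, s4, o1, o2, o3⟩ |
      ⟨n, p1, _, p2, _, q1, _, q2, _, s1, s2, s3, s4, o1, o2, o3⟩⟩
    exacts [hL1 p q s, (hL2 p q p1 p2 q1 q2 n s1 s2 s3 s4 o1 o2 o3).1,
      (hL2 q p p1 p2 q1 q2 n s1 s2 s3 s4 o1 o2 o3).2]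
  obtain ⟨c, ρ, ⟨G, k1, k2, k3⟩, k0⟩ := forest_on hc hr hg eqv hroot Finset.univ
    (Finset.mem_univ _) (Finset.mem_univ _) (by
      rintro p q ⟨_, a, _, b, _, o⟩ ⟨_, a', _, b', _, o'⟩ n
      rcases H p q ⟨a, b, o⟩ ⟨a', b', o'⟩ n with ⟨x, x1, x2, x3⟩ | x3
      · exact Or.inl ⟨x, x1, x2, fun k => x3 (rt_mono k (fun _ _ i => ⟨ln _ _ i.1, i.2⟩))⟩
      · exact Or.inr (fun k => x3 (rt_mono k (fun _ _ i => ⟨ln _ _ i.1, i.2⟩))))
  exact ⟨c, ρ, G, k0, fun p j => (k1 p j).2, k2,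
    fun p q => k3 p (Finset.mem_univ _) q (Finset.mem_univ _)⟩

end Pool.Agent.Lib.MP_061452_co.OF
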