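import Pool.Agent.Lib.MP_061452_co.OF.Glue

set_option autoImplicit false

namespace Pool.Agent.Lib.MP_061452_co.OF

open Function

variable {α : Type} {σ : Equiv.Perm α} {g : α} {r : α → ℕ}

/-- The permutation is a single cycle. -/
def Cyc (σ : Equiv.Perm α) : Prop := ∀ p q, ∃ k, σ^[k] p = q

/-- The position along the cycle, counted from `g`. -/
def Rk (σ : Equiv.Perm α) (g : α) (r : α → ℕ) : Prop :=
  r g = 0 ∧ Injective r ∧ (∀ p, p ≠ g → r p = r (σ.symm p) + 1) ∧ ∀ q, r q ≤ r (σ.symm g)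

theorem cyc_of (hr : ∀ p, p ≠ g → r (σ.symm p) < r p) : Cyc σ := by
  have h1 : ∀ n p, r p = n → ∃ k, σ^[k] g = p := by
    intro n
    induction n using Nat.strong_induction_on with
    | _ n ih =>
      intro p hp
      by_cases e : p = g
      · exact ⟨0, e.symm⟩
      · obtain ⟨k, hk⟩ := ih _ (hp ▸ hr p e) (σ.symm p) rfl
        exact ⟨k + 1, by rw [iterate_succ_apply', hk]; simp⟩
  obtain ⟨N, hN⟩ := h1 _ (σ.symm g) rfl
  have hN' : σ^[N + 1] g = g := by rw [iterate_succ_apply', hN]; simp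
  intro p q
  obtain ⟨k, rfl⟩ := h1 _ p rfl
  obtain ⟨l, rfl⟩ := h1 _ q rfl
  refine ⟨l + N * k, ?_⟩
  rw [← iterate_add_apply, show l + N * k + k = l + (N + 1) * k by ring, iterate_add_apply,
    iterate_mul, iterate_fixed hN']

theorem Cyc.symm (h : Cyc σ) : Cyc σ.symm := by
  intro p q
  obtain ⟨k, rfl⟩ := h q p
  exact ⟨k, (LeftInverse.iterate σ.symm_apply_apply k) q⟩

theorem Cyc.rk (h : Cyc σ) (g : α) : ∃ r, Rk σ g r := by
  classical
  let r : α → ℕ := fun p => Nat.find (h g p)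
  have sp : ∀ p, σ^[r p] g = p := fun p => Nat.find_spec (h g p)
  have mn : ∀ p k, σ^[k] g = p → r p ≤ k := fun p k e => Nat.find_min' (h g p) e
  refine ⟨r, Nat.le_zero.1 (mn g 0 rfl), fun p q e => by rw [← sp p, e, sp q], fun p hp => ?_,
    fun q => ?_⟩
  · have a1 := mn p (r (σ.symm p) + 1) (by rw [iterate_succ_apply', sp]; simp)
    obtain ⟨k, hk⟩ : ∃ k, r p = k + 1 := by
      refine Nat.exists_eq_succ_of_ne_zero (fun e => hp ?_)
      rw [← sp p, e]; rfl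
    have a2 := mn (σ.symm p) k (by
      have := sp p
      rw [hk, iterate_succ_apply'] at this
      rw [← this]; simp)
    omega
  · by_contra k
    have a1 : σ^[r (σ.symm g) + 1] g = g := by rw [iterate_succ_apply', sp]; simp
    have a2 := mn q (r q - (r (σ.symm g) + 1)) (by
      have a3 := iterate_add_apply σ (r q - (r (σ.symm g) + 1)) (r (σ.symm g) + 1) g
      rw [a1, Nat.sub_add_cancel (by omega), sp] at a3
      exact a3.symm)
    omega

theorem Rk.lt (h : Rk σ g r) (p : α) (hp : p ≠ g) : r (σ.symm p) < r p := by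
  have := h.2.2.1 p hp; omega

theorem Rk.pred (h : Rk σ g r) {p : α} (hp : 0 < r p) : r (σ.symm p) + 1 = r p :=
  (h.2.2.1 p (fun e => by rw [e, h.1] at hp; omega)).symm

theorem Rk.succ (h : Rk σ g r) (p : α) : r (σ p) = r p + 1 ∨ (r (σ p) = 0 ∧ ∀ q, r q ≤ r p) := by
  by_cases e : σ p = g
  · refine Or.inr ⟨by rw [e, h.1], fun q => ?_⟩
    have := h.2.2.2 q
    rwa [← e, Equiv.symm_apply_apply] at this
  · have := h.2.2.1 _ e
    rw [Equiv.symm_apply_apply] at this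
    exact Or.inl this

theorem Rk.ne (h : Rk σ g r) {p q : α} (e : p ≠ q) : r p ≠ r q := fun k => e (h.2.1 k)

theorem Rk.ivl (h : Rk σ g r) {a b : α} (hab : r a < r b) :
    Ivl σ (fun t => r a < r t ∧ r t ≤ r b) a b := by
  refine ⟨fun k => by omega, ?_, ⟨hab, le_rfl⟩, ?_, fun p h1 h2 => ?_⟩
  · rcases h.succ a with e | e
    · omega
    · have := e.2 b; omega
  · rcases h.succ b with e | e <;> omega
  · have a1 := h.ne h1
    have a2 := h.ne h2
    rcases h.succ p with e | e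
    · omega
    · have := e.2 b; omega

variable [DecidableEq α] [Fintype α] {c : α → Bool} {ρ : α → α} {a b : α}

theorem Rk.odd (h : Rk σ g r) (hL : LW σ c ρ) {l : α} (l1 : r a < r l ∧ r l ≤ r b)
    (l2 : ¬ (r a < r (ρ l) ∧ r (ρ l) ≤ r b))
    (cl : ∀ t, ρ t ≠ t → t ≠ l → r a < r t → r t ≤ r b → r a < r (ρ t) ∧ r (ρ t) ≤ r b) :
    c a ≠ c b := by
  refine odd_col hL (h.ivl (by omega)) l1 l2 (fun t k e => ?_)
  by_cases j : ρ t = t
  · rw [j]; exact k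
  · exact cl t j e k.1 k.2

theorem Rk.const (h : Rk σ g r) (hL : LW σ c ρ) (hab : r a ≤ r b)
    (cl : ∀ t, r a < r t → r t ≤ r b → ρ t = t) : c a = c b := by
  rcases hab.lt_or_eq with k | k
  · exact even_col hL (h.ivl k) (fun t j => by rw [cl t j.1 j.2]; exact j)
  · rw [h.2.1 k]

theorem Rk.closed (h : Rk σ g r) (hG : Good σ c ρ) {o : α} (o1 : ¬ (r a < r o ∧ r o ≤ r b))
    (o2 : ρ o ≠ o)
    (cl : ∀ t, ρ t ≠ t → r a < r t → r t ≤ r b → r a < r (ρ t) ∧ r (ρ t) ≤ r b)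
    (t : α) (t1 : r a < r t) (t2 : r t ≤ r b) : ρ t = t := by
  refine closed_unused hG (h.ivl (by omega)) (fun t k => ?_) o1 o2 ⟨t1, t2⟩
  by_cases j : ρ t = t
  · rw [j]; exact k
  · exact cl t j k.1 k.2

omit [DecidableEq α] [Fintype α] in
theorem labelled_aux [Fintype α] [DecidableEq α] {h : α}
    (hr : ∀ p, p ≠ g → r (σ.symm p) < r p) (hg : h ≠ g) {Sm : α → α → Prop}
    (eqv : Equivalence Sm) (hone : ∀ p q, Big g h Sm p → Big g h Sm q → Sm p q) :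
    ∃ c ρ, Valid σ g c ρ ∧ ρ g = h ∧ (∀ p, ρ p ≠ p → ¬ (p = g ∨ p = h) → Sm p (ρ p)) ∧
      (∀ p q, ρ p ≠ p → ρ q ≠ q → ¬ (p = g ∨ p = h) → ¬ (q = g ∨ q = h) → Sm p q →
        q = p ∨ q = ρ p) ∧ (∀ p q, ρ p = p → ρ q = q → Sm p q → c p = c q) ∧
      ∀ p q, Big g h Sm p → Big g h Sm q → ρ p = p → ρ q ≠ q → c p = true := by
  classical
  have ex : ∀ p, ∃ p', (p' = p ∨ (p ≠ g ∧ p ≠ h ∧ ¬ Big g h Sm p ∧ p' ≠ g ∧ p' ≠ h ∧ Sm p p')) ∧
      ∀ q, p ≠ g → p ≠ h → ¬ Big g h Sm p → q ≠ g → q ≠ h → q ≠ p → Sm p q → q = p' := by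
    intro p
    by_cases k : ∃ q, p ≠ g ∧ p ≠ h ∧ ¬ Big g h Sm p ∧ q ≠ g ∧ q ≠ h ∧ q ≠ p ∧ Sm p q
    · obtain ⟨q, k1, k2, k3, k4, k5, k6, k7⟩ := k
      refine ⟨q, Or.inr ⟨k1, k2, k3, k4, k5, k7⟩, fun q' _ _ _ j1 j2 j3 j4 => ?_⟩
      by_contra e
      exact k3 ⟨k1, k2, q', q, j1, j2, k4, k5, j3, k6, e, j4, k7⟩
    · exact ⟨p, Or.inl rfl, fun q k1 k2 k3 k4 k5 k6 k7 =>
        absurd ⟨q, k1, k2, k3, k4, k5, k6, k7⟩ k⟩
  choose π h1 h2 using ex
  have hπ : Involutive π := by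
    intro p
    by_cases e : π p = p
    · rw [e, e]
    obtain ⟨k1, k2, k3, k4, k5, k6⟩ := (h1 p).resolve_left e
    exact (h2 (π p) p k4 k5 (fun b => k3 (b.of_rel eqv k1 k2 (eqv.symm k6))) k1 k2 (Ne.symm e)
      (eqv.symm k6)).symm
  let B : Finset α := Finset.univ.filter (Big g h Sm)
  have hB : ∀ p, p ∈ B ↔ Big g h Sm p := fun p => by simp [B]
  have hs : StrF g π h B :=
    ⟨⟨hπ, (h1 g).resolve_right (fun k => k.1 rfl), fun k => ((hB g).1 k).1 rfl,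
      fun p hp => (h1 p).resolve_right (fun k => k.2.2.1 ((hB p).1 hp))⟩,
      (h1 h).resolve_right (fun k => k.2.1 rfl), hg, fun k => ((hB h).1 k).2.1 rfl⟩
  obtain ⟨c, ρ, hv, hF⟩ := exists_F hr hs
  have hρ := hv.1.1
  have ch : ∀ p, π p ≠ p → ρ p = π p ∨ (ρ p = p ∧ ρ (π p) = π p ∧ c p = c (π p)) := by
    rcases hF.2 with ⟨b, _⟩ | ⟨a, _, _, _, b, _⟩ <;> exact b.1
  have small : ∀ p, ρ p ≠ p → p ≠ g → p ≠ h → ¬ Big g h Sm p → π p ≠ p ∧ ρ p = π p := by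
    intro p hp k1 k2 k3
    have e : π p ≠ p := fun e => hp (hF.fix e k1 k2 (fun k => k3 ((hB p).1 k)))
    exact ⟨e, (ch p e).resolve_right (fun k => hp k.1)⟩
  have big : ∃ a, ∀ p, Big g h Sm p → ρ p ≠ p → (p = a ∨ p = ρ a) ∧ Big g h Sm (ρ p) := by
    rcases hF.2 with ⟨b, _⟩ | ⟨a, k1, k2, _, b, _⟩
    · exact ⟨g, fun p hp k => absurd (b.2 p (hs.1.2.2.2 p ((hB p).2 hp))
        (fun e => e.elim hp.1 hp.2.1)) k⟩
    · refine ⟨a, fun p hp k => ?_⟩
      have : p = a ∨ p = ρ a := by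
        by_contra e
        exact k (b.2 p (hs.1.2.2.2 p ((hB p).2 hp))
          (fun j => j.elim hp.1 (fun j => j.elim hp.2.1 e)))
      refine ⟨this, ?_⟩
      rcases this with e | e
      · rw [e]; exact (hB _).1 k2
      · rw [e, hρ a]; exact (hB _).1 k1
  obtain ⟨a, big⟩ := big
  have ug : ρ g ≠ g := by rw [hF.1]; exact hg
  have uh : ρ h ≠ h := by rw [← hF.1, hρ g, hF.1]; exact hg.symm
  have nn : ∀ a, ρ a ≠ a → ∀ x, ρ x = x → x ≠ a ∧ x ≠ ρ a := fun a k3 x hx =>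
    ⟨fun e => k3 (e ▸ hx), fun e => k3 (by rw [← e, ← hρ a, ← e, hx])⟩
  refine ⟨c, ρ, hv, hF.1, fun p hp k => ?_, fun p q hp hq k k' hs' => ?_,
    fun p q hp hq hs' => ?_, fun p q bp bq hp hq => ?_⟩
  · rw [not_or] at k
    by_cases b : Big g h Sm p
    · exact hone _ _ b (big p b hp).2
    · obtain ⟨e1, e2⟩ := small p hp k.1 k.2 b
      rw [e2]; exact ((h1 p).resolve_left e1).2.2.2.2.2
  · rw [not_or] at k k'
    by_cases b : Big g h Sm p
    · rcases (big p b hp).1 with e | e <;>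
        rcases (big q (b.of_rel eqv k'.1 k'.2 hs') hq).1 with e' | e'
      · left; rw [e, e']
      · right; rw [e, e']
      · right; rw [e, e', hρ a]
      · left; rw [e, e']
    · by_cases e : q = p
      · exact Or.inl e
      · right; rw [(small p hp k.1 k.2 b).2]; exact h2 p q k.1 k.2 b k'.1 k'.2 e hs'
  · have p1 : p ≠ g := fun e => ug (e ▸ hp)
    have p2 : p ≠ h := fun e => uh (e ▸ hp)
    have q1 : q ≠ g := fun e => ug (e ▸ hq)
    have q2 : q ≠ h := fun e => uh (e ▸ hq)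
    by_cases b : Big g h Sm p
    · have b' := b.of_rel eqv q1 q2 hs'
      rcases hF.2 with ⟨_, m⟩ | ⟨a, _, _, k3, _, m⟩
      · exact m p ((hB p).2 b) q ((hB q).2 b')
      · rw [m p ((hB p).2 b) (nn a k3 p hp).1 (nn a k3 p hp).2,
          m q ((hB q).2 b') (nn a k3 q hq).1 (nn a k3 q hq).2]
    · by_cases e : q = p
      · rw [e]
      have e' := h2 p q p1 p2 b q1 q2 e hs'
      rcases ch p (e' ▸ e) with k | k
      · exact absurd (e'.trans (k.symm.trans hp)) e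
      · rw [e']; exact k.2.2
  · rcases hF.2 with ⟨b, _⟩ | ⟨a, _, _, k3, _, m⟩
    · exact absurd (b.2 q (hs.1.2.2.2 q ((hB q).2 bq)) (fun e => e.elim bq.1 bq.2.1)) hq
    · exact m p ((hB p).2 bp) (nn a k3 p hp).1 (nn a k3 p hp).2

/-- One big block: the colour after the root and the colour of the rest are both free. -/
theorem one_block (hc : Cyc σ) {h : α} (hg : h ≠ g) {Sm : α → α → Prop}
    (eqv : Equivalence Sm) (hone : ∀ p q, Big g h Sm p → Big g h Sm q → Sm p q) (e z : Bool) :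
    ∃ c ρ, Good σ c ρ ∧ ρ g = h ∧ (∀ p, ρ p ≠ p → ¬ (p = g ∨ p = h) → Sm p (ρ p)) ∧
      (∀ p q, ρ p ≠ p → ρ q ≠ q → ¬ (p = g ∨ p = h) → ¬ (q = g ∨ q = h) → Sm p q →
        q = p ∨ q = ρ p) ∧ (∀ p q, ρ p = p → ρ q = q → Sm p q → c p = c q) ∧ c g = e ∧
      ∀ p q, Big g h Sm p → Big g h Sm q → ρ p = p → ρ q ≠ q → c p = z := by
  by_cases k : z = e
  · obtain ⟨r, hr⟩ := hc.symm.rk g
    obtain ⟨c, ρ, hv, k0, k1, k2, k3, k4⟩ := labelled_aux hr.lt hg eqv hone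
    have G : Good σ.symm c ρ := ⟨⟨hv.1.1, hv.1.2.1⟩, hv.2⟩
    have u : ∀ p, ρ p = p → c (σ p) = c p := fun p hp => (G.1.2 p).1 hp
    refine ⟨_, ρ, G.mirror.flip (!e), k0, k1, k2, fun p q hp hq s => ?_, ?_,
      fun p q bp bq hp hq => ?_⟩
    · simp only [u p hp, u q hq, k3 p q hp hq s]
    · have : c (σ g) = true := hv.1.2.2
      simp [this]
    · simp [u p hp, k4 p q bp bq hp hq, k]
  · obtain ⟨r, hr⟩ := hc.rk g
    obtain ⟨c, ρ, hv, k0, k1, k2, k3, k4⟩ := labelled_aux hr.lt hg eqv hone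
    have G : Good σ c ρ := ⟨⟨hv.1.1, hv.1.2.1⟩, hv.2⟩
    refine ⟨_, ρ, G.flip e, k0, k1, k2, fun p q hp hq s => ?_, ?_,
      fun p q bp bq hp hq => ?_⟩
    · simp only [k3 p q hp hq s]
    · have a1 := G.1.used (p := g) (by rw [k0]; exact hg)
      rw [hv.1.2.2] at a1
      have : c g = false := by simpa using a1
      simp [this]
    · simp only [k4 p q bp bq hp hq]
      revert k
      cases z <;> cases e <;> simp

end Pool.Agent.Lib.MP_061452_co.OF
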