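import Pool.Agent.Lib.MP_061452_co.OF.Ord

set_option autoImplicit false

namespace Pool.Agent.Lib.MP_061452_co.OF

open Function Relation

variable {α : Type}

/-- The classes of two points alternate inside `A`. -/
def Ov (r : α → ℕ) (Sm : α → α → Prop) (A : Finset α) (p q : α) : Prop :=
  ¬ Sm p q ∧ ∃ p1 ∈ A, ∃ p2 ∈ A, ∃ q1 ∈ A, ∃ q2 ∈ A, Sm p p1 ∧ Sm p p2 ∧ Sm q q1 ∧ Sm q q2 ∧
    r p1 < r q1 ∧ r q1 < r p2 ∧ r p2 < r q2

/-- Same class or alternating classes. -/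
def Ln (r : α → ℕ) (Sm : α → α → Prop) (A : Finset α) (p q : α) : Prop :=
  p ∈ A ∧ q ∈ A ∧ (Sm p q ∨ Ov r Sm A p q ∨ Ov r Sm A q p)

/-- Joined without meeting the class of `x`. -/
def R1 (r : α → ℕ) (Sm : α → α → Prop) (A : Finset α) (x : α) : α → α → Prop :=
  ReflTransGen (fun u v => Ln r Sm A u v ∧ ¬ Sm x u ∧ ¬ Sm x v)

/-- Joined without a direct step between the classes of `p` and `q`. -/
def R2 (r : α → ℕ) (Sm : α → α → Prop) (A : Finset α) (p q : α) : α → α → Prop :=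
  ReflTransGen (fun u v => Ln r Sm A u v ∧ ¬ (Sm p u ∧ Sm q v) ∧ ¬ (Sm q u ∧ Sm p v))

/-- The class of `p` has three points in `A`. -/
def Bg (Sm : α → α → Prop) (A : Finset α) (p : α) : Prop :=
  p ∈ A ∧ ∃ a ∈ A, ∃ b ∈ A, a ≠ p ∧ b ≠ p ∧ a ≠ b ∧ Sm p a ∧ Sm p b

/-- Any two big classes are separated by a third class or by the step between them. -/
def Sep (r : α → ℕ) (Sm : α → α → Prop) (A : Finset α) : Prop :=
  ∀ p q, Bg Sm A p → Bg Sm A q → ¬ Sm p q →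
    (∃ x, ¬ Sm x p ∧ ¬ Sm x q ∧ ¬ R1 r Sm A x p q) ∨ ¬ R2 r Sm A p q p q

theorem rt_mono {P Q : α → α → Prop} {a b : α} (k : ReflTransGen P a b)
    (h : ∀ u v, P u v → Q u v) : ReflTransGen Q a b := by
  induction k with
  | refl => exact ReflTransGen.refl
  | tail _ j ih => exact ih.tail (h _ _ j)

theorem rt_symm {P : α → α → Prop} {a b : α} (k : ReflTransGen P a b)
    (h : ∀ u v, P u v → P v u) : ReflTransGen P b a := by
  induction k with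
  | refl => exact ReflTransGen.refl
  | tail _ j ih => exact ReflTransGen.head (h _ _ j) ih

variable {r : α → ℕ} {Sm : α → α → Prop} {A : Finset α}

theorem Ln.symm (eqv : Equivalence Sm) {p q : α} (h : Ln r Sm A p q) : Ln r Sm A q p :=
  ⟨h.2.1, h.1, h.2.2.elim (fun k => Or.inl (eqv.symm k)) (fun k => Or.inr k.symm)⟩

theorem R1.symm (eqv : Equivalence Sm) {x p q : α} (h : R1 r Sm A x p q) : R1 r Sm A x q p :=
  rt_symm h (fun _ _ k => ⟨k.1.symm eqv, k.2.2, k.2.1⟩)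

theorem R2.symm (eqv : Equivalence Sm) {a b p q : α} (h : R2 r Sm A a b p q) :
    R2 r Sm A a b q p :=
  rt_symm h (fun _ _ k => ⟨k.1.symm eqv, fun j => k.2.2 j.symm, fun j => k.2.1 j.symm⟩)

theorem R1.mem {x p q : α} (h : R1 r Sm A x p q) (hp : p ∈ A) (hx : ¬ Sm x p) :
    q ∈ A ∧ ¬ Sm x q := by
  induction h with
  | refl => exact ⟨hp, hx⟩
  | tail _ k _ => exact ⟨k.1.2.1, k.2.2⟩

theorem R2.mem {a b p q : α} (h : R2 r Sm A a b p q) (hp : p ∈ A) : q ∈ A := by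
  induction h with
  | refl => exact hp
  | tail _ k _ => exact k.1.2.1

theorem R1.sub {x z d t : α} (hx : ∀ s, R1 r Sm A z d s → ¬ Sm x s) (h : R1 r Sm A z d t) :
    R1 r Sm A x d t := by
  induction h with
  | refl => exact ReflTransGen.refl
  | tail j k ih => exact ih.tail ⟨k.1, hx _ j, hx _ (j.tail k)⟩

theorem R1.r2 {a b p q : α} (h : R1 r Sm A a p q) : R2 r Sm A a b p q ∧ R2 r Sm A b a p q :=
  ⟨rt_mono h (fun _ _ k => ⟨k.1, fun j => k.2.1 j.1, fun j => k.2.2 j.2⟩),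
    rt_mono h (fun _ _ k => ⟨k.1, fun j => k.2.2 j.2, fun j => k.2.1 j.1⟩)⟩

theorem Bg.of_rel (eqv : Equivalence Sm) {p p' : α} (hb : Bg Sm A p) (h1 : p' ∈ A)
    (hs : Sm p p') : Bg Sm A p' := by
  obtain ⟨a1, q, b1, t, b2, b5, b6, b7, b8, b9⟩ := hb
  refine ⟨h1, ?_⟩
  have s := eqv.symm hs
  by_cases e1 : p' = p
  · exact ⟨q, b1, t, b2, e1 ▸ b5, e1 ▸ b6, b7, eqv.trans s b8, eqv.trans s b9⟩
  by_cases e2 : p' = q
  · exact ⟨p, a1, t, b2, Ne.symm e1, e2 ▸ b7.symm, b6.symm, s, eqv.trans s b9⟩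
  · exact ⟨p, a1, q, b1, Ne.symm e1, Ne.symm e2, b5.symm, s, eqv.trans s b8⟩

theorem R1.side (eqv : Equivalence Sm) {x d t : α} {lo hi : ℕ} (hd : d ∈ A) (hx : ¬ Sm x d)
    (hs : ∀ k1 k2, R1 r Sm A x d k1 → k2 ∈ A → Sm k1 k2 → lo < r k1 → r k1 < hi →
      lo < r k2 ∧ r k2 < hi) (h : R1 r Sm A x d t) :
    (lo < r d ∧ r d < hi) ↔ (lo < r t ∧ r t < hi) := by
  have iff : ∀ k1 k2, R1 r Sm A x d k1 → k2 ∈ A → Sm k1 k2 →
      ((lo < r k1 ∧ r k1 < hi) ↔ (lo < r k2 ∧ r k2 < hi)) := by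
    intro k1 k2 j m s
    have m1 := j.mem hd hx
    exact ⟨fun e => hs k1 k2 j m s e.1 e.2, fun e => hs k2 k1
      (j.tail ⟨⟨m1.1, m, Or.inl s⟩, m1.2, fun i => m1.2 (eqv.trans i (eqv.symm s))⟩) m1.1
      (eqv.symm s) e.1 e.2⟩
  induction h with
  | refl => rfl
  | @tail u v j k ih =>
    refine ih.trans ?_
    have j' : R1 r Sm A x d v := j.tail k
    rcases k.1.2.2 with s | ⟨_, p1, m1, p2, m2, q1, m3, q2, m4, s1, s2, s3, s4, o⟩ |
      ⟨_, p1, m1, p2, m2, q1, m3, q2, m4, s1, s2, s3, s4, o⟩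
    · exact iff u v j k.1.2.1 s
    · have a1 := iff u p1 j m1 s1
      have a2 := iff u p2 j m2 s2
      have a3 := iff v q1 j' m3 s3
      have a4 := iff v q2 j' m4 s4
      omega
    · have a1 := iff v p1 j' m1 s1
      have a2 := iff v p2 j' m2 s2
      have a3 := iff u q1 j m3 s3
      have a4 := iff u q2 j m4 s4
      omega

theorem select [DecidableEq α] (eqv : Equivalence Sm) (hsep : Sep r Sm A) {g c1 : α}
    (hc1 : Bg Sm A c1) (hg : ¬ Sm g c1) :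
    ∃ (x c0 : α) (K : Finset α), Bg Sm A c0 ∧ c0 ∈ K ∧ (∀ k ∈ K, k ∈ A) ∧ g ∉ K ∧
      (∀ k ∈ K, ∀ t ∈ A, Sm k t → t ∈ K) ∧ (∀ k ∈ K, ¬ Sm x k) ∧
      (∀ k ∈ K, Bg Sm A k → Sm c0 k) ∧
      (∀ lo hi : ℕ, (∀ k1 ∈ K, ∀ k2 ∈ K, Sm k1 k2 → lo < r k1 → r k1 < hi →
        lo < r k2 ∧ r k2 < hi) → ∀ k ∈ K, ∀ k' ∈ K, lo < r k → r k < hi →
        lo < r k' ∧ r k' < hi) ∧
      ∀ y ∈ A, y ∉ K → ∀ k ∈ K, Ln r Sm A y k → Sm x y ∧ (Bg Sm A y → Sm c0 k) := by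
  classical
  let Adm : α × α → Prop := fun w => Bg Sm A w.2 ∧ ¬ Sm w.1 w.2 ∧ ¬ R1 r Sm A w.1 w.2 g
  let F : α × α → Finset α := fun w => A.filter (R1 r Sm A w.1 w.2)
  have ex : ∃ n, ∃ w, Adm w ∧ (F w).card = n :=
    ⟨_, (g, c1), ⟨hc1, hg, fun k => (k.mem hc1.1 hg).2 (eqv.refl g)⟩, rfl⟩
  obtain ⟨⟨x, c0⟩, ⟨b0, x0, g0⟩, hn⟩ := Nat.find_spec ex
  simp only at b0 x0 g0
  have hK : ∀ k, k ∈ F (x, c0) ↔ R1 r Sm A x c0 k := fun k => by
    simp only [F, Finset.mem_filter]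
    exact ⟨fun j => j.2, fun j => ⟨(j.mem b0.1 x0).1, j⟩⟩
  have shrink : ∀ z d d', Bg Sm A d → R1 r Sm A x c0 d → ¬ Sm z d → R1 r Sm A x c0 d' →
      ¬ R1 r Sm A z d d' → (∀ s, R1 r Sm A z d s → ¬ Sm x s) → False := by
    intro z d d' a1 a2 a3 a4 a5 a6
    have a7 : ∀ s, R1 r Sm A z d s → R1 r Sm A x c0 s :=
      fun s k => ReflTransGen.trans a2 (R1.sub a6 k)
    have a8 := Nat.find_min' ex ⟨(z, d), ⟨a1, a3, fun k => g0 (a7 g k)⟩, rfl⟩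
    rw [← hn] at a8
    refine absurd a8 (not_le.2 (Finset.card_lt_card ⟨fun s k => ?_, fun k => ?_⟩))
    · exact (hK s).2 (a7 s (Finset.mem_filter.1 k).2)
    · exact a5 (Finset.mem_filter.1 (k ((hK d').2 a4))).2
  have ext : ∀ k t, R1 r Sm A x c0 k → Ln r Sm A k t → ¬ Sm x t → R1 r Sm A x c0 t :=
    fun k t j l n => j.tail ⟨l, (j.mem b0.1 x0).2, n⟩
  refine ⟨x, c0, F (x, c0), b0, (hK _).2 ReflTransGen.refl, fun k j => (Finset.mem_filter.1 j).1,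
    fun j => g0 ((hK _).1 j), fun k j t m s => ?_, fun k j => (((hK k).1 j).mem b0.1 x0).2,
    fun k j bk => ?_, fun lo hi hs k j k' j' o1 o2 => ?_, fun y m n k j l => ?_⟩
  · have j1 := (hK k).1 j
    have j2 := j1.mem b0.1 x0
    exact (hK t).2 (ext k t j1 ⟨j2.1, m, Or.inl s⟩ (fun i => j2.2 (eqv.trans i (eqv.symm s))))
  · by_contra n
    have j1 := (hK k).1 j
    have xk := (j1.mem b0.1 x0).2
    rcases hsep c0 k b0 bk n with ⟨z, z1, z2, z3⟩ | z3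
    · by_cases e : ∀ s, R1 r Sm A z c0 s → ¬ Sm x s
      · exact shrink z c0 k b0 ReflTransGen.refl z1 j1 z3 e
      · push Not at e
        obtain ⟨s, s1, s2⟩ := e
        refine shrink z k c0 bk j1 z2 ReflTransGen.refl (fun i => z3 (i.symm eqv))
          (fun t t1 t2 => z3 ?_)
        have m1 := s1.mem b0.1 z1
        have m2 := t1.mem bk.1 z2
        exact ReflTransGen.trans (s1.tail ⟨⟨m1.1, m2.1, Or.inl (eqv.trans (eqv.symm s2) t2)⟩,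
          m1.2, m2.2⟩) (t1.symm eqv)
    · have n' : ¬ Sm k c0 := fun i => n (eqv.symm i)
      by_cases e : ∀ s, R1 r Sm A k c0 s → ¬ Sm x s
      · exact shrink k c0 k b0 ReflTransGen.refl n' j1
          (fun i => (i.mem b0.1 n').2 (eqv.refl k)) e
      · push Not at e
        obtain ⟨s, s1, s2⟩ := e
        refine shrink c0 k c0 bk j1 n ReflTransGen.refl
          (fun i => (i.mem bk.1 n).2 (eqv.refl c0)) (fun t t1 t2 => z3 ?_)
        have m1 := s1.mem b0.1 n'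
        have m2 := t1.mem bk.1 n
        exact ReflTransGen.trans (s1.r2.2.tail
          ⟨⟨m1.1, m2.1, Or.inl (eqv.trans (eqv.symm s2) t2)⟩,
          fun i => x0 (eqv.trans s2 (eqv.symm i.1)), fun i => m1.2 i.1⟩) (t1.symm eqv).r2.1
  · have sd : ∀ t, R1 r Sm A x c0 t → ((lo < r c0 ∧ r c0 < hi) ↔ (lo < r t ∧ r t < hi)) := by
      intro t i
      refine R1.side eqv b0.1 x0 (fun k1 k2 i1 m s => ?_) i
      have j2 := i1.mem b0.1 x0
      exact hs k1 ((hK _).2 i1) k2 ((hK _).2 (ext k1 k2 i1 ⟨j2.1, m, Or.inl s⟩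
        (fun i => j2.2 (eqv.trans i (eqv.symm s))))) s
    exact (sd k' ((hK _).1 j')).1 ((sd k ((hK _).1 j)).2 ⟨o1, o2⟩)
  · have j1 := (hK k).1 j
    have xy : Sm x y := by
      by_contra i
      exact n ((hK y).2 (ext k y j1 (l.symm eqv) i))
    refine ⟨xy, fun by' => ?_⟩
    by_contra nk
    have yc : ¬ Sm y c0 := fun i => x0 (eqv.trans xy i)
    rcases hsep y c0 by' b0 yc with ⟨z, z1, z2, z3⟩ | z3
    · have e : ∀ s, R1 r Sm A z c0 s → ¬ Sm x s := by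
        intro s s1 s2
        have m1 := s1.mem b0.1 z2
        exact z3 (R1.symm eqv (s1.tail
          ⟨⟨m1.1, m, Or.inl (eqv.trans (eqv.symm s2) xy)⟩, m1.2, z1⟩))
      have i : R1 r Sm A z c0 k := by
        by_contra i
        exact shrink z c0 k b0 ReflTransGen.refl z2 j1 i e
      exact e y (i.tail ⟨l.symm eqv, (i.mem b0.1 z2).2, z1⟩) xy
    · have i : R1 r Sm A y k c0 := rt_mono (j1.symm eqv)
        (fun _ _ i => ⟨i.1, fun s => i.2.1 (eqv.trans xy s), fun s => i.2.2 (eqv.trans xy s)⟩)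
      exact z3 (ReflTransGen.head ⟨l, fun s => nk s.2, fun s => yc (eqv.symm s.1)⟩ i.r2.1)

theorem Sep.mono {A' : Finset α} (h : Sep r Sm A) (hA : ∀ t ∈ A', t ∈ A) : Sep r Sm A' := by
  have ov : ∀ p q, Ov r Sm A' p q → Ov r Sm A p q := by
    rintro p q ⟨n, p1, m1, p2, m2, q1, m3, q2, m4, o⟩
    exact ⟨n, p1, hA _ m1, p2, hA _ m2, q1, hA _ m3, q2, hA _ m4, o⟩
  have ln : ∀ p q, Ln r Sm A' p q → Ln r Sm A p q := fun p q k =>
    ⟨hA _ k.1, hA _ k.2.1, k.2.2.imp_right (Or.imp (ov p q) (ov q p))⟩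
  have bg : ∀ p, Bg Sm A' p → Bg Sm A p := by
    rintro p ⟨m, a, m1, b, m2, o⟩
    exact ⟨hA _ m, a, hA _ m1, b, hA _ m2, o⟩
  intro p q bp bq n
  rcases h p q (bg p bp) (bg q bq) n with ⟨x, x1, x2, x3⟩ | x3
  · exact Or.inl ⟨x, x1, x2, fun k => x3 (rt_mono k (fun _ _ i => ⟨ln _ _ i.1, i.2⟩))⟩
  · exact Or.inr (fun k => x3 (rt_mono k (fun _ _ i => ⟨ln _ _ i.1, i.2⟩)))

theorem ln_of_sep (eqv : Equivalence Sm) (hr : Injective r) {y1 y2 k1 k2 : α} (m1 : y1 ∈ A)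
    (m2 : y2 ∈ A) (m3 : k1 ∈ A) (m4 : k2 ∈ A) (s1 : Sm y1 y2) (s2 : Sm k1 k2) (n : ¬ Sm y1 k1)
    (o1 : r y1 < r k1) (o2 : r k1 < r y2) (o3 : ¬ (r y1 < r k2 ∧ r k2 < r y2)) :
    Ln r Sm A y1 k1 := by
  have e1 : r k2 ≠ r y1 := fun e => n (hr e ▸ eqv.symm s2)
  have e2 : r k2 ≠ r y2 := fun e => n (eqv.trans s1 (hr e ▸ eqv.symm s2))
  refine ⟨m1, m3, Or.inr ?_⟩
  by_cases e : r k2 < r y1
  · exact Or.inr ⟨fun i => n (eqv.symm i), k2, m4, k1, m3, y1, m1, y2, m2, s2, eqv.refl _,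
      eqv.refl _, s1, e, o1, o2⟩
  · exact Or.inl ⟨n, y1, m1, y2, m2, k1, m3, k2, m4, eqv.refl _, s1, eqv.refl _, s2, o1, o2,
      by omega⟩

end Pool.Agent.Lib.MP_061452_co.OF
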