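import Pool.Agent.Lib.MP_061452_co.OF.Defs

set_option autoImplicit false

namespace Pool.Agent.Lib.MP_061452_co.OF

variable {V E : Type}

/-- The vertices `a` and `b` are equal, or the ends of an edge outside `S`, or both adjacent to
one component of the graph outside `S`. -/
def SameBridge (ends : E → Sym2 V) (S : Set E) (a b : V) : Prop :=
  a = b ∨ (∃ e : E, e ∉ S ∧ ends e = s(a, b)) ∨
    ∃ q : V, ¬ Touches ends S q ∧ a ∈ Attach ends S q ∧ b ∈ Attach ends S q

/-- The vertices `a` and `b` of `S` are attachments of one bridge, or of two bridges that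
overlap: two attachments of the first separate two attachments of the second one on `S`. -/
def BLink (ends : E → Sym2 V) (S : Set E) (a b : V) : Prop :=
  Touches ends S a ∧ Touches ends S b ∧ (SameBridge ends S a b ∨
    ∃ a₁ a₂ b₁ b₂ : V, Touches ends S a₁ ∧ Touches ends S a₂ ∧ Touches ends S b₁ ∧
      Touches ends S b₂ ∧ SameBridge ends S a a₁ ∧ SameBridge ends S a a₂ ∧
      SameBridge ends S b b₁ ∧ SameBridge ends S b b₂ ∧ Apart ends S a₁ a₂ b₁ b₂)

end Pool.Agent.Lib.MP_061452_co.OF
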