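import Pool.Agent.Lib.MP_061452_co.OF.Final
import Pool.Agent.Lib.MP_061452_co.OF.Unr
import Pool.Agent.Lib.MP_061452_co.OF.UDefs

set_option autoImplicit false

namespace Pool.Agent.Lib.MP_061452_co.OF

open Function

section

variable {V E α : Type} {ends : E → Sym2 V} {S : Set E} {σ : Equiv.Perm α} {v : α → V}
  {ε t : α → E} {w : α → V}

theorem has_partner (hl : ∀ e, ¬ (ends e).IsDiag) (h : Enum ends S σ v ε) (ht : Third ends S v t w)
    (h2 : ∀ x u u' : V, u ≠ x → u' ≠ x → (SimpleGraph.fromRel (fun a b : V =>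
      a ≠ x ∧ b ≠ x ∧ ∃ e : E, ends e = s(a, b))).Reachable u u') (p : α) :
    ∃ q, q ≠ p ∧ Same ends S t w p q := by
  have nw : w p ≠ v p := fun k => hl (t p) (by rw [(ht p).2.1, k]; exact Sym2.mk_isDiag_iff.2 rfl)
  by_cases k : Touches ends S (w p)
  · obtain ⟨q, hq⟩ := h.touches.1 k
    exact ⟨q, fun j => nw (by rw [← hq, j]),
      Or.inl ((ht q).2.2 _ (ht p).1 (by rw [(ht p).2.1, hq]; simp))⟩
  obtain ⟨wk⟩ := h2 (v p) (w p) (v (σ.symm p)) nw (fun j => h.ne hl p (h.1 j))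
  have key : ∀ a b (_ : (SimpleGraph.fromRel (fun a b : V =>
      a ≠ v p ∧ b ≠ v p ∧ ∃ e : E, ends e = s(a, b))).Walk a b), Touches ends S b →
      (Outside ends S).Reachable (w p) a → ∃ q, q ≠ p ∧ Same ends S t w p q := by
    intro a b wk
    induction wk with
    | nil => exact fun hb r => absurd hb (outside_reach r k)
    | @cons a a' b hadj _ ih =>
      intro hb r
      have na := outside_reach r k
      rw [SimpleGraph.fromRel_adj] at hadj
      have : a' ≠ v p ∧ ∃ e, ends e = s(a, a') := by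
        rcases hadj.2 with j | ⟨j1, _, e, j⟩
        exacts [j.2, ⟨j1, e, by rw [j, Sym2.eq_swap]⟩]
      obtain ⟨n1, e, he⟩ := this
      by_cases k' : Touches ends S a'
      · obtain ⟨q, rfl⟩ := h.touches.1 k'
        have := (ht.other (fun j => na ⟨e, j, by rw [he]; simp⟩) he).2
        exact ⟨q, fun j => n1 (by rw [j]), Or.inr ⟨k, this ▸ r⟩⟩
      · exact ih hb (r.trans (SimpleGraph.Adj.reachable
          ((SimpleGraph.fromRel_adj _ _ _).2 ⟨hadj.1, Or.inl ⟨na, k', e, he⟩⟩)))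
  exact key _ _ wk (h.touches.2 ⟨_, rfl⟩) (.refl _)

theorem bridge_iff (h : Enum ends S σ v ε) (ht : Third ends S v t w) (p q : α) :
    SameBridge ends S (v p) (v q) ↔ Same ends S t w p q := by
  have hon : ∀ p, Touches ends S (v p) := fun p => h.touches.2 ⟨p, rfl⟩
  have att : ∀ z p, v p ∈ Attach ends S z → ¬ Touches ends S (w p) ∧
      (Outside ends S).Reachable z (w p) := by
    rintro z p ⟨_, z', k1, k2, e, k3⟩
    have he : e ∉ S := fun k => k1 ⟨e, k, by rw [k3]; simp⟩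
    rw [(ht.other he k3).2]
    exact ⟨k1, k2⟩
  constructor
  · rintro (k | ⟨e, he, k⟩ | ⟨z, _, k1, k2⟩)
    · rw [h.1 k]; exact Or.inl rfl
    · refine Or.inl ?_
      rw [← (ht p).2.2 e he (by rw [k]; simp), ← (ht q).2.2 e he (by rw [k]; simp)]
    · exact Or.inr ⟨(att z p k1).1, (att z p k1).2.symm.trans (att z q k2).2⟩
  · have ed : ∀ q, ∃ e, ends e = s(w q, v q) := fun q => ⟨t q, by rw [(ht q).2.1, Sym2.eq_swap]⟩
    rintro (k | ⟨k1, k2⟩)
    · rcases ht.chord h k with j | j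
      · exact Or.inl (by rw [j])
      · exact Or.inr (Or.inl ⟨t p, (ht p).1, by rw [(ht p).2.1, j]⟩)
    · exact Or.inr (Or.inr ⟨w p, k1, ⟨hon p, w p, k1, .refl _, ed p⟩,
        ⟨hon q, w q, outside_reach k2 k1, k2, ed q⟩⟩)

end

theorem overlap_free {V E : Type} [Fintype V] [Fintype E] {ends : E → Sym2 V}
    (hl : ∀ e : E, ¬ (ends e).IsDiag) (hc : ∀ v : V, {e : E | v ∈ ends e}.ncard = 3)
    (h2 : ∀ x u v : V, u ≠ x → v ≠ x → (SimpleGraph.fromRel (fun a b : V =>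
      a ≠ x ∧ b ≠ x ∧ ∃ e : E, ends e = s(a, b))).Reachable u v)
    {S : Set E} (hS : IsCircuit ends S)
    (hsep : ∀ a b : V, Touches ends S a → Touches ends S b →
      3 ≤ {u | Touches ends S u ∧ SameBridge ends S a u}.ncard →
      3 ≤ {u | Touches ends S u ∧ SameBridge ends S b u}.ncard →
      ¬ SameBridge ends S a b →
      (∃ z : V, Touches ends S z ∧ ¬ SameBridge ends S z a ∧ ¬ SameBridge ends S z b ∧
        ¬ Relation.ReflTransGen (fun u v => BLink ends S u v ∧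
          ¬ SameBridge ends S z u ∧ ¬ SameBridge ends S z v) a b) ∨
      ¬ Relation.ReflTransGen (fun u v => BLink ends S u v ∧
        ¬ (SameBridge ends S a u ∧ SameBridge ends S b v) ∧
        ¬ (SameBridge ends S b u ∧ SameBridge ends S a v)) a b) :
    ∃ F : Set E, F ≠ S ∧ IsCircuit ends F ∧ IsCircuit ends (symmDiff S F) ∧
      BridgesAttach ends S F := by
  classical
  obtain ⟨e0, he0⟩ := hS.1
  obtain ⟨α, _, σ, g, r0, v, ε, _, e2, e3, e4, e5, hr0⟩ :=
    exists_enum hl hS (x := (ends e0).out.1) ⟨e0, he0, Sym2.out_fst_mem _⟩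
  have h : Enum ends S σ v ε := ⟨e2, e3, e4, e5⟩
  choose t w ht using fun p => exists_third hc hS (h.touches.2 ⟨p, rfl⟩)
  have eqv := same_equiv h ht (X := S) le_rfl
  have onS : ∀ p, Touches ends S (v p) := fun p => h.touches.2 ⟨p, rfl⟩
  have cl := bridge_iff h ht
  have eq2 : Equivalence (fun p q => SameBridge ends S (v p) (v q)) :=
    ⟨fun p => Or.inl rfl, fun k => (cl _ _).2 (eqv.symm ((cl _ _).1 k)),
      fun k k' => (cl _ _).2 (eqv.trans ((cl _ _).1 k) ((cl _ _).1 k'))⟩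
  have big : ∀ p, (∃ a1 a2, a1 ≠ p ∧ a2 ≠ p ∧ a1 ≠ a2 ∧
      SameBridge ends S (v p) (v a1) ∧ SameBridge ends S (v p) (v a2)) →
      3 ≤ {u | Touches ends S u ∧ SameBridge ends S (v p) u}.ncard := by
    rintro p ⟨a1, a2, n1, n2, n3, s1, s2⟩
    exact three_le_ncard (a := v p) (b := v a1) (d := v a2) ⟨onS p, Or.inl rfl⟩ ⟨onS a1, s1⟩
      ⟨onS a2, s2⟩ (fun k => n1 (h.1 k).symm) (fun k => n2 (h.1 k).symm) (fun k => n3 (h.1 k))
  obtain ⟨c, ρ, p0, ⟨hG, k1, k2, k3⟩, h0⟩ := unrooted (cyc_of hr0) g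
    (Lk := fun p q => BLink ends S (v p) (v q)) eq2
    (fun p => (has_partner hl h ht h2 p).imp (fun q k => ⟨k.1, (cl _ _).2 k.2⟩))
    (fun p q k => ⟨onS p, onS q, Or.inl k⟩)
    (fun _ _ hr p q p1 p2 q1 q2 _ s1 s2 s3 s4 l1 l2 l3 =>
      ⟨⟨onS p, onS q, Or.inr ⟨_, _, _, _, onS p1, onS p2, onS q1, onS q2, s1, s2, s3, s4,
          fin_apart h hr ⟨l1, l2⟩ (by omega)⟩⟩,
        ⟨onS q, onS p, Or.inr ⟨_, _, _, _, onS q1, onS q2, onS p2, onS p1, s3, s4, s2, s1,
          fin_apart h hr ⟨l2, l3⟩ (by omega)⟩⟩⟩)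
    (fun p q bp bq n => by
      rcases hsep _ _ (onS p) (onS q) (big p bp) (big q bq) n with ⟨z, z0, z1, z2, z3⟩ | z
      · obtain ⟨s, rfl⟩ := h.touches.1 z0
        exact Or.inl ⟨s, z1, z2, fun k => z3 (k.lift v (fun _ _ j => j))⟩
      · exact Or.inr (fun k => z (k.lift v (fun _ _ j => j))))
  obtain ⟨g', hv⟩ := hG.valid h0
  obtain ⟨F, _, hF⟩ := realise (P := ∅) (Root := fun _ => False) (p0 := p0) hl hc hS h ht hv
    (Set.empty_disjoint _) (fun _ k => k.elim) (fun _ _ k => k.elim) (Or.inl rfl)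
    (fun p hp _ => by rw [Set.union_empty]; exact (cl _ _).1 (k1 p hp).2)
    (fun p q hp hq _ _ => by rw [Set.union_empty]; exact fun s => k2 p q hp hq ((cl _ _).2 s))
    (fun p q hp hq => by
      rw [Set.union_empty]
      exact fun s => k3 p (Finset.mem_univ _) q (Finset.mem_univ _) hp hq ((cl _ _).2 s)) h0
  exact ⟨F, hF⟩

end Pool.Agent.Lib.MP_061452_co.OF
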